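import Mathlib
import Pool.Agent.W231.V.Ht

set_option autoImplicit false

/-!
The product formula and the height as finite sums, and an inequality of the type of the first main
theorem.
-/

namespace Pool.Agent.H50ET

open NumberField IsDedekindDomain Height Pool.Agent.W231.V

variable {K : Type*} [Field K] [NumberField K]

lemma sv_support_finite {ι : Type*} [Finite ι] {x : ι → K} (hx : x ≠ 0) :
    {v : HeightOneSpectrum (𝓞 K) | ⨆ i, fv v (x i) ≠ 1}.Finite := by
  classical
  obtain ⟨i0, hi0⟩ := Function.ne_iff.1 hx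
  have : Nonempty ι := ⟨i0⟩
  have hfin : (⋃ i ∈ {i : ι | x i ≠ 0}, {v : HeightOneSpectrum (𝓞 K) | fv v (x i) ≠ 1}).Finite :=
    Set.Finite.biUnion (Set.toFinite _) fun i hi => fv_support_finite hi
  refine hfin.subset fun v hv => ?_
  by_contra hcon
  simp only [Set.mem_iUnion, Set.mem_ofPred_eq, not_exists, not_not] at hcon
  refine hv (le_antisymm (ciSup_le fun i => ?_) ?_)
  · by_cases hi : x i = 0
    · rw [hi, map_zero]; exact zero_le_one
    · exact (hcon i hi).le
  · exact (hcon i0 hi0).symm.le.trans (le_ciSup (Set.finite_range fun i => fv v (x i)).bddAbove i0)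

lemma sv_pos {ι : Type*} [Finite ι] {x : ι → K} (hx : x ≠ 0) (v : HeightOneSpectrum (𝓞 K)) :
    0 < ⨆ i, fv v (x i) := by
  obtain ⟨i0, hi0⟩ := Function.ne_iff.1 hx
  exact ((fv v).pos hi0).trans_le (le_ciSup (Set.finite_range fun i => fv v (x i)).bddAbove i0)

lemma iv_pos {ι : Type*} [Finite ι] {x : ι → K} (hx : x ≠ 0) (w : InfinitePlace K) :
    0 < ⨆ i, w (x i) := by
  obtain ⟨i0, hi0⟩ := Function.ne_iff.1 hx
  exact (InfinitePlace.pos_iff.2 hi0 : 0 < w (x i0)).trans_le
    (le_ciSup (Set.finite_range fun i => w (x i)).bddAbove i0)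

lemma finprod_places (f : FinitePlace K → ℝ) :
    ∏ᶠ w : FinitePlace K, f w = ∏ᶠ v : HeightOneSpectrum (𝓞 K), f (FinitePlace.mk v) := by
  rw [← finprod_comp_equiv (FinitePlace.equivHeightOneSpectrum (K := K)).symm]
  rfl

lemma logHeight_eq_sum {ι : Type*} [Finite ι] {x : ι → K} (hx : x ≠ 0)
    (S : Finset (HeightOneSpectrum (𝓞 K))) (hS : ∀ v ∉ S, ⨆ i, fv v (x i) = 1) :
    logHeight x = ∑ w : InfinitePlace K, (w.mult : ℝ) * Real.log (⨆ i, w (x i)) +
      ∑ v ∈ S, Real.log (⨆ i, fv v (x i)) := by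
  have h1 : ∏ᶠ w : FinitePlace K, ⨆ i, w (x i) = ∏ v ∈ S, ⨆ i, fv v (x i) := by
    rw [finprod_places fun w => ⨆ i, w (x i)]
    refine finprod_eq_prod_of_mulSupport_subset _ fun v hv => ?_
    by_contra hcon
    exact hv (hS v (by simpa using hcon))
  rw [logHeight_eq_log_mulHeight, NumberField.mulHeight_eq hx, h1, Real.log_mul, Real.log_prod,
    Real.log_prod]
  · congr 1
    refine Finset.sum_congr rfl fun w _ => ?_
    rw [Real.log_pow]
  · intro v _; exact (sv_pos hx v).ne'
  · intro w _; exact pow_ne_zero _ (iv_pos hx w).ne'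
  · exact Finset.prod_ne_zero_iff.2 fun w _ => pow_ne_zero _ (iv_pos hx w).ne'
  · exact Finset.prod_ne_zero_iff.2 fun v _ => (sv_pos hx v).ne'

lemma product_formula_sum {u : K} (hu : u ≠ 0) (S : Finset (HeightOneSpectrum (𝓞 K)))
    (hS : ∀ v ∉ S, fv v u = 1) :
    ∑ w : InfinitePlace K, (w.mult : ℝ) * Real.log (w u) + ∑ v ∈ S, Real.log (fv v u) = 0 := by
  have h0 := NumberField.prod_abs_eq_one hu
  have h1 : ∏ᶠ w : FinitePlace K, w u = ∏ v ∈ S, fv v u := by
    rw [finprod_places fun w => w u]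
    refine finprod_eq_prod_of_mulSupport_subset _ fun v hv => ?_
    by_contra hcon
    exact hv (hS v (by simpa using hcon))
  rw [h1] at h0
  have h2 := congrArg Real.log h0
  rw [Real.log_mul, Real.log_prod, Real.log_prod, Real.log_one] at h2
  · rw [← h2]
    congr 1
    refine Finset.sum_congr rfl fun w _ => ?_
    rw [Real.log_pow]
  · intro v _; exact ((fv v).pos hu).ne'
  · intro w _; exact pow_ne_zero _ (InfinitePlace.pos_iff.2 hu : 0 < w u).ne'
  · exact Finset.prod_ne_zero_iff.2 fun w _ =>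
      pow_ne_zero _ (InfinitePlace.pos_iff.2 hu : 0 < w u).ne'
  · exact Finset.prod_ne_zero_iff.2 fun v _ => ((fv v).pos hu).ne'

/-- the first main theorem, for the value `u` at `x` of a form of degree `d` -/
theorem fmt {ι : Type*} [Finite ι] {x : ι → K} (hx : x ≠ 0) {u : K} (hu : u ≠ 0) (d N : ℕ)
    (hN : 1 ≤ N) (T0 : Finset (HeightOneSpectrum (𝓞 K))) (R : HeightOneSpectrum (𝓞 K) → ℝ)
    (hR : ∀ v, 0 < R v) (hR1 : ∀ v ∉ T0, R v = 1) (R' : ℝ) (hR' : 0 < R')
    (hinf : ∀ w : InfinitePlace K, w u ≤ R' * (⨆ i, w (x i)) ^ d)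
    (hfin : ∀ v, fv v u ≤ R v * fv v (N : K) * (⨆ i, fv v (x i)) ^ d)
    (T : Finset (HeightOneSpectrum (𝓞 K))) (hT0 : Disjoint T T0)
    (hTN : ∀ v ∈ T, fv v (N : K) = 1)
    (hT : ∀ v ∈ T, fv v u < (⨆ i, fv v (x i)) ^ d) :
    ∑ v ∈ T, ell v + (totalWeight K : ℝ) * Real.log N ≤
      d * logHeight x + ((totalWeight K : ℝ) * Real.log R' + ∑ v ∈ T0, Real.log (R v)) := by
  classical
  obtain ⟨i0, hi0⟩ := Function.ne_iff.1 hx
  have hne : Nonempty ι := ⟨i0⟩
  have hNK : (N : K) ≠ 0 := Nat.cast_ne_zero.2 (by omega)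
  have hNR : (0 : ℝ) < N := by exact_mod_cast (by omega : 0 < N)
  -- a large finite set of primes
  set S : Finset (HeightOneSpectrum (𝓞 K)) := (sv_support_finite hx).toFinset ∪
    (fv_support_finite hu).toFinset ∪ (fv_support_finite hNK).toFinset ∪ T ∪ T0 with hS
  have hS1 : ∀ v ∉ S, ⨆ i, fv v (x i) = 1 := by
    intro v hv
    by_contra hcon
    refine hv ?_
    rw [hS]
    simp only [Finset.mem_union, Set.Finite.mem_toFinset, Set.mem_ofPred_eq]
    exact Or.inl (Or.inl (Or.inl (Or.inl hcon)))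
  have hS2 : ∀ v ∉ S, fv v u = 1 := by
    intro v hv
    by_contra hcon
    refine hv ?_
    rw [hS]
    simp only [Finset.mem_union, Set.Finite.mem_toFinset, Set.mem_ofPred_eq]
    exact Or.inl (Or.inl (Or.inl (Or.inr hcon)))
  have hS3 : ∀ v ∉ S, fv v (N : K) = 1 := by
    intro v hv
    by_contra hcon
    refine hv ?_
    rw [hS]
    simp only [Finset.mem_union, Set.Finite.mem_toFinset, Set.mem_ofPred_eq]
    exact Or.inl (Or.inl (Or.inr hcon))
  have hTS : T ∪ T0 ⊆ S := by
    rw [hS, Finset.union_assoc _ T T0]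
    exact Finset.subset_union_right
  have e1 := logHeight_eq_sum hx S hS1
  have e2 := product_formula_sum hu S hS2
  have e3 := product_formula_sum hNK S hS3
  -- the terms of the sum at the infinite places
  have k1 : ∀ w : InfinitePlace K, (w.mult : ℝ) * Real.log (w u) ≤
      (w.mult : ℝ) * Real.log R' + d * ((w.mult : ℝ) * Real.log (⨆ i, w (x i))) := by
    intro w
    have h1 : 0 < w u := InfinitePlace.pos_iff.2 hu
    have h2 := Real.log_le_log h1 (hinf w)
    rw [Real.log_mul hR'.ne' (pow_ne_zero _ (iv_pos hx w).ne'), Real.log_pow] at h2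
    have h3 := mul_le_mul_of_nonneg_left h2 (Nat.cast_nonneg (α := ℝ) w.mult)
    linarith
  have k1' := Finset.sum_le_sum fun w (_ : w ∈ (Finset.univ : Finset (InfinitePlace K))) => k1 w
  rw [Finset.sum_add_distrib, ← Finset.sum_mul, ← Finset.mul_sum, sum_mult] at k1'
  have k2 : ∑ w : InfinitePlace K, (w.mult : ℝ) * Real.log (w (N : K)) =
      (totalWeight K : ℝ) * Real.log N := by
    have : ∀ w : InfinitePlace K, (w.mult : ℝ) * Real.log (w (N : K)) =
        (w.mult : ℝ) * Real.log N := by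
      intro w
      have e : w (N : K) = N := by simp
      rw [e]
    rw [Finset.sum_congr rfl fun w _ => this w, ← Finset.sum_mul, sum_mult]
  rw [k2] at e3
  -- the terms at the finite places
  have k3 : ∀ v, -Real.log (R v) ≤ d * Real.log (⨆ i, fv v (x i)) + Real.log (fv v (N : K)) -
      Real.log (fv v u) := by
    intro v
    have h1 : 0 < fv v u := (fv v).pos hu
    have h2 := Real.log_le_log h1 (hfin v)
    rw [Real.log_mul (mul_pos (hR v) ((fv v).pos hNK)).ne' (pow_ne_zero _ (sv_pos hx v).ne'),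
      Real.log_mul (hR v).ne' ((fv v).pos hNK).ne', Real.log_pow] at h2
    linarith
  have k4 : ∀ v ∈ T, ell v ≤ d * Real.log (⨆ i, fv v (x i)) + Real.log (fv v (N : K)) -
      Real.log (fv v u) := by
    intro v hv
    rw [hTN v hv, Real.log_one, add_zero]
    obtain ⟨j, hj⟩ := exists_eq_ciSup_of_finite (f := fun i => fv v (x i))
    have hsv := sv_pos hx v
    have hj' : ⨆ i, fv v (x i) = fv v (x j) := hj.symm
    have hxj : x j ≠ 0 := by
      intro h
      rw [hj', h, map_zero] at hsv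
      exact lt_irrefl _ hsv
    obtain ⟨p, hp⟩ := fv_zpow v hxj
    obtain ⟨q, hq⟩ := fv_zpow v hu
    have h1 := hT v hv
    rw [hj', hp, hq]
    rw [hj', hp, hq, ← zpow_natCast, ← zpow_mul] at h1
    have h2 := (zpow_lt_zpow_iff_right₀ (one_lt_norm v)).1 h1
    rw [Real.log_zpow, Real.log_zpow]
    have h3 : (q : ℝ) + 1 ≤ p * d := by
      exact_mod_cast (by omega : q + 1 ≤ p * d)
    have h4 := mul_le_mul_of_nonneg_right h3 (ell_pos v).le
    unfold ell at h4 ⊢
    linarith
  have k5 : ∑ v ∈ T, ell v + ∑ v ∈ T0, -Real.log (R v) ≤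
      ∑ v ∈ S, (d * Real.log (⨆ i, fv v (x i)) + Real.log (fv v (N : K)) -
        Real.log (fv v u)) := by
    have h1 : ∑ v ∈ T ∪ T0, (d * Real.log (⨆ i, fv v (x i)) + Real.log (fv v (N : K)) -
        Real.log (fv v u)) ≤ ∑ v ∈ S, (d * Real.log (⨆ i, fv v (x i)) +
          Real.log (fv v (N : K)) - Real.log (fv v u)) := by
      refine Finset.sum_le_sum_of_subset_of_nonneg hTS fun v _ hv => ?_
      have h2 := k3 v
      rw [hR1 v (fun h => hv (Finset.mem_union_right _ h)), Real.log_one, neg_zero] at h2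
      exact h2
    rw [Finset.sum_union hT0] at h1
    refine le_trans (add_le_add ?_ ?_) h1
    · exact Finset.sum_le_sum k4
    · exact Finset.sum_le_sum fun v _ => k3 v
  rw [Finset.sum_sub_distrib, Finset.sum_add_distrib, ← Finset.mul_sum] at k5
  rw [Finset.sum_neg_distrib] at k5
  rw [e1, mul_add]
  linarith

end Pool.Agent.H50ET
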