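import Mathlib
import Pool.Agent.W231.V.Ht

set_option autoImplicit false

/-!
Bounds for the values of polynomials.
-/

namespace Pool.Agent.H50ET

open NumberField IsDedekindDomain Height Pool.Agent.W231.V

section general

variable {K : Type*} [Field K]

lemma mv_bound {σ : Type*} (f : AbsoluteValue K ℝ) (P : MvPolynomial σ K) (ρ : ℝ) :
    ∃ C : ℝ, 0 ≤ C ∧ ∀ w : σ → K, (∀ j, f (w j) ≤ ρ) → f (MvPolynomial.eval w P) ≤ C := by
  induction P using MvPolynomial.induction_on with
  | C a => exact ⟨f a, f.nonneg _, fun w _ => by rw [MvPolynomial.eval_C]⟩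
  | add p q hp hq =>
    obtain ⟨C1, h1, h1'⟩ := hp
    obtain ⟨C2, h2, h2'⟩ := hq
    refine ⟨C1 + C2, add_nonneg h1 h2, fun w hw => ?_⟩
    rw [map_add]
    exact (f.add_le _ _).trans (add_le_add (h1' w hw) (h2' w hw))
  | mul_X p j hp =>
    obtain ⟨C1, h1, h1'⟩ := hp
    refine ⟨C1 * max ρ 0, mul_nonneg h1 (le_max_right _ _), fun w hw => ?_⟩
    rw [map_mul, map_mul, MvPolynomial.eval_X]
    exact mul_le_mul (h1' w hw) ((hw j).trans (le_max_left _ _)) (f.nonneg _) h1

/-- Taylor expansion at `z` of a polynomial of multiplicity at least `μ` there -/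
lemma taylor [Infinite K] {σ : Type*} (F : MvPolynomial σ K) (z : σ → K) (μ : ℕ)
    (h : ∀ w : σ → K, (Polynomial.X : Polynomial K) ^ μ ∣ MvPolynomial.eval₂ Polynomial.C
      (fun j => Polynomial.C (z j) + Polynomial.X * Polynomial.C (w j)) F) :
    ∃ Q : Polynomial (MvPolynomial σ K), ∀ (t : K) (w : σ → K),
      MvPolynomial.eval (fun j => z j + t * w j) F =
        t ^ μ * (Q.map (MvPolynomial.eval w)).eval t := by
  set P : Polynomial (MvPolynomial σ K) := MvPolynomial.eval₂
    (Polynomial.C.comp MvPolynomial.C)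
    (fun j => Polynomial.C (MvPolynomial.C (z j)) + Polynomial.X * Polynomial.C (MvPolynomial.X j))
    F with hP
  have hmap : ∀ w : σ → K, P.map (MvPolynomial.eval w) = MvPolynomial.eval₂ Polynomial.C
      (fun j => Polynomial.C (z j) + Polynomial.X * Polynomial.C (w j)) F := by
    intro w
    have e1 : P.map (MvPolynomial.eval w) = Polynomial.mapRingHom (MvPolynomial.eval w) P := rfl
    rw [e1, hP, MvPolynomial.hom_eval₂]
    have e2 : (Polynomial.mapRingHom (MvPolynomial.eval w)).comp
        (Polynomial.C.comp MvPolynomial.C) = Polynomial.C := by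
      ext c; simp
    rw [e2]
    congr 1
    funext j
    simp
  have hdvd : (Polynomial.X : Polynomial (MvPolynomial σ K)) ^ μ ∣ P := by
    rw [Polynomial.X_pow_dvd_iff]
    intro k hk
    refine MvPolynomial.funext fun w => ?_
    have h1 := (Polynomial.X_pow_dvd_iff.1 (h w)) k hk
    rw [← hmap w, Polynomial.coeff_map] at h1
    rw [h1, map_zero]
  obtain ⟨Q, hQ⟩ := hdvd
  refine ⟨Q, fun t w => ?_⟩
  have h1 : (P.map (MvPolynomial.eval w)).eval t = MvPolynomial.eval (fun j => z j + t * w j) F := by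
    rw [hmap w]
    have e1 : (MvPolynomial.eval₂ Polynomial.C (fun j => Polynomial.C (z j) +
        Polynomial.X * Polynomial.C (w j)) F).eval t = Polynomial.evalRingHom t
        (MvPolynomial.eval₂ Polynomial.C (fun j => Polynomial.C (z j) +
        Polynomial.X * Polynomial.C (w j)) F) := rfl
    rw [e1, MvPolynomial.hom_eval₂]
    have e2 : (Polynomial.evalRingHom t).comp Polynomial.C = RingHom.id K := by
      ext c; simp
    rw [e2]
    change MvPolynomial.eval₂ (RingHom.id K) _ F = _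
    congr 1
    funext j
    simp only [Polynomial.coe_evalRingHom, Polynomial.eval_add, Polynomial.eval_C,
      Polynomial.eval_mul, Polynomial.eval_X]
  rw [← h1, hQ]
  simp

/-- homogeneous polynomials, all absolute values -/
lemma hom_bound {σ : Type*} [Fintype σ] [Nonempty σ] (f : AbsoluteValue K ℝ)
    {F : MvPolynomial σ K} {d : ℕ}
    (hF : F.IsHomogeneous d) (x : σ → K) :
    f (MvPolynomial.eval x F) ≤ (∑ s ∈ F.support, f (F.coeff s)) * (⨆ j, f (x j)) ^ d := by
  rw [MvPolynomial.eval_eq', Finset.sum_mul]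
  refine (AbsoluteValue.sum_le f _ _).trans (Finset.sum_le_sum fun s hs => ?_)
  rw [map_mul, map_prod]
  refine mul_le_mul_of_nonneg_left ?_ (f.nonneg _)
  have hsup : 0 ≤ ⨆ j, f (x j) := Real.iSup_nonneg fun j => f.nonneg _
  have h1 : ∏ i, f (x i ^ s i) ≤ ∏ i, (⨆ j, f (x j)) ^ s i := by
    refine Finset.prod_le_prod (fun i _ => f.nonneg _) fun i _ => ?_
    rw [map_pow]
    exact pow_le_pow_left₀ (f.nonneg _)
      (le_ciSup (Set.finite_range fun i => f (x i)).bddAbove i) _
  refine h1.trans (le_of_eq ?_)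
  rw [Finset.prod_pow_eq_pow_sum]
  congr 1
  have h2 := hF (MvPolynomial.mem_support_iff.1 hs)
  rw [← h2]
  rw [Finsupp.weight_apply, Finsupp.sum_fintype]
  · simp
  · intro i; simp

/-- homogeneous polynomials, nonarchimedean absolute values, integral coefficients -/
lemma hom_bound_na {σ : Type*} [Fintype σ] [Nonempty σ] (f : AbsoluteValue K ℝ)
    (hf : ∀ a b, f (a + b) ≤ max (f a) (f b))
    {F : MvPolynomial σ K} {d : ℕ}
    (hF : F.IsHomogeneous d) (h1 : ∀ s, f (F.coeff s) ≤ 1) (x : σ → K) :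
    f (MvPolynomial.eval x F) ≤ (⨆ j, f (x j)) ^ d := by
  have hsup : 0 ≤ ⨆ j, f (x j) := Real.iSup_nonneg fun j => f.nonneg _
  rw [MvPolynomial.eval_eq']
  refine Finset.sum_induction (fun s => MvPolynomial.coeff s F * ∏ i, x i ^ s i)
    (fun y => f y ≤ (⨆ j, f (x j)) ^ d)
    (fun a b ha hb => (hf a b).trans (max_le ha hb)) (by rw [map_zero]; positivity) ?_
  intro s hs
  rw [map_mul, map_prod]
  have h2 : ∏ i, f (x i ^ s i) ≤ ∏ i, (⨆ j, f (x j)) ^ s i := by
    refine Finset.prod_le_prod (fun i _ => f.nonneg _) fun i _ => ?_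
    rw [map_pow]
    exact pow_le_pow_left₀ (f.nonneg _)
      (le_ciSup (Set.finite_range fun i => f (x i)).bddAbove i) _
  have h3 : ∏ i, (⨆ j, f (x j)) ^ s i = (⨆ j, f (x j)) ^ d := by
    rw [Finset.prod_pow_eq_pow_sum]
    congr 1
    have h2 := hF (MvPolynomial.mem_support_iff.1 hs)
    rw [← h2]
    rw [Finsupp.weight_apply, Finsupp.sum_fintype]
    · simp
    · intro i; simp
  rw [h3] at h2
  calc _ ≤ 1 * (⨆ j, f (x j)) ^ d :=
        mul_le_mul (h1 s) h2 (Finset.prod_nonneg fun i _ => f.nonneg _) zero_le_one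
    _ = _ := one_mul _

end general

end Pool.Agent.H50ET
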