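import Mathlib
import Pool.Agent.H50ET.Poly

set_option autoImplicit false

/-!
The values of a form at the points of the construction, at one prime.
-/

namespace Pool.Agent.H50ET

open NumberField IsDedekindDomain Height Pool.Agent.W231.V

variable {K : Type*} [Field K] [NumberField K]

/-- the point with `L j x = a j * ζ j` -/
noncomputable def pnt {n : ℕ} (E : Fin (n + 1) → Fin (n + 1) → K) (ζ : Fin (n + 1) → K)
    (a : Fin (n + 1) → ℕ) (i : Fin (n + 1)) : K := ∑ k, E i k * ((a k : K) * ζ k)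

lemma fv_int (v : HeightOneSpectrum (𝓞 K)) (n : ℤ) : fv v (n : K) ≤ 1 := by
  rcases n.eq_nat_or_neg with ⟨k, rfl | rfl⟩
  · simpa using fv_nat v k
  · rw [Int.cast_neg, map_neg_eq_map]
    simpa using fv_nat v k

lemma fv_odd (v : HeightOneSpectrum (𝓞 K)) (h2 : fv v (2 : K) < 1) {a : ℕ} (ha : Odd a) :
    fv v (a : K) = 1 := by
  refine le_antisymm (fv_nat v a) ?_
  by_contra hcon
  push Not at hcon
  obtain ⟨q, rfl⟩ := ha
  have h1 : (1 : K) = ((2 * q + 1 : ℕ) : K) + -(2 * (q : K)) := by push_cast; ring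
  have h3 : fv v (1 : K) < 1 := by
    rw [h1]
    refine (fv_na v _ _).trans_lt (max_lt hcon ?_)
    rw [map_neg_eq_map, map_mul]
    calc fv v (2 : K) * fv v (q : K) ≤ fv v (2 : K) * 1 :=
          mul_le_mul_of_nonneg_left (fv_nat v q) ((fv v).nonneg _)
      _ < 1 := by rw [mul_one]; exact h2
  rw [map_one] at h3
  exact lt_irrefl _ h3

lemma fv_sum_le {ι : Type*} (v : HeightOneSpectrum (𝓞 K)) (s : Finset ι) (f : ι → K) (C : ℝ)
    (hC : 0 ≤ C) (h : ∀ i ∈ s, fv v (f i) ≤ C) : fv v (∑ i ∈ s, f i) ≤ C :=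
  Finset.sum_induction f (fun y => fv v y ≤ C)
    (fun a b ha hb => (fv_na v a b).trans (max_le ha hb)) (by rw [map_zero]; exact hC) h

/-- lower bound for the size of the points at the primes above `2` -/
lemma size_lower {n : ℕ} (L E : Fin (n + 1) → Fin (n + 1) → K) (ζ : Fin (n + 1) → K)
    (hE : ∀ (b : Fin (n + 1) → K) j, ∑ i, L j i * (∑ k, E i k * b k) = b j)
    (hζ : ∀ j, ζ j ≠ 0) (v : HeightOneSpectrum (𝓞 K)) (h2 : fv v (2 : K) < 1) :
    ∃ c : ℝ, 0 < c ∧ ∀ a : Fin (n + 1) → ℕ, Odd (a 0) → c ≤ ⨆ i, fv v (pnt E ζ a i) := by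
  set M : ℝ := ∑ i, fv v (L 0 i) + 1 with hM
  have hM0 : 0 < M := by
    have : 0 ≤ ∑ i, fv v (L 0 i) := Finset.sum_nonneg fun i _ => (fv v).nonneg _
    linarith
  refine ⟨fv v (ζ 0) / M, div_pos ((fv v).pos (hζ 0)) hM0, fun a ha => ?_⟩
  rw [div_le_iff₀ hM0]
  have h1 : fv v (ζ 0) = fv v (∑ i, L 0 i * pnt E ζ a i) := by
    unfold pnt
    rw [hE, map_mul, fv_odd v h2 ha, one_mul]
  rw [h1]
  refine (AbsoluteValue.sum_le (fv v) _ _).trans ?_
  have h3 : ∀ i ∈ (Finset.univ : Finset (Fin (n + 1))), fv v (L 0 i * pnt E ζ a i) ≤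
      fv v (L 0 i) * ⨆ i, fv v (pnt E ζ a i) := fun i _ => by
    rw [map_mul]
    exact mul_le_mul_of_nonneg_left
      (le_ciSup (Set.finite_range fun i => fv v (pnt E ζ a i)).bddAbove i) ((fv v).nonneg _)
  refine (Finset.sum_le_sum h3).trans ?_
  rw [← Finset.sum_mul, mul_comm]
  refine mul_le_mul_of_nonneg_left (by rw [hM]; linarith) ?_
  exact Real.iSup_nonneg fun i => (fv v).nonneg _

theorem local_bound {n : ℕ} (L E : Fin (n + 1) → Fin (n + 1) → K) (ζ z : Fin (n + 1) → K)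
    (hE : ∀ (b : Fin (n + 1) → K) j, ∑ i, L j i * (∑ k, E i k * b k) = b j)
    (hz : ∀ i, z i = ∑ k, E i k * ζ k) (hζ : ∀ j, ζ j ≠ 0)
    (F : MvPolynomial (Fin (n + 1)) K) (κ : ℕ) (hF : F.IsHomogeneous κ) (μ : ℕ)
    (hmult : ∀ w : Fin (n + 1) → K, (Polynomial.X : Polynomial K) ^ μ ∣ MvPolynomial.eval₂
      Polynomial.C (fun j => Polynomial.C (z j) + Polynomial.X * Polynomial.C (w j)) F)
    (v : HeightOneSpectrum (𝓞 K)) :
    ∃ R : ℝ, 0 < R ∧ ∀ (m : ℕ) (a : Fin (n + 1) → ℕ), (∀ j, Odd (a j)) →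
      (∀ j, a j % 2 ^ m = a 0 % 2 ^ m) →
      fv v (MvPolynomial.eval (pnt E ζ a) F) ≤
        R * fv v ((2 ^ (m * μ) : ℕ) : K) * (⨆ i, fv v (pnt E ζ a i)) ^ κ := by
  classical
  have hsup0 : ∀ a : Fin (n + 1) → ℕ, 0 ≤ ⨆ i, fv v (pnt E ζ a i) := fun a =>
    Real.iSup_nonneg fun i => (fv v).nonneg _
  by_cases h2 : fv v (2 : K) = 1
  · refine ⟨∑ s ∈ F.support, fv v (F.coeff s) + 1, ?_, fun m a _ _ => ?_⟩
    · have : 0 ≤ ∑ s ∈ F.support, fv v (F.coeff s) := Finset.sum_nonneg fun s _ => (fv v).nonneg _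
      linarith
    · have h3 : fv v ((2 ^ (m * μ) : ℕ) : K) = 1 := by
        push_cast
        rw [map_pow, h2, one_pow]
      rw [h3, mul_one]
      refine (hom_bound (fv v) hF _).trans ?_
      exact mul_le_mul_of_nonneg_right (by linarith) (pow_nonneg (hsup0 a) _)
  · have h2' : fv v (2 : K) < 1 := by
      have := fv_nat v (K := K) 2
      push_cast at this
      exact lt_of_le_of_ne this h2
    obtain ⟨c, hc, hc'⟩ := size_lower L E ζ hE hζ v h2'
    obtain ⟨Q, hQ⟩ := taylor F z μ hmult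
    set ρ : ℝ := ∑ i, ∑ k, fv v (E i k * ζ k) with hρ
    choose C hC0 hC using fun k : ℕ => mv_bound (fv v) (Q.coeff k) ρ
    set M : ℝ := ∑ k ∈ Finset.range (Q.natDegree + 1), C k + 1 with hM
    have hM0 : 0 < M := by
      have : 0 ≤ ∑ k ∈ Finset.range (Q.natDegree + 1), C k :=
        Finset.sum_nonneg fun k _ => hC0 k
      linarith
    refine ⟨M / c ^ κ, div_pos hM0 (pow_pos hc _), fun m a hodd hcong => ?_⟩
    -- the integers `b`
    have hb : ∀ k, ∃ b : ℤ, (a k : K) = (a 0 : K) + 2 ^ m * b := by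
      intro k
      have h1 : (2 ^ m : ℤ) ∣ (a k : ℤ) - a 0 := by
        have h3 := hcong k
        have h4 : (a k : ℤ) ≡ a 0 [ZMOD ((2 ^ m : ℕ) : ℤ)] := by
          rw [Int.natCast_modEq_iff]; exact h3
        have h5 := h4.symm.dvd
        push_cast at h5
        exact h5
      obtain ⟨b, hb⟩ := h1
      refine ⟨b, ?_⟩
      have h6 : (a k : ℤ) = a 0 + 2 ^ m * b := by linarith
      have h7 := congrArg (Int.cast : ℤ → K) h6
      push_cast at h7
      exact h7
    choose b hb using hb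
    have ha0K : (a 0 : K) ≠ 0 := Nat.cast_ne_zero.2 (hodd 0).pos.ne'
    set t : K := 2 ^ m / (a 0 : K) with ht
    set w : Fin (n + 1) → K := fun i => ∑ k, E i k * ((b k : K) * ζ k) with hw
    have hx : ∀ i, pnt E ζ a i = (a 0 : K) * (z i + t * w i) := by
      intro i
      rw [pnt, hz, hw, ht]
      rw [mul_add, ← mul_assoc, mul_div_cancel₀ _ ha0K, Finset.mul_sum, Finset.mul_sum,
        ← Finset.sum_add_distrib]
      refine Finset.sum_congr rfl fun k _ => ?_
      rw [hb k]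
      ring
    have hFx : MvPolynomial.eval (pnt E ζ a) F =
        (a 0 : K) ^ κ * (t ^ μ * (Q.map (MvPolynomial.eval w)).eval t) := by
      rw [← hQ t w]
      have h1 : (pnt E ζ a) = fun i => (a 0 : K) * (z i + t * w i) := funext hx
      rw [h1]
      rw [MvPolynomial.eval_eq', MvPolynomial.eval_eq', Finset.mul_sum]
      refine Finset.sum_congr rfl fun s hs => ?_
      have h4 : ∏ i, ((a 0 : K) * (z i + t * w i)) ^ s i =
          (a 0 : K) ^ κ * ∏ i, (z i + t * w i) ^ s i := by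
        simp only [mul_pow]
        rw [Finset.prod_mul_distrib, Finset.prod_pow_eq_pow_sum]
        congr 2
        have h5 := hF (MvPolynomial.mem_support_iff.1 hs)
        rw [← h5]
        rw [Finsupp.weight_apply, Finsupp.sum_fintype]
        · simp
        · intro i; simp
      rw [h4]
      ring
    have hfa0 : fv v (a 0 : K) = 1 := fv_odd v h2' (hodd 0)
    have hft : fv v t = fv v (2 : K) ^ m := by
      rw [ht, map_div₀, map_pow, hfa0, div_one]
    have hft1 : fv v t ≤ 1 := by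
      rw [hft]
      exact pow_le_one₀ ((fv v).nonneg _) h2'.le
    have hwρ : ∀ i, fv v (w i) ≤ ρ := by
      intro i
      refine (AbsoluteValue.sum_le (fv v) _ _).trans ?_
      have h1 : ∀ k ∈ (Finset.univ : Finset (Fin (n + 1))), fv v (E i k * ((b k : K) * ζ k)) ≤
          fv v (E i k * ζ k) := fun k _ => by
        rw [map_mul, map_mul, map_mul]
        have := fv_int v (b k)
        calc fv v (E i k) * (fv v (b k : K) * fv v (ζ k)) ≤ fv v (E i k) * (1 * fv v (ζ k)) := by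
              refine mul_le_mul_of_nonneg_left ?_ ((fv v).nonneg _)
              exact mul_le_mul_of_nonneg_right this ((fv v).nonneg _)
          _ = _ := by rw [one_mul]
      refine (Finset.sum_le_sum h1).trans ?_
      exact Finset.single_le_sum (f := fun i => ∑ k, fv v (E i k * ζ k))
        (fun i _ => Finset.sum_nonneg fun k _ => (fv v).nonneg _) (Finset.mem_univ i)
    have hQb : fv v ((Q.map (MvPolynomial.eval w)).eval t) ≤ M := by
      have hdeg : (Q.map (MvPolynomial.eval w)).natDegree < Q.natDegree + 1 :=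
        Nat.lt_succ_of_le Polynomial.natDegree_map_le
      rw [Polynomial.eval_eq_sum_range' hdeg]
      refine (AbsoluteValue.sum_le (fv v) _ _).trans ?_
      have h1 : ∀ k ∈ Finset.range (Q.natDegree + 1),
          fv v ((Q.map (MvPolynomial.eval w)).coeff k * t ^ k) ≤ C k := fun k _ => by
        rw [map_mul, map_pow, Polynomial.coeff_map]
        calc _ ≤ C k * 1 := by
              refine mul_le_mul (hC k w hwρ) (pow_le_one₀ ((fv v).nonneg _) hft1)
                (pow_nonneg ((fv v).nonneg _) _) (hC0 k)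
          _ = C k := mul_one _
      refine (Finset.sum_le_sum h1).trans ?_
      rw [hM]; linarith
    have hc1 := hc' a (hodd 0)
    have h4 : fv v ((2 ^ (m * μ) : ℕ) : K) = fv v (2 : K) ^ (m * μ) := by
      push_cast
      rw [map_pow]
    rw [hFx, map_mul, map_mul, map_pow, map_pow, hfa0, one_pow, one_mul, hft, ← pow_mul, h4]
    have h5 : 0 ≤ fv v (2 : K) ^ (m * μ) := pow_nonneg ((fv v).nonneg _) _
    have h6 : M ≤ M / c ^ κ * (⨆ i, fv v (pnt E ζ a i)) ^ κ := by
      rw [div_mul_eq_mul_div, le_div_iff₀ (pow_pos hc _)]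
      exact mul_le_mul_of_nonneg_left (pow_le_pow_left₀ hc.le hc1 _) hM0.le
    calc fv v (2 : K) ^ (m * μ) * fv v ((Q.map (MvPolynomial.eval w)).eval t) ≤
          fv v (2 : K) ^ (m * μ) * M := mul_le_mul_of_nonneg_left hQb h5
      _ ≤ fv v (2 : K) ^ (m * μ) * (M / c ^ κ * (⨆ i, fv v (pnt E ζ a i)) ^ κ) :=
          mul_le_mul_of_nonneg_left h6 h5
      _ = _ := by ring

end Pool.Agent.H50ET
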