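import Mathlib
import Pool.Agent.H50ET.Local
import Pool.Agent.H50ET.Fmt

set_option autoImplicit false

/-!
The heights of the points of the construction.
-/

namespace Pool.Agent.H50ET

open NumberField IsDedekindDomain Height Pool.Agent.W231.V

variable {K : Type*} [Field K] [NumberField K]

variable (K) in
lemma exists_prime_two : ∃ v : HeightOneSpectrum (𝓞 K), fv v (2 : K) < 1 := by
  by_contra hcon
  push Not at hcon
  have h1 : ∀ v : HeightOneSpectrum (𝓞 K), fv v (2 : K) = 1 := fun v => by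
    refine le_antisymm ?_ (hcon v)
    have := fv_nat v (K := K) 2
    push_cast at this
    exact this
  have h2 := product_formula_sum (K := K) (u := 2) two_ne_zero ∅ (fun v _ => h1 v)
  have h3 : ∀ w : InfinitePlace K, (w.mult : ℝ) * Real.log (w (2 : K)) = w.mult * Real.log 2 := by
    intro w
    have e1 : ∀ N : ℕ, w (N : K) = N := fun N => by simp
    have e : w (2 : K) = 2 := by
      have := e1 2
      rwa [Nat.cast_ofNat, Nat.cast_ofNat] at this
    rw [e]
  rw [Finset.sum_congr rfl fun w _ => h3 w, ← Finset.sum_mul, sum_mult, Finset.sum_empty,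
    add_zero] at h2
  have h4 : (0 : ℝ) < (totalWeight K : ℝ) * Real.log 2 :=
    mul_pos (by exact_mod_cast totalWeight_pos K) (Real.log_pos (by norm_num))
  exact h4.ne' h2

lemma height_upper {n : ℕ} (E : Fin (n + 1) → Fin (n + 1) → K) (ζ : Fin (n + 1) → K) :
    ∃ C : ℝ, ∀ (a : Fin (n + 1) → ℕ) (M : ℕ), (∀ k, 1 ≤ a k) → (∀ k, a k ≤ M) →
      logHeight (pnt E ζ a) ≤ (totalWeight K : ℝ) * Real.log M + C := by
  set A : Fin (n + 1) × Fin (n + 1) → K := fun p => E p.1 p.2 * ζ p.2 with hA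
  refine ⟨totalWeight K * Real.log (Nat.card (Fin (n + 1))) + logHeight A, fun a M h1 hM => ?_⟩
  have h2 := logHeight_linearMap_apply_le A (fun k => (a k : K))
  have h3 : (fun j => ∑ i, A (j, i) * (a i : K)) = pnt E ζ a := by
    funext j
    rw [pnt]
    refine Finset.sum_congr rfl fun k _ => ?_
    rw [hA]
    ring
  rw [h3] at h2
  have hM0 : (0 : ℝ) < M := by
    have := (h1 0).trans (hM 0)
    exact_mod_cast this
  have h4 : logHeight (fun k => (a k : K)) ≤ (totalWeight K : ℝ) * Real.log M := by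
    refine logHeight_le_of ?_ hM0 ?_ ?_
    · intro h
      have := congrFun h 0
      simp only [Pi.zero_apply, Nat.cast_eq_zero] at this
      have := h1 0
      omega
    · intro w k
      have e : w (a k : K) = a k := by simp
      rw [e]
      exact_mod_cast hM k
    · intro v k
      exact fv_nat v (a k)
  linarith

lemma height_lower {n : ℕ} (L E : Fin (n + 1) → Fin (n + 1) → K) (ζ : Fin (n + 1) → K)
    (hE : ∀ (b : Fin (n + 1) → K) j, ∑ i, L j i * (∑ k, E i k * b k) = b j)
    (hζ : ∀ j, ζ j ≠ 0) (i1 : Fin (n + 1)) :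
    ∃ c C : ℝ, 0 < c ∧ ∀ (m : ℕ) (a : Fin (n + 1) → ℕ), (∀ j, Odd (a j)) →
      a i1 % 2 ^ m = a 0 % 2 ^ m → a i1 ≠ a 0 → c * m ≤ logHeight (pnt E ζ a) + C := by
  obtain ⟨v, hv⟩ := exists_prime_two K
  have hv0 : 0 < fv v (2 : K) := (fv v).pos two_ne_zero
  set A : Fin 2 × Fin (n + 1) → K := fun p =>
    ![(ζ i1)⁻¹ * L i1 p.2, (ζ 0)⁻¹ * L 0 p.2 - (ζ i1)⁻¹ * L i1 p.2] p.1 with hA
  refine ⟨-Real.log (fv v (2 : K)), totalWeight K * Real.log (Nat.card (Fin (n + 1))) +
    logHeight A, ?_, fun m a hodd hcong hne => ?_⟩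
  · have := Real.log_neg hv0 hv
    linarith
  have h2 := logHeight_linearMap_apply_le A (pnt E ζ a)
  have hval : ∀ j, (ζ j)⁻¹ * ∑ i, L j i * pnt E ζ a i = a j := by
    intro j
    unfold pnt
    rw [hE]
    field_simp [hζ j]
  have h3 : (fun j => ∑ i, A (j, i) * pnt E ζ a i) = ![(a i1 : K), (a 0 : K) - a i1] := by
    funext j
    fin_cases j
    · simp only [hA, Fin.zero_eta, Fin.isValue, Matrix.cons_val_zero]
      rw [← hval i1, Finset.mul_sum]
      refine Finset.sum_congr rfl fun i _ => by ring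
    · simp only [hA, Fin.mk_one, Fin.isValue, Matrix.cons_val_one, Matrix.cons_val_fin_one]
      rw [← hval i1, ← hval 0, Finset.mul_sum, Finset.mul_sum, ← Finset.sum_sub_distrib]
      refine Finset.sum_congr rfl fun i _ => by ring
  rw [h3, ← logHeight₁_div_eq_logHeight] at h2
  have hne' : (a 0 : K) - a i1 ≠ 0 := by
    rw [sub_ne_zero]
    exact fun h => hne (by exact_mod_cast h.symm)
  have ha1 : (a i1 : K) ≠ 0 := Nat.cast_ne_zero.2 (hodd i1).pos.ne'
  have h4 := sum_posLog_le (div_ne_zero ha1 hne') {v}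
  rw [Finset.sum_singleton] at h4
  have h5 : fv v ((a 0 : K) - a i1) ≤ fv v (2 : K) ^ m := by
    have h6 : ∃ b : ℤ, (a 0 : K) - a i1 = 2 ^ m * b := by
      have h7 : (a 0 : ℤ) ≡ a i1 [ZMOD ((2 ^ m : ℕ) : ℤ)] := by
        rw [Int.natCast_modEq_iff]; exact hcong.symm
      obtain ⟨b, hb⟩ := h7.symm.dvd
      refine ⟨b, ?_⟩
      have h8 := congrArg (Int.cast : ℤ → K) hb
      push_cast at h8
      exact h8
    obtain ⟨b, hb⟩ := h6
    rw [hb, map_mul, map_pow]
    calc _ ≤ fv v (2 : K) ^ m * 1 :=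
          mul_le_mul_of_nonneg_left (fv_int v b) (pow_nonneg ((fv v).nonneg _) _)
      _ = _ := mul_one _
  have h6 : m * -Real.log (fv v (2 : K)) ≤ Real.posLog (fv v ((a i1 : K) / ((a 0 : K) - a i1))) := by
    refine le_trans ?_ (le_max_right _ _)
    rw [map_div₀, fv_odd v hv (hodd i1), Real.log_div one_ne_zero ((fv v).pos hne').ne',
      Real.log_one, zero_sub]
    have h7 := Real.log_le_log ((fv v).pos hne') h5
    rw [Real.log_pow] at h7
    linarith
  linarith

end Pool.Agent.H50ET
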