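import Mathlib
import Pool.Agent.H50ET.Local

set_option autoImplicit false

/-!
The points of the construction are not contained in a hypersurface.
-/

namespace Pool.Agent.H50ET

open NumberField IsDedekindDomain Height Pool.Agent.W231.V

variable {K : Type*} [Field K] [NumberField K]

theorem nonvanish {Ω : Type*} [Field Ω] [Algebra K Ω] {n : ℕ}
    (L E : Fin (n + 1) → Fin (n + 1) → K) (ζ : Fin (n + 1) → K)
    (hEL : ∀ i j, ∑ k, E i k * L k j = if i = j then 1 else 0)
    (hζ : ∀ j, ζ j ≠ 0) (i1 : Fin (n + 1)) (hi1 : i1 ≠ 0)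
    (P : MvPolynomial (Fin (n + 1)) Ω) (hP : P ≠ 0) :
    ∃ k0 : ℕ, ∀ A : Finset ℕ, k0 < A.card → ∃ a : Fin (n + 1) → ℕ, (∀ j, a j ∈ A) ∧ a i1 ≠ a 0 ∧
      MvPolynomial.eval (fun i => algebraMap K Ω (pnt E ζ a i)) P ≠ 0 := by
  classical
  have hchar : CharZero Ω := charZero_of_injective_algebraMap (algebraMap K Ω).injective
  set sub : Fin (n + 1) → MvPolynomial (Fin (n + 1)) Ω := fun i =>
    ∑ k, MvPolynomial.C (algebraMap K Ω (E i k * ζ k)) * MvPolynomial.X k with hsub
  set sub' : Fin (n + 1) → MvPolynomial (Fin (n + 1)) Ω := fun k =>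
    MvPolynomial.C (algebraMap K Ω (ζ k)⁻¹) * ∑ j, MvPolynomial.C (algebraMap K Ω (L k j)) *
      MvPolynomial.X j with hsub'
  have hss : ∀ i, MvPolynomial.bind₁ sub' (sub i) = MvPolynomial.X i := by
    intro i
    rw [hsub]
    simp only [map_sum, map_mul, MvPolynomial.bind₁_X_right]
    have h1 : ∀ k, (MvPolynomial.bind₁ sub') (MvPolynomial.C (algebraMap K Ω (E i k))) *
        (MvPolynomial.bind₁ sub') (MvPolynomial.C (algebraMap K Ω (ζ k))) * sub' k =
        ∑ j, MvPolynomial.C (algebraMap K Ω (E i k * L k j)) * MvPolynomial.X j := by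
      intro k
      rw [hsub']
      simp only [MvPolynomial.algHom_C, MvPolynomial.algebraMap_eq]
      rw [← mul_assoc, mul_assoc (MvPolynomial.C _) (MvPolynomial.C _) (MvPolynomial.C _),
        ← map_mul MvPolynomial.C, ← map_mul (algebraMap K Ω), mul_inv_cancel₀ (hζ k), map_one,
        map_one, mul_one, Finset.mul_sum]
      refine Finset.sum_congr rfl fun j _ => ?_
      rw [map_mul (algebraMap K Ω), map_mul MvPolynomial.C]
      ring
    rw [Finset.sum_congr rfl fun k _ => h1 k, Finset.sum_comm]
    have h2 : ∀ j, ∑ k, MvPolynomial.C (algebraMap K Ω (E i k * L k j)) * MvPolynomial.X j =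
        if i = j then (MvPolynomial.X j : MvPolynomial (Fin (n + 1)) Ω) else 0 := by
      intro j
      rw [← Finset.sum_mul, ← map_sum, ← map_sum, hEL]
      split_ifs with h
      · rw [map_one, map_one, one_mul]
      · rw [map_zero, map_zero, zero_mul]
    rw [Finset.sum_congr rfl fun j _ => h2 j, Finset.sum_ite_eq]
    simp
  have hb : MvPolynomial.bind₁ sub P ≠ 0 := by
    intro h
    have h1 : MvPolynomial.bind₁ sub' (MvPolynomial.bind₁ sub P) = P := by
      rw [MvPolynomial.bind₁_bind₁]
      have : (fun i => MvPolynomial.bind₁ sub' (sub i)) = MvPolynomial.X := funext hss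
      rw [this, MvPolynomial.bind₁_X_left]
      rfl
    rw [h, map_zero] at h1
    exact hP h1.symm
  have hXX : (MvPolynomial.X i1 - MvPolynomial.X 0 : MvPolynomial (Fin (n + 1)) Ω) ≠ 0 := by
    rw [sub_ne_zero]
    intro h
    exact hi1 (MvPolynomial.X_injective h)
  set P' := MvPolynomial.bind₁ sub P * (MvPolynomial.X i1 - MvPolynomial.X 0) with hP'
  have hP'0 : P' ≠ 0 := mul_ne_zero hb hXX
  refine ⟨P'.totalDegree, fun A hA => ?_⟩
  by_contra hcon
  push Not at hcon
  refine hP'0 (MvPolynomial.eq_zero_of_eval_zero_at_prod_finset P'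
    (fun _ => A.image (Nat.cast : ℕ → Ω)) (fun i => ?_) fun x hx => ?_)
  · rw [Finset.card_image_of_injective _ Nat.cast_injective]
    exact (MvPolynomial.degreeOf_le_totalDegree _ _).trans_lt hA
  · have h1 : ∀ i, ∃ a ∈ A, (a : Ω) = x i := fun i => by
      simpa using hx i
    choose a haA ha using h1
    rw [hP', map_mul, map_sub, MvPolynomial.eval_X, MvPolynomial.eval_X, ← ha i1, ← ha 0]
    by_cases hne : a i1 = a 0
    · rw [hne, sub_self, mul_zero]
    · have h2 := hcon a haA hne
      have h3 : MvPolynomial.eval x (MvPolynomial.bind₁ sub P) =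
          MvPolynomial.eval (fun i => algebraMap K Ω (pnt E ζ a i)) P := by
        rw [← MvPolynomial.coe_aeval_eq_eval, ← MvPolynomial.coe_aeval_eq_eval]
        change (MvPolynomial.aeval x) (MvPolynomial.bind₁ sub P) = _
        rw [MvPolynomial.aeval_bind₁]
        have h4 : (fun i => (MvPolynomial.aeval x) (sub i)) =
            fun i => algebraMap K Ω (pnt E ζ a i) := by
          funext i
          rw [hsub, pnt, map_sum, map_sum]
          refine Finset.sum_congr rfl fun k _ => ?_
          rw [map_mul, MvPolynomial.aeval_X, MvPolynomial.algHom_C, ← ha k]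
          simp only [map_mul, map_natCast, Algebra.algebraMap_self, RingHom.id_apply]
          ring
        rw [h4]
        rfl
      rw [h3, h2, zero_mul]

end Pool.Agent.H50ET
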