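import Mathlib
import Pool.Agent.Cov.PNT

set_option autoImplicit false

/-!
Consequences of the prime number theorem.
-/

namespace Pool.Agent.H50ET

open Filter Topology MeasureTheory

lemma log_factorial_le {N : ℕ} (hN : 1 ≤ N) :
    Real.log (N.factorial : ℝ) ≤ N * Real.log N - N + Real.log N + 1 := by
  induction N, hN using Nat.le_induction with
  | base => simp
  | succ N hN ih =>
    have hNR : (0 : ℝ) < N := by exact_mod_cast (by omega : 0 < N)
    rw [Nat.factorial_succ]
    push_cast
    rw [Real.log_mul (by positivity) (by positivity)]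
    have h1 := Real.one_sub_inv_le_log_of_pos (x := ((N : ℝ) + 1) / N) (by positivity)
    rw [Real.log_div (by positivity) hNR.ne'] at h1
    have h2 : (1 : ℝ) - (((N : ℝ) + 1) / N)⁻¹ = 1 / ((N : ℝ) + 1) := by
      field_simp
      ring
    rw [h2, div_le_iff₀ (by positivity)] at h1
    nlinarith

/-- a consequence of the prime number theorem -/
lemma theta_le_pi (ε : ℝ) (hε : 0 < ε) : ∀ᶠ y : ℕ in atTop,
    Chebyshev.theta y ≤ Nat.primeCounting y * Real.log y - (1 - ε) * (y / Real.log y) := by
  have h1 := Pool.Agent.Cov.PNT.theta_div_tendsto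
  have h2 : ∀ᶠ x : ℝ in atTop, 1 - ε / 2 < Chebyshev.theta x / x :=
    h1.eventually_const_lt (by linarith)
  obtain ⟨t0, ht0⟩ := eventually_atTop.1 (h2.and (eventually_ge_atTop (2 : ℝ)))
  set t1 : ℝ := max t0 2 with ht1
  have ht12 : 2 ≤ t1 := le_max_right _ _
  have ht1' : ∀ t, t1 ≤ t → (1 - ε / 2) * t ≤ Chebyshev.theta t := by
    intro t ht
    have h3 := (ht0 t ((le_max_left _ _).trans ht)).1
    have ht' : 0 < t := by linarith
    rw [lt_div_iff₀ ht'] at h3
    exact h3.le
  have hev : ∀ᶠ y : ℕ in atTop, (1 - ε / 2) * t1 ≤ (ε / 2) * y :=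
    (tendsto_natCast_atTop_atTop.const_mul_atTop (by positivity)).eventually_ge_atTop _
  filter_upwards [hev, eventually_ge_atTop ⌈t1⌉₊] with y hy1 hy2
  have hy2' : t1 ≤ (y : ℝ) := (Nat.le_ceil t1).trans (by exact_mod_cast hy2)
  have hy : (2 : ℝ) ≤ y := ht12.trans hy2'
  have hlog : 0 < Real.log y := Real.log_pos (by linarith)
  have h3 := Chebyshev.primeCounting_eq_theta_div_log_add_integral hy
  rw [Nat.floor_natCast] at h3
  -- the integral
  have hint : IntervalIntegrable (fun t => Chebyshev.theta t / (t * Real.log t ^ 2)) volume 2 y := by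
    rw [intervalIntegrable_iff_integrableOn_Icc_of_le hy]
    exact Chebyshev.integrableOn_theta_div_id_mul_log_sq (y : ℝ)
  have hint1 : IntervalIntegrable (fun t => Chebyshev.theta t / (t * Real.log t ^ 2)) volume 2 t1 :=
    hint.mono_set (by
      rw [Set.uIcc_of_le ht12, Set.uIcc_of_le hy]
      exact Set.Icc_subset_Icc_right hy2')
  have hint2 : IntervalIntegrable (fun t => Chebyshev.theta t / (t * Real.log t ^ 2)) volume t1 y :=
    hint.mono_set (by
      rw [Set.uIcc_of_le hy2', Set.uIcc_of_le hy]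
      exact Set.Icc_subset_Icc_left ht12)
  have h4 : ∫ t in (2 : ℝ)..y, Chebyshev.theta t / (t * Real.log t ^ 2) =
      (∫ t in (2 : ℝ)..t1, Chebyshev.theta t / (t * Real.log t ^ 2)) +
      ∫ t in t1..y, Chebyshev.theta t / (t * Real.log t ^ 2) :=
    (intervalIntegral.integral_add_adjacent_intervals hint1 hint2).symm
  have h5 : 0 ≤ ∫ t in (2 : ℝ)..t1, Chebyshev.theta t / (t * Real.log t ^ 2) := by
    refine intervalIntegral.integral_nonneg ht12 fun t ht => ?_
    exact div_nonneg (Chebyshev.theta_nonneg t) (mul_nonneg (by linarith [ht.1]) (sq_nonneg _))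
  have h6 : ∫ t in t1..(y : ℝ), (1 - ε / 2) / Real.log y ^ 2 ≤
      ∫ t in t1..y, Chebyshev.theta t / (t * Real.log t ^ 2) := by
    by_cases hε2 : 0 ≤ 1 - ε / 2
    · refine intervalIntegral.integral_mono_on hy2' intervalIntegrable_const hint2 fun t ht => ?_
      have ht2 : 2 ≤ t := ht12.trans ht.1
      have ht0' : 0 < t := by linarith
      have hlt : 0 < Real.log t := Real.log_pos (by linarith)
      have hlty : Real.log t ≤ Real.log y := Real.log_le_log ht0' ht.2
      rw [← div_div]
      have h7 : 1 - ε / 2 ≤ Chebyshev.theta t / t := by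
        rw [le_div_iff₀ ht0']
        exact ht1' t ht.1
      calc (1 - ε / 2) / Real.log y ^ 2 ≤ (1 - ε / 2) / Real.log t ^ 2 :=
            div_le_div_of_nonneg_left hε2 (by positivity) (by gcongr)
        _ ≤ _ := by gcongr
    · have h7 : ∫ t in t1..(y : ℝ), (1 - ε / 2) / Real.log y ^ 2 ≤ 0 := by
        rw [intervalIntegral.integral_const, smul_eq_mul]
        refine mul_nonpos_of_nonneg_of_nonpos (by linarith) ?_
        exact div_nonpos_of_nonpos_of_nonneg (by linarith) (sq_nonneg _)
      refine h7.trans (intervalIntegral.integral_nonneg hy2' fun t ht => ?_)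
      exact div_nonneg (Chebyshev.theta_nonneg t)
        (mul_nonneg (by linarith [ht.1]) (sq_nonneg _))
  rw [intervalIntegral.integral_const, smul_eq_mul] at h6
  have h7 : Nat.primeCounting y * Real.log y = Chebyshev.theta y +
      (∫ t in (2 : ℝ)..y, Chebyshev.theta t / (t * Real.log t ^ 2)) * Real.log y := by
    rw [h3]
    field_simp
  have h8 : (1 - ε) * (y / Real.log y) ≤ ((y - t1) * ((1 - ε / 2) / Real.log y ^ 2)) * Real.log y := by
    have e1 : ((y - t1) * ((1 - ε / 2) / Real.log y ^ 2)) * Real.log y =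
        ((y - t1) * (1 - ε / 2)) / Real.log y := by
      field_simp
    rw [e1, ← mul_div_assoc]
    refine div_le_div_of_nonneg_right ?_ hlog.le
    nlinarith
  have h9 : ((y - t1) * ((1 - ε / 2) / Real.log y ^ 2)) * Real.log y ≤
      (∫ t in (2 : ℝ)..y, Chebyshev.theta t / (t * Real.log t ^ 2)) * Real.log y := by
    refine mul_le_mul_of_nonneg_right ?_ hlog.le
    rw [h4]
    linarith
  linarith

/-- the prime number theorem -/
lemma pi_bounds (ε : ℝ) (hε : 0 < ε) : ∀ᶠ y : ℕ in atTop,
    (1 - ε) * (y / Real.log y) ≤ Nat.primeCounting y ∧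
    (Nat.primeCounting y : ℝ) ≤ (1 + ε) * (y / Real.log y) := by
  have h1 := Pool.Agent.Cov.PNT.pi_tendsto.comp tendsto_natCast_atTop_atTop (α := ℕ)
  have h2 := h1.eventually_const_lt (show 1 - ε < 1 by linarith)
  have h3 := h1.eventually_lt_const (show 1 < 1 + ε by linarith)
  filter_upwards [h2, h3, eventually_ge_atTop 2] with y hy1 hy2 hy
  have hyR : (2 : ℝ) ≤ y := by exact_mod_cast hy
  have hlog : 0 < Real.log y := Real.log_pos (by linarith)
  simp only [Function.comp_apply, Nat.floor_natCast] at hy1 hy2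
  rw [lt_div_iff₀ (by linarith)] at hy1
  rw [div_lt_iff₀ (by linarith)] at hy2
  constructor
  · rw [← mul_div_assoc, div_le_iff₀ hlog]
    exact hy1.le
  · rw [← mul_div_assoc, le_div_iff₀ hlog]
    exact hy2.le

/-- comparison of `t ^ α / log t` at two points -/
lemma rpow_div_log_mono {α s t : ℝ} (hα : 1 / 2 ≤ α) (hs : Real.exp 2 ≤ s) (hst : s ≤ t) :
    s ^ α / Real.log s ≤ t ^ α / Real.log t := by
  have hs0 : 0 < s := (Real.exp_pos 2).trans_le hs
  have ht0 : 0 < t := hs0.trans_le hst
  have hls : 2 ≤ Real.log s := by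
    rw [← Real.log_exp 2]
    exact Real.log_le_log (Real.exp_pos 2) hs
  have hlst : Real.log s ≤ Real.log t := Real.log_le_log hs0 hst
  have hls0 : 0 < Real.log s := by linarith
  have hlt0 : 0 < Real.log t := by linarith
  rw [div_le_div_iff₀ hls0 hlt0]
  have h1 : t ^ α = s ^ α * Real.exp (α * (Real.log t - Real.log s)) := by
    rw [Real.rpow_def_of_pos hs0, Real.rpow_def_of_pos ht0, ← Real.exp_add]
    congr 1
    ring
  have h2 : 1 + α * (Real.log t - Real.log s) ≤ Real.exp (α * (Real.log t - Real.log s)) := by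
    have := Real.add_one_le_exp (α * (Real.log t - Real.log s))
    linarith
  have h3 : Real.log t ≤ Real.log s * Real.exp (α * (Real.log t - Real.log s)) := by
    have h4 : Real.log t ≤ Real.log s * (1 + α * (Real.log t - Real.log s)) := by
      have h5 : 1 * (Real.log t - Real.log s) ≤ (Real.log s * α) * (Real.log t - Real.log s) := by
        refine mul_le_mul_of_nonneg_right ?_ (by linarith)
        nlinarith
      linarith
    exact h4.trans (mul_le_mul_of_nonneg_left h2 hls0.le)
  rw [h1, mul_assoc]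
  refine mul_le_mul_of_nonneg_left ?_ (Real.rpow_nonneg hs0.le _)
  linarith

end Pool.Agent.H50ET
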