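import Mathlib
import Pool.Agent.H50ET.Asym

set_option autoImplicit false

/-!
The choice of the parameters.
-/

namespace Pool.Agent.H50ET

open Filter Topology

/-- lower bound for the number of smooth numbers -/
lemma count_lower (β ε : ℝ) (hε : 0 < ε) : ∀ᶠ y : ℕ in atTop,
    (((Nat.primeCounting y : ℝ) - 1) * ((β - 1) * Real.log y + 1 - ε)) - Real.log y - 1 ≤
      Real.log (((⌊(y : ℝ) ^ β / Real.log y⌋₊ + (Nat.primeCounting y - 1)).choose
        ⌊(y : ℝ) ^ β / Real.log y⌋₊ : ℕ) : ℝ) := by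
  filter_upwards [pi_bounds ε hε, eventually_ge_atTop 4] with y hy hy2
  set U := ⌊(y : ℝ) ^ β / Real.log y⌋₊ with hU
  have hyR : (4 : ℝ) ≤ y := by exact_mod_cast hy2
  have hy0 : (0 : ℝ) < y := by linarith
  have hlog : 0 < Real.log y := Real.log_pos (by linarith)
  have hpi1 : 2 ≤ Nat.primeCounting y := by
    have : Nat.primeCounting 3 ≤ Nat.primeCounting y := Nat.monotone_primeCounting (by omega)
    have h3 : Nat.primeCounting 3 = 2 := by decide
    omega
  set N := Nat.primeCounting y - 1 with hN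
  have hN1 : 1 ≤ N := by omega
  have hNR : (N : ℝ) = (Nat.primeCounting y : ℝ) - 1 := by
    rw [hN, Nat.cast_sub (by omega)]
    push_cast
    ring
  have hN0 : (0 : ℝ) < N := by exact_mod_cast hN1
  rw [← hNR]
  have h1 : (((U : ℝ) + 1) ^ N) / (N.factorial : ℝ) ≤ (((U + N).choose U : ℕ) : ℝ) := by
    have := Nat.pow_le_choose (α := ℝ) N (U + N)
    rw [show U + N + 1 - N = U + 1 by omega] at this
    rw [Nat.choose_symm_add]
    exact_mod_cast this
  have hU1 : (y : ℝ) ^ β / Real.log y < U + 1 := Nat.lt_floor_add_one _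
  have hyb : (0 : ℝ) < (y : ℝ) ^ β := Real.rpow_pos_of_pos hy0 _
  have h2 : β * Real.log y - Real.log (Real.log y) ≤ Real.log ((U : ℝ) + 1) := by
    rw [← Real.log_rpow hy0, ← Real.log_div hyb.ne' hlog.ne']
    exact Real.log_le_log (by positivity) hU1.le
  have h3 : Real.log N ≤ ε + Real.log y - Real.log (Real.log y) := by
    have e1 : (N : ℝ) ≤ (1 + ε) * (y / Real.log y) := by
      rw [hNR]; linarith [hy.2]
    have e2 := Real.log_le_log hN0 e1
    rw [Real.log_mul (by positivity) (by positivity), Real.log_div hy0.ne' hlog.ne'] at e2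
    have e3 := Real.log_le_sub_one_of_pos (show (0 : ℝ) < 1 + ε by positivity)
    linarith
  have h4 : Real.log N ≤ Real.log y := by
    refine Real.log_le_log hN0 ?_
    have : Nat.primeCounting y ≤ y := by
      rw [← Nat.primesLE_card_eq_primeCounting]
      have : Nat.primesLE y ⊆ Finset.Icc 1 y := fun p hp =>
        Finset.mem_Icc.2 ⟨(Nat.one_lt_of_mem_primesLE hp).le, Nat.le_of_mem_primesLE hp⟩
      simpa using Finset.card_le_card this
    have h5 : (N : ℝ) ≤ (Nat.primeCounting y : ℝ) := by rw [hNR]; linarith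
    exact h5.trans (by exact_mod_cast this)
  have h5 := log_factorial_le hN1
  have h6 : N * Real.log ((U : ℝ) + 1) - Real.log (N.factorial : ℝ) ≤
      Real.log (((U + N).choose U : ℕ) : ℝ) := by
    have e1 : (0 : ℝ) < ((U : ℝ) + 1) ^ N := by positivity
    have e2 : (0 : ℝ) < (N.factorial : ℝ) := by positivity
    rw [← Real.log_pow, ← Real.log_div e1.ne' e2.ne']
    exact Real.log_le_log (by positivity) h1
  refine le_trans ?_ h6
  have h7 : (N : ℝ) * (β * Real.log y - Real.log (Real.log y)) ≤ N * Real.log ((U : ℝ) + 1) :=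
    mul_le_mul_of_nonneg_left h2 hN0.le
  have h8 : (N : ℝ) * Real.log N ≤ N * (ε + Real.log y - Real.log (Real.log y)) :=
    mul_le_mul_of_nonneg_left h3 hN0.le
  have h9 : (N : ℝ) * ((β - 1) * Real.log y + 1 - ε) = N * (β * Real.log y - Real.log (Real.log y)) -
      N * (ε + Real.log y - Real.log (Real.log y)) + N := by ring
  linarith

lemma y_div_log_ge (A : ℝ) (ε : ℝ) (hε : 0 < ε) : ∀ᶠ y : ℕ in atTop,
    A * Real.log y + A ≤ ε * (y / Real.log y) := by
  have h1 : Tendsto (fun x : ℝ => Real.log x ^ 2 / x) atTop (𝓝 0) := by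
    have := (isLittleO_log_rpow_atTop (r := (1 / 2 : ℝ)) (by norm_num)).pow (n := 2) (by norm_num)
    refine (this.congr' (EventuallyEq.rfl) ?_).tendsto_div_nhds_zero
    filter_upwards [eventually_ge_atTop 0] with x hx
    rw [← Real.rpow_natCast, ← Real.rpow_mul hx]
    norm_num
  have h2 := (h1.comp (tendsto_natCast_atTop_atTop (R := ℝ))).eventually_lt_const
    (show 0 < ε / (2 * |A| + 1) by positivity)
  filter_upwards [h2, eventually_ge_atTop 3] with y hy hy3
  have hyR : (3 : ℝ) ≤ y := by exact_mod_cast hy3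
  have hlog : 1 ≤ Real.log y := by
    rw [Real.le_log_iff_exp_le (by linarith)]
    exact Real.exp_one_lt_d9.le.trans (by linarith)
  simp only [Function.comp_apply] at hy
  have hA : 0 < 2 * |A| + 1 := by positivity
  rw [div_lt_div_iff₀ (by linarith) hA] at hy
  rw [← mul_div_assoc, le_div_iff₀ (by linarith)]
  have h3 : A ≤ |A| := le_abs_self A
  have h4 : (A * Real.log y + A) * Real.log y ≤ (2 * |A| + 1) * Real.log y ^ 2 := by
    have h5 : A * Real.log y ≤ |A| * Real.log y ^ 2 := by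
      have : A * Real.log y ≤ |A| * Real.log y := mul_le_mul_of_nonneg_right h3 (by linarith)
      have h6 : Real.log y ≤ Real.log y ^ 2 := by nlinarith
      exact this.trans (mul_le_mul_of_nonneg_left h6 (abs_nonneg A))
    have h7 : A * Real.log y ^ 2 ≤ |A| * Real.log y ^ 2 :=
      mul_le_mul_of_nonneg_right h3 (sq_nonneg _)
    nlinarith [sq_nonneg (Real.log y)]
  linarith [mul_comm (Real.log (y : ℝ) ^ 2) (2 * |A| + 1)]

/-- the parameters of the construction -/
theorem params (μ : ℕ) (hμ : 1 ≤ μ) (d : ℝ) (hd : 0 < d) (c : ℝ)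
    (hc : c < d ^ ((1 : ℝ) / (μ + 1)) * (((μ : ℝ) + 1) ^ 2 / μ)) (k : ℕ) (hk : 1 ≤ k)
    (C1 C2 B : ℝ) :
    ∃ y U m : ℕ, 2 ≤ y ∧ 2 ^ m * k < (U + (Nat.primeCounting y - 1)).choose U ∧ B ≤ m ∧
      ∀ h : ℝ, Real.exp 2 ≤ h → h ≤ d * (U * Real.log y) + C1 →
        c * (h ^ ((μ : ℝ) / (μ + 1)) / Real.log h) + C2 ≤
          d * (μ * (m * Real.log 2) - Chebyshev.theta y) := by
  have hμR : (1 : ℝ) ≤ μ := by exact_mod_cast hμ
  have hμ0 : (0 : ℝ) < μ := by linarith
  set α : ℝ := (μ : ℝ) / (μ + 1) with hα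
  set β : ℝ := ((μ : ℝ) + 1) / μ with hβ
  have hα0 : 0 < α := by positivity
  have hαβ : α * β = 1 := by rw [hα, hβ]; field_simp
  have hβ1 : 1 ≤ β := by rw [hβ, le_div_iff₀ hμ0]; linarith
  have hβμ : μ * (β - 1) = 1 := by rw [hβ]; field_simp; ring
  have hα2 : 1 / 2 ≤ α := by rw [hα, div_le_div_iff₀ (by norm_num) (by linarith)]; linarith
  -- the constant
  set c' : ℝ := max c 0 with hc'
  have hc'0 : 0 ≤ c' := le_max_right _ _
  have hcc' : c ≤ c' := le_max_left _ _
  have hc'1 : c' < d ^ ((1 : ℝ) / (μ + 1)) * (((μ : ℝ) + 1) ^ 2 / μ) :=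
    max_lt hc (by positivity)
  have hkey : c' * d ^ α / β < d * (μ + 1) := by
    rw [div_lt_iff₀ (by linarith)]
    have h1 : d ^ α * d ^ ((1 : ℝ) / (μ + 1)) = d := by
      rw [← Real.rpow_add hd]
      have : α + 1 / ((μ : ℝ) + 1) = 1 := by rw [hα]; field_simp
      rw [this, Real.rpow_one]
    have h2 : 0 < d ^ α := Real.rpow_pos_of_pos hd _
    calc c' * d ^ α < (d ^ ((1 : ℝ) / (μ + 1)) * (((μ : ℝ) + 1) ^ 2 / μ)) * d ^ α :=
          mul_lt_mul_of_pos_right hc'1 h2
      _ = (d ^ α * d ^ ((1 : ℝ) / (μ + 1))) * (((μ : ℝ) + 1) ^ 2 / μ) := by ring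
      _ = d * (μ + 1) * β := by rw [h1, hβ]; field_simp
  -- the choice of `ε`
  have hcont : ∀ᶠ ε : ℝ in 𝓝 0, c' * (d * (1 + ε)) ^ α / (β * (1 - ε)) + ε <
      d * ((μ + 1) * (1 - 4 * ε)) := by
    have h1 : ContinuousAt (fun ε : ℝ => c' * (d * (1 + ε)) ^ α / (β * (1 - ε)) + ε) 0 := by
      refine ContinuousAt.add (ContinuousAt.div ?_ ?_ ?_) continuousAt_id
      · refine ContinuousAt.mul continuousAt_const (ContinuousAt.rpow_const ?_ ?_)
        · fun_prop
        · left; simpa using hd.ne'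
      · fun_prop
      · have : 0 < β := by linarith
        simpa using this.ne'
    have h2 : ContinuousAt (fun ε : ℝ => d * (((μ : ℝ) + 1) * (1 - 4 * ε))) 0 := by fun_prop
    refine h1.eventually_lt h2 ?_
    simpa using hkey
  obtain ⟨ε, ⟨hε0, hε1⟩, hε⟩ : ∃ ε : ℝ, (0 < ε ∧ ε < 1 / 4) ∧
      c' * (d * (1 + ε)) ^ α / (β * (1 - ε)) + ε < d * ((μ + 1) * (1 - 4 * ε)) := by
    have h1 : ∀ᶠ ε : ℝ in 𝓝[>] 0, c' * (d * (1 + ε)) ^ α / (β * (1 - ε)) + ε <
      d * ((μ + 1) * (1 - 4 * ε)) := hcont.filter_mono nhdsWithin_le_nhds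
    have h2 : ∀ᶠ ε : ℝ in 𝓝[>] 0, 0 < ε ∧ ε < 1 / 4 :=
      Ioo_mem_nhdsGT (by norm_num)
    exact (h2.and h1).exists
  -- eventual conditions
  set C3 : ℝ := μ * (2 + Real.log 2 + Real.log k) + 1 + μ with hC3
  have hC30 : 0 ≤ C3 := by
    have : 0 ≤ Real.log k := Real.log_natCast_nonneg k
    have : 0 ≤ Real.log 2 := Real.log_nonneg (by norm_num)
    positivity
  have E1 := count_lower β ε hε0
  have E2 := theta_le_pi ε hε0
  have E3 := pi_bounds ε hε0
  have E4 := y_div_log_ge C3 ε hε0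
  have E5 := y_div_log_ge C2 ε hε0
  have E6 : ∀ᶠ y : ℕ in atTop, (μ : ℝ) * (Real.log k + 1) < (1 / 4) * (y / Real.log y) := by
    filter_upwards [y_div_log_ge ((μ : ℝ) * (Real.log k + 1) + 1) (1 / 4) (by norm_num),
      eventually_ge_atTop 1] with y hy hy1
    have h1 : 0 ≤ Real.log y := Real.log_natCast_nonneg y
    have h2 : 0 ≤ Real.log k := Real.log_natCast_nonneg k
    have h3 : 0 ≤ ((μ : ℝ) * (Real.log k + 1) + 1) * Real.log y := by positivity
    linarith
  have E7 : ∀ᶠ y : ℕ in atTop, (μ : ℝ) * Real.log 2 * (|B| + 1) ≤ (1 / 4) * (y / Real.log y) := by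
    filter_upwards [y_div_log_ge ((μ : ℝ) * Real.log 2 * (|B| + 1)) (1 / 4) (by norm_num),
      eventually_ge_atTop 1] with y hy hy1
    have h1 : 0 ≤ Real.log y := Real.log_natCast_nonneg y
    have h2 : 0 ≤ Real.log 2 := Real.log_nonneg (by norm_num)
    have h3 : 0 ≤ ((μ : ℝ) * Real.log 2 * (|B| + 1)) * Real.log y := by positivity
    linarith
  have E8 : ∀ᶠ y : ℕ in atTop, |C1| ≤ d * ε * (y : ℝ) ^ β := by
    have h1 : Tendsto (fun y : ℕ => d * ε * (y : ℝ) ^ β) atTop atTop :=
      ((tendsto_rpow_atTop (by linarith : 0 < β)).comp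
        (tendsto_natCast_atTop_atTop (R := ℝ))).const_mul_atTop (by positivity)
    exact h1.eventually_ge_atTop _
  have E9 : ∀ᶠ y : ℕ in atTop, -Real.log d ≤ β * ε * Real.log y := by
    have h1 : Tendsto (fun y : ℕ => β * ε * Real.log y) atTop atTop :=
      (Real.tendsto_log_atTop.comp (tendsto_natCast_atTop_atTop (R := ℝ))).const_mul_atTop
        (by positivity)
    exact h1.eventually_ge_atTop _
  have E10 : ∀ᶠ y : ℕ in atTop, Real.exp 2 ≤ d * (y : ℝ) ^ β := by
    have h1 : Tendsto (fun y : ℕ => d * (y : ℝ) ^ β) atTop atTop :=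
      ((tendsto_rpow_atTop (by linarith : 0 < β)).comp
        (tendsto_natCast_atTop_atTop (R := ℝ))).const_mul_atTop (by positivity)
    exact h1.eventually_ge_atTop _
  obtain ⟨y, e1, e2, e3, e4, e5, e6, e7, e8, e9, e10, e11⟩ := (E1.and (E2.and (E3.and (E4.and
    (E5.and (E6.and (E7.and (E8.and (E9.and (E10.and (eventually_ge_atTop 3))))))))))).exists
  have hyR : (3 : ℝ) ≤ y := by exact_mod_cast e11
  have hy0 : (0 : ℝ) < y := by linarith
  set L := Real.log y with hL
  have hL1 : 1 ≤ L := by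
    rw [hL, Real.le_log_iff_exp_le hy0]
    exact Real.exp_one_lt_d9.le.trans (by linarith)
  set Y := (y : ℝ) / L with hY
  have hY0 : 0 < Y := div_pos hy0 (by linarith)
  set U := ⌊(y : ℝ) ^ β / L⌋₊ with hU
  set b := (U + (Nat.primeCounting y - 1)).choose U with hb
  set pi := (Nat.primeCounting y : ℝ) with hpi
  have hb1 : 1 ≤ b := Nat.choose_pos (Nat.le_add_right _ _)
  have hlk : 0 ≤ Real.log k := Real.log_natCast_nonneg k
  have hl2 : 0 < Real.log 2 := Real.log_pos (by norm_num)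
  have hkR : (0 : ℝ) < k := by exact_mod_cast hk
  have hbR : (0 : ℝ) < b := by exact_mod_cast hb1
  have hC3a : μ + 1 ≤ C3 := by
    have h1 : 0 ≤ μ * (2 + Real.log 2 + Real.log k) := by positivity
    linarith
  have hC3b : 2 * μ ≤ C3 := by
    have h1 : 0 ≤ μ * (Real.log 2 + Real.log k) := by positivity
    linarith
  have hC3c : 2 * μ + μ * Real.log 2 + μ * Real.log k ≤ C3 := by
    linarith
  -- lower bound of `μ log b`
  have f1 : (pi - 1) * (L + μ * (1 - ε)) - μ * (L + 1) ≤ μ * Real.log b := by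
    have := mul_le_mul_of_nonneg_left e1 hμ0.le
    have e : μ * ((pi - 1) * ((β - 1) * L + 1 - ε) - L - 1) =
        (pi - 1) * ((μ * (β - 1)) * L + μ * (1 - ε)) - μ * (L + 1) := by ring
    rw [e, hβμ, one_mul] at this
    exact this
  have hpi34 : 3 / 4 * Y ≤ pi := by
    refine le_trans ?_ e3.1
    exact mul_le_mul_of_nonneg_right (by linarith) hY0.le
  have f2 : 1 / 2 * Y ≤ μ * Real.log b := by
    refine le_trans ?_ f1
    have g1 : (3 / 4 * Y - 1) * L ≤ (pi - 1) * L :=
      mul_le_mul_of_nonneg_right (by linarith) (by linarith)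
    have g2 : 3 / 4 * Y * 1 ≤ 3 / 4 * Y * L := mul_le_mul_of_nonneg_left hL1 (by linarith)
    have g3 : -(μ : ℝ) ≤ (pi - 1) * (μ * (1 - ε)) := by
      have h1 : (-1) * (μ * (1 - ε)) ≤ (pi - 1) * (μ * (1 - ε)) :=
        mul_le_mul_of_nonneg_right (by linarith) (mul_nonneg hμ0.le (by linarith))
      have h2 : 0 ≤ μ * ε := by positivity
      linarith
    have g4 : μ * (L + 1) + L + μ ≤ C3 * L + C3 := by
      have h4 : (μ + 1) * L ≤ C3 * L := mul_le_mul_of_nonneg_right hC3a (by linarith)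
      linarith
    have g5 : ε * Y ≤ 1 / 4 * Y := mul_le_mul_of_nonneg_right (by linarith) hY0.le
    linarith
  have f3 : (k : ℝ) < b := by
    have h1 : μ * Real.log k < μ * Real.log b := by
      have : (μ : ℝ) * (Real.log k + 1) = μ * Real.log k + μ := by ring
      linarith
    exact (Real.log_lt_log_iff hkR hbR).1 (lt_of_mul_lt_mul_left h1 hμ0.le)
  have f4 : k < b := by exact_mod_cast f3
  set m := Nat.log 2 ((b - 1) / k) with hm
  have hq : (b - 1) / k ≠ 0 := by
    have : 1 ≤ (b - 1) / k := (Nat.one_le_div_iff (by omega)).2 (by omega)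
    omega
  have f5 : 2 ^ m * k < b := by
    have h1 : 2 ^ m ≤ (b - 1) / k := Nat.pow_log_le_self 2 hq
    have h2 : 2 ^ m * k ≤ b - 1 := (Nat.le_div_iff_mul_le (by omega)).1 h1
    omega
  have f6 : b ≤ 2 ^ (m + 1) * k := by
    have h1 : (b - 1) / k < 2 ^ (m + 1) := Nat.lt_pow_succ_log_self (by norm_num) _
    have h2 : b - 1 < 2 ^ (m + 1) * k := (Nat.div_lt_iff_lt_mul (by omega)).1 h1
    omega
  have f7 : Real.log b ≤ (m + 1) * Real.log 2 + Real.log k := by
    have h1 : (b : ℝ) ≤ 2 ^ (m + 1) * k := by exact_mod_cast f6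
    have h2 := Real.log_le_log hbR h1
    rw [Real.log_mul (by positivity) hkR.ne', Real.log_pow] at h2
    push_cast at h2
    exact h2
  have f7' : μ * Real.log b ≤ μ * (m * Real.log 2) + μ * Real.log 2 + μ * Real.log k := by
    have := mul_le_mul_of_nonneg_left f7 hμ0.le
    linarith
  refine ⟨y, U, m, by omega, f5, ?_, ?_⟩
  · have h1 : (μ * Real.log 2) * (|B| + 1) ≤ (μ * Real.log 2) * (m + 1) := by
      have : (μ : ℝ) * (Real.log k + 1) = μ * Real.log k + μ := by ring
      have h3 : (μ * Real.log 2) * (|B| + 1) ≤ 1 / 4 * Y := e7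
      linarith
    have h2 := le_of_mul_le_mul_left h1 (by positivity)
    have h3 := le_abs_self B
    linarith
  · intro h hh1 hh2
    -- the gain
    have g1 : (μ + 1) * (1 - 3 * ε) * Y ≤ μ * (m * Real.log 2) - Chebyshev.theta y := by
      have g2 : (1 - ε) * (1 - ε) * (μ * Y) - μ ≤ (pi - 1) * (μ * (1 - ε)) := by
        have h1 : ((1 - ε) * Y - 1) * (μ * (1 - ε)) ≤ (pi - 1) * (μ * (1 - ε)) :=
          mul_le_mul_of_nonneg_right (by linarith [e3.1]) (mul_nonneg hμ0.le (by linarith))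
        have h2 : 0 ≤ μ * ε := by positivity
        have h3 : ((1 - ε) * Y - 1) * (μ * (1 - ε)) = (1 - ε) * (1 - ε) * (μ * Y) - μ + μ * ε := by
          ring
        linarith
      have g3 : (pi - 1) * (L + μ * (1 - ε)) = pi * L - L + (pi - 1) * (μ * (1 - ε)) := by ring
      have g4 : (1 - 2 * ε) * (μ * Y) ≤ (1 - ε) * (1 - ε) * (μ * Y) := by
        refine mul_le_mul_of_nonneg_right ?_ (by positivity)
        have : 0 ≤ ε * ε := by positivity
        linarith
      have g5 : L + μ + μ * (L + 1) + μ * Real.log 2 + μ * Real.log k ≤ C3 * L + C3 := by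
        have h4 : (μ + 1) * L ≤ C3 * L := mul_le_mul_of_nonneg_right hC3a (by linarith)
        linarith
      have g6 : 0 ≤ ε * (μ * Y) := by positivity
      have g7 : (μ + 1) * (1 - 3 * ε) * Y = (1 - 2 * ε) * (μ * Y) + (1 - ε) * Y - ε * Y -
        ε * (μ * Y) - ε * Y := by ring
      have g8 : 0 ≤ ε * Y := by positivity
      linarith
    -- the error term
    set H := d * (1 + ε) * (y : ℝ) ^ β with hH
    have hyb : (0 : ℝ) < (y : ℝ) ^ β := Real.rpow_pos_of_pos hy0 _
    have hhH : h ≤ H := by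
      have h1 : (U : ℝ) ≤ (y : ℝ) ^ β / L := Nat.floor_le (by positivity)
      rw [le_div_iff₀ (by linarith)] at h1
      have h2 : d * (U * L) ≤ d * (y : ℝ) ^ β := mul_le_mul_of_nonneg_left h1 hd.le
      have h3 := le_abs_self C1
      rw [hH]
      linarith
    have k1 := rpow_div_log_mono hα2 hh1 hhH
    have k2 : H ^ α = (d * (1 + ε)) ^ α * y := by
      rw [hH, Real.mul_rpow (by positivity) hyb.le, ← Real.rpow_mul hy0.le, mul_comm β α, hαβ,
        Real.rpow_one]
    have k3 : β * (1 - ε) * L ≤ Real.log H := by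
      have h1 : d * (y : ℝ) ^ β ≤ H := by
        rw [hH]
        refine mul_le_mul_of_nonneg_right ?_ hyb.le
        have : 0 ≤ d * ε := by positivity
        linarith
      have h2 := Real.log_le_log (by positivity) h1
      rw [Real.log_mul hd.ne' hyb.ne', Real.log_rpow hy0] at h2
      linarith
    have hβ0 : 0 < β := by linarith
    have k4 : 0 < β * (1 - ε) * L := mul_pos (mul_pos hβ0 (by linarith)) (by linarith)
    have k5 : c' * (h ^ α / Real.log h) ≤ (c' * (d * (1 + ε)) ^ α / (β * (1 - ε))) * Y := by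
      have h1 : c' * (h ^ α / Real.log h) ≤ c' * (H ^ α / Real.log H) :=
        mul_le_mul_of_nonneg_left k1 hc'0
      have h2 : H ^ α / Real.log H ≤ H ^ α / (β * (1 - ε) * L) :=
        div_le_div_of_nonneg_left (by rw [k2]; positivity) k4 k3
      have h3 : c' * (H ^ α / (β * (1 - ε) * L)) =
          (c' * (d * (1 + ε)) ^ α / (β * (1 - ε))) * Y := by
        rw [k2, hY]
        field_simp
      exact h1.trans ((mul_le_mul_of_nonneg_left h2 hc'0).trans h3.le)
    have k6 : (c' * (d * (1 + ε)) ^ α / (β * (1 - ε)) + ε) * Y ≤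
        d * ((μ + 1) * (1 - 4 * ε)) * Y := mul_le_mul_of_nonneg_right hε.le hY0.le
    have k7 : C2 ≤ ε * Y := by
      by_cases hC2 : 0 ≤ C2
      · have : 0 ≤ C2 * L := mul_nonneg hC2 (by linarith)
        linarith
      · have : 0 ≤ ε * Y := by positivity
        linarith
    have k8 : c * (h ^ α / Real.log h) ≤ c' * (h ^ α / Real.log h) := by
      refine mul_le_mul_of_nonneg_right hcc' ?_
      have h1 : 0 < h := (Real.exp_pos 2).trans_le hh1
      refine div_nonneg (Real.rpow_nonneg h1.le _) (Real.log_nonneg ?_)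
      exact (Real.one_le_exp (by norm_num)).trans hh1
    have k9 : d * ((μ + 1) * (1 - 4 * ε)) * Y ≤ d * ((μ + 1) * (1 - 3 * ε) * Y) := by
      have : 0 ≤ d * (μ + 1) * ε * Y := by positivity
      linarith
    have k10 := mul_le_mul_of_nonneg_left g1 hd.le
    linarith

end Pool.Agent.H50ET
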