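import Mathlib

set_option autoImplicit false

/-!
Smooth odd numbers, many of which are congruent modulo a power of `2`.
-/

namespace Pool.Agent.H50ET

open Finset

/-- the product of the prime powers given by the exponents `f`, without the prime `2` -/
noncomputable def oddPart (f : ℕ →₀ ℕ) : ℕ := (f.erase 2).prod (· ^ ·)

lemma oddPart_inj {y U : ℕ} {f g : ℕ →₀ ℕ} (hf : f ∈ finsuppAntidiag (Nat.primesLE y) U)
    (hg : g ∈ finsuppAntidiag (Nat.primesLE y) U) (h : oddPart f = oddPart g) : f = g := by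
  rw [mem_finsuppAntidiag] at hf hg
  have hf' : ∀ p ∈ (f.erase 2).support, p.Prime := fun p hp => by
    rw [Finsupp.support_erase] at hp
    exact Nat.prime_of_mem_primesLE (hf.2 (Finset.mem_of_mem_erase hp))
  have hg' : ∀ p ∈ (g.erase 2).support, p.Prime := fun p hp => by
    rw [Finsupp.support_erase] at hp
    exact Nat.prime_of_mem_primesLE (hg.2 (Finset.mem_of_mem_erase hp))
  have h1 : f.erase 2 = g.erase 2 := by
    rw [← Nat.prod_pow_factorization_eq_self hf', ← Nat.prod_pow_factorization_eq_self hg']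
    exact congrArg Nat.factorization h
  have h2 : ∀ p, p ≠ 2 → f p = g p := by
    intro p hp
    have := congrArg (fun e : ℕ →₀ ℕ => e p) h1
    simpa only [Finsupp.erase_ne hp] using this
  ext p
  by_cases hp : p = 2
  · subst hp
    by_cases hmem : 2 ∈ Nat.primesLE y
    · have e1 := hf.1
      have e2 := hg.1
      rw [← Finset.add_sum_erase _ _ hmem] at e1 e2
      have e3 : ∑ p ∈ (Nat.primesLE y).erase 2, f p = ∑ p ∈ (Nat.primesLE y).erase 2, g p :=
        Finset.sum_congr rfl fun p hp => h2 p (Finset.ne_of_mem_erase hp)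
      omega
    · have e1 : f 2 = 0 := by
        by_contra hne
        exact hmem (hf.2 (Finsupp.mem_support_iff.2 hne))
      have e2 : g 2 = 0 := by
        by_contra hne
        exact hmem (hg.2 (Finsupp.mem_support_iff.2 hne))
      rw [e1, e2]
  · exact h2 p hp

lemma oddPart_prop {y U : ℕ} {f : ℕ →₀ ℕ} (hf : f ∈ finsuppAntidiag (Nat.primesLE y) U) :
    Odd (oddPart f) ∧ oddPart f ≤ y ^ U ∧ ∀ p, p.Prime → p ∣ oddPart f → p ≤ y := by
  rw [mem_finsuppAntidiag] at hf
  have hsupp : (f.erase 2).support ⊆ Nat.primesLE y := by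
    rw [Finsupp.support_erase]
    exact (Finset.erase_subset _ _).trans hf.2
  have hprod : oddPart f = ∏ p ∈ Nat.primesLE y, p ^ (f.erase 2) p :=
    Finsupp.prod_of_support_subset _ hsupp _ fun i _ => pow_zero i
  refine ⟨?_, ?_, ?_⟩
  · rw [hprod]
    refine Finset.prod_induction _ Odd (fun a b ha hb => ha.mul hb) odd_one fun p hp => ?_
    by_cases h2 : p = 2
    · rw [h2, Finsupp.erase_same, pow_zero]
      exact odd_one
    · exact ((Nat.prime_of_mem_primesLE hp).odd_of_ne_two h2).pow
  · rw [hprod]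
    have h1 : ∏ p ∈ Nat.primesLE y, p ^ (f.erase 2) p ≤ ∏ p ∈ Nat.primesLE y, y ^ f p := by
      refine Finset.prod_le_prod' fun p hp => ?_
      have hpy := Nat.le_of_mem_primesLE hp
      have hp1 := (Nat.prime_of_mem_primesLE hp).one_lt
      refine (Nat.pow_le_pow_left hpy _).trans (Nat.pow_le_pow_right (by omega) ?_)
      by_cases h2 : p = 2
      · rw [h2, Finsupp.erase_same]; exact Nat.zero_le _
      · rw [Finsupp.erase_ne h2]
    refine h1.trans (le_of_eq ?_)
    rw [Finset.prod_pow_eq_pow_sum]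
    congr 1
    exact hf.1
  · intro p hp hdvd
    rw [hprod] at hdvd
    obtain ⟨q, hq, hpq⟩ := (Prime.dvd_finsetProd_iff hp.prime _).1 hdvd
    have h1 := (Nat.prime_dvd_prime_iff_eq hp (Nat.prime_of_mem_primesLE hq)).1
      (hp.dvd_of_dvd_pow hpq)
    rw [h1]
    exact Nat.le_of_mem_primesLE hq

/-- many odd smooth numbers congruent modulo `q` -/
lemma exists_class (y U q k : ℕ) (hq : 0 < q) (hy : 2 ≤ y)
    (h : q * k < (U + (Nat.primeCounting y - 1)).choose U) :
    ∃ A : Finset ℕ, k < A.card ∧ (∀ a ∈ A, Odd a ∧ a ≤ y ^ U ∧ ∀ p, p.Prime → p ∣ a → p ≤ y) ∧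
      ∀ a ∈ A, ∀ b ∈ A, a % q = b % q := by
  classical
  set s := (finsuppAntidiag (Nat.primesLE y) U).image oddPart with hs
  have hcard : s.card = (U + (Nat.primeCounting y - 1)).choose U := by
    rw [hs, Finset.card_image_of_injOn, card_finsuppAntidiag_nat_eq_choose,
      Nat.primesLE_card_eq_primeCounting]
    · have : 1 ≤ Nat.primeCounting y := by
        rw [← Nat.primesLE_card_eq_primeCounting]
        exact Finset.card_pos.2 ⟨2, Nat.mem_primesLE.2 ⟨hy, Nat.prime_two⟩⟩
      congr 1
      omega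
    · intro f hf g hg hfg
      exact oddPart_inj (Finset.mem_coe.1 hf) (Finset.mem_coe.1 hg) hfg
  obtain ⟨r, -, hr⟩ := Finset.exists_lt_card_fiber_of_mul_lt_card_of_maps_to
    (s := s) (t := Finset.range q) (f := fun a => a % q) (n := k)
    (fun a _ => Finset.mem_range.2 (Nat.mod_lt _ hq)) (by
      rw [Finset.card_range, hcard]; exact h)
  refine ⟨_, hr, ?_, ?_⟩
  · intro a ha
    rw [Finset.mem_filter, hs, Finset.mem_image] at ha
    obtain ⟨⟨f, hf, rfl⟩, -⟩ := ha
    exact oddPart_prop hf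
  · intro a ha b hb
    rw [Finset.mem_filter] at ha hb
    rw [ha.2, hb.2]

end Pool.Agent.H50ET
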