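import Mathlib
import Pool.Agent.H50ET.Smooth
import Pool.Agent.H50ET.Params
import Pool.Agent.H50ET.Heights
import Pool.Agent.H50ET.Nonvan

set_option autoImplicit false

/-!
The main estimate.
-/

namespace Pool.Agent.H50ET

open NumberField IsDedekindDomain Height Pool.Agent.W231.V

variable {K : Type*} [Field K] [NumberField K]

/-- the prime `v` meets one of the hyperplanes or one of the hypersurfaces at `x` -/
def Bad {n : ℕ} {ι : Type*} (L : Fin (n + 1) → Fin (n + 1) → K)
    (F : ι → MvPolynomial (Fin (n + 1)) K) (κ : ι → ℕ) (x : Fin (n + 1) → K)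
    (v : HeightOneSpectrum (𝓞 K)) : Prop :=
  (∃ j, fv v (∑ i, L j i * x i) < (⨆ i, fv v (L j i)) * ⨆ i, fv v (x i)) ∨
  ∃ i, fv v (MvPolynomial.eval x (F i)) <
    (⨆ s, fv v ((F i).coeff s)) * (⨆ i, fv v (x i)) ^ κ i

lemma fv_primorial (v : HeightOneSpectrum (𝓞 K)) {a y : ℕ} (ha : a ≠ 0)
    (hy : ∀ p, p.Prime → p ∣ a → p ≤ y) (hv : fv v (a : K) < 1) :
    fv v (primorial y : K) < 1 := by
  by_contra hcon
  have h1 : ∀ p, p.Prime → p ≤ y → fv v (p : K) = 1 := by
    intro p hp hpy
    refine le_antisymm (fv_nat v p) ?_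
    by_contra h2
    refine hcon ?_
    have h3 : p ∣ primorial y := by
      rw [primorial]
      exact Finset.dvd_prod_of_mem _ (Finset.mem_filter.2 ⟨Finset.mem_range.2 (by omega), hp⟩)
    obtain ⟨q, hq⟩ := h3
    rw [hq, Nat.cast_mul, map_mul]
    calc _ ≤ fv v (p : K) * 1 := mul_le_mul_of_nonneg_left (fv_nat v q) ((fv v).nonneg _)
      _ < 1 := by rw [mul_one]; exact not_le.1 h2
  have h2 : fv v (a : K) = 1 := by
    have h3 : ((a.primeFactorsList.prod : ℕ) : K) = a := by rw [Nat.prod_primeFactorsList ha]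
    rw [← h3]
    have h4 : ∀ l : List ℕ, (∀ p ∈ l, fv v (p : K) = 1) → fv v ((l.prod : ℕ) : K) = 1 := by
      intro l
      induction l with
      | nil => intro _; simp
      | cons p l ih =>
        intro hl
        rw [List.prod_cons, Nat.cast_mul, map_mul, hl p (by simp), ih fun q hq => hl q (by simp [hq]),
          one_mul]
    refine h4 _ fun p hp => ?_
    have h5 := Nat.prime_of_mem_primeFactorsList hp
    exact h1 p h5 (hy p h5 (Nat.dvd_of_mem_primeFactorsList hp))
  rw [h2] at hv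
  exact lt_irrefl _ hv

lemma sum_union_le' (P Q : Finset (HeightOneSpectrum (𝓞 K))) [DecidableEq (HeightOneSpectrum (𝓞 K))] :
    ∑ v ∈ P ∪ Q, ell v ≤ ∑ v ∈ P, ell v + ∑ v ∈ Q, ell v := by
  rw [← Finset.sum_union_inter]
  have : 0 ≤ ∑ v ∈ P ∩ Q, ell v := Finset.sum_nonneg fun v _ => (ell_pos v).le
  linarith

lemma sum_biUnion_le' {ι : Type*} (s : Finset ι) (f : ι → Finset (HeightOneSpectrum (𝓞 K)))
    [DecidableEq (HeightOneSpectrum (𝓞 K))] :
    ∑ v ∈ s.biUnion f, ell v ≤ ∑ i ∈ s, ∑ v ∈ f i, ell v := by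
  classical
  induction s using Finset.induction_on with
  | empty => simp
  | insert i s hi ih =>
    rw [Finset.biUnion_insert, Finset.sum_insert hi]
    exact (sum_union_le' _ _).trans (by linarith)

theorem core {n : ℕ} (hn : 1 ≤ n) (L : Fin (n + 1) → Fin (n + 1) → K) (hL : LinearIndependent K L)
    {ι : Type*} [Fintype ι] (F : ι → MvPolynomial (Fin (n + 1)) K) (hF0 : ∀ i, F i ≠ 0)
    (κ : ι → ℕ) (hF : ∀ i, (F i).IsHomogeneous (κ i)) (z : Fin (n + 1) → K)
    (hz : ∀ j, ∑ i, L j i * z i ≠ 0) (μ : ι → ℕ)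
    (hmult : ∀ i, ∀ w : Fin (n + 1) → K, (Polynomial.X : Polynomial K) ^ μ i ∣ MvPolynomial.eval₂
      Polynomial.C (fun j => Polynomial.C (z j) + Polynomial.X * Polynomial.C (w j)) (F i))
    (M : ℕ) (hM : 1 ≤ M) (hMμ : ∑ i, μ i = M) (c : ℝ)
    (hc : c < (totalWeight K : ℝ) ^ ((1 : ℝ) / (M + 1)) * (((M : ℝ) + 1) ^ 2 / M))
    {Ω : Type*} [Field Ω] [Algebra K Ω]
    (Φ : MvPolynomial (Fin (n + 1)) Ω) (hΦ : Φ ≠ 0) (B : ℝ) :
    ∃ x : Fin (n + 1) → K, MvPolynomial.eval (fun i => algebraMap K Ω (x i)) Φ ≠ 0 ∧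
      (∀ j, ∑ i, L j i * x i ≠ 0) ∧ (∀ i, MvPolynomial.eval x (F i) ≠ 0) ∧
      B ≤ logHeight x ∧ {v | Bad L F κ x v}.Finite ∧
      ∀ T : Finset (HeightOneSpectrum (𝓞 K)), (∀ v ∈ T, Bad L F κ x v) →
        ∑ v ∈ T, ell v + c * (logHeight x ^ ((M : ℝ) / (M + 1)) / Real.log (logHeight x)) ≤
          (∑ i, (κ i : ℝ)) * logHeight x := by
  classical
  -- the inverse matrix
  have hunit : IsUnit (Matrix.of L) := by
    rw [← Matrix.linearIndependent_rows_iff_isUnit]
    exact hL
  have hdet : IsUnit (Matrix.of L).det := (Matrix.isUnit_iff_isUnit_det _).1 hunit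
  set E : Fin (n + 1) → Fin (n + 1) → K := fun i k => (Matrix.of L)⁻¹ i k with hEdef
  have hLE : ∀ i j, ∑ k, L i k * E k j = if i = j then 1 else 0 := by
    intro i j
    have h1 := congrFun (congrFun (Matrix.mul_nonsing_inv (Matrix.of L) hdet) i) j
    rw [Matrix.mul_apply, Matrix.one_apply] at h1
    exact h1
  have hEL : ∀ i j, ∑ k, E i k * L k j = if i = j then 1 else 0 := by
    intro i j
    have h1 := congrFun (congrFun (Matrix.nonsing_inv_mul (Matrix.of L) hdet) i) j
    rw [Matrix.mul_apply, Matrix.one_apply] at h1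
    exact h1
  have hE : ∀ (b : Fin (n + 1) → K) j, ∑ i, L j i * (∑ k, E i k * b k) = b j := by
    intro b j
    have h1 : ∀ i, L j i * (∑ k, E i k * b k) = ∑ k, (L j i * E i k) * b k := fun i => by
      rw [Finset.mul_sum]
      exact Finset.sum_congr rfl fun k _ => by ring
    rw [Finset.sum_congr rfl fun i _ => h1 i, Finset.sum_comm]
    have h2 : ∀ k, ∑ i, (L j i * E i k) * b k = if j = k then b k else 0 := fun k => by
      rw [← Finset.sum_mul, hLE]
      split_ifs
      · rw [one_mul]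
      · rw [zero_mul]
    rw [Finset.sum_congr rfl fun k _ => h2 k, Finset.sum_ite_eq]
    simp
  set ζ : Fin (n + 1) → K := fun k => ∑ i, L k i * z i with hζdef
  have hζ : ∀ k, ζ k ≠ 0 := hz
  have hzE : ∀ i, z i = ∑ k, E i k * ζ k := by
    intro i
    have h1 : ∀ k, E i k * ζ k = ∑ j, (E i k * L k j) * z j := fun k => by
      rw [hζdef, Finset.mul_sum]
      exact Finset.sum_congr rfl fun j _ => by ring
    rw [Finset.sum_congr rfl fun k _ => h1 k, Finset.sum_comm]
    have h2 : ∀ j, ∑ k, (E i k * L k j) * z j = if i = j then z j else 0 := fun j => by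
      rw [← Finset.sum_mul, hEL]
      split_ifs
      · rw [one_mul]
      · rw [zero_mul]
    rw [Finset.sum_congr rfl fun k _ => h2 k, Finset.sum_ite_eq]
    simp
  have hval : ∀ (a : Fin (n + 1) → ℕ) j, ∑ i, L j i * pnt E ζ a i = a j * ζ j := fun a j => by
    unfold pnt
    rw [hE]
  -- the index `1`
  set i1 : Fin (n + 1) := ⟨1, by omega⟩ with hi1
  have hi10 : i1 ≠ 0 := by
    rw [hi1]
    intro h
    have := congrArg Fin.val h
    simp at this
  -- nonvanishing
  set P : MvPolynomial (Fin (n + 1)) Ω := Φ * ∏ i, MvPolynomial.map (algebraMap K Ω) (F i) with hP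
  have hP0 : P ≠ 0 := by
    refine mul_ne_zero hΦ (Finset.prod_ne_zero_iff.2 fun i _ => ?_)
    intro h
    refine hF0 i (MvPolynomial.map_injective (algebraMap K Ω) (algebraMap K Ω).injective ?_)
    rw [h, map_zero]
  obtain ⟨k0, hk0⟩ := nonvanish L E ζ hEL hζ i1 hi10 P hP0
  -- the bad primes
  set cs : Finset K := (Finset.univ.image fun p : Fin (n + 1) × Fin (n + 1) => L p.1 p.2) ∪
    (Finset.univ.image fun p : Fin (n + 1) × Fin (n + 1) => E p.1 p.2) ∪
    Finset.univ.image ζ ∪ (Finset.univ.biUnion fun i => (F i).support.image fun s =>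
      (F i).coeff s) ∪ {2} with hcs
  have hbadfin : {v : HeightOneSpectrum (𝓞 K) | ∃ x ∈ cs, x ≠ 0 ∧ fv v x ≠ 1}.Finite := by
    have : {v : HeightOneSpectrum (𝓞 K) | ∃ x ∈ cs, x ≠ 0 ∧ fv v x ≠ 1} ⊆
        ⋃ x ∈ cs.filter (fun x => x ≠ 0), {v : HeightOneSpectrum (𝓞 K) | fv v x ≠ 1} := by
      rintro v ⟨x, hx, hx0, hx1⟩
      simp only [Set.mem_iUnion, Finset.mem_filter]
      exact ⟨x, ⟨hx, hx0⟩, hx1⟩
    refine Set.Finite.subset (Set.Finite.biUnion (Finset.finite_toSet _) fun x hx => ?_) this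
    exact fv_support_finite (Finset.mem_filter.1 (Finset.mem_coe.1 hx)).2
  set T0 : Finset (HeightOneSpectrum (𝓞 K)) := hbadfin.toFinset with hT0
  have hgood : ∀ v ∉ T0, ∀ x ∈ cs, x ≠ 0 → fv v x = 1 := by
    intro v hv x hx hx0
    by_contra h
    exact hv (hbadfin.mem_toFinset.2 ⟨x, hx, hx0, h⟩)
  have hgood' : ∀ v ∉ T0, ∀ x ∈ cs, fv v x ≤ 1 := by
    intro v hv x hx
    by_cases hx0 : x = 0
    · rw [hx0, map_zero]; exact zero_le_one
    · exact (hgood v hv x hx hx0).le
  have hmemL : ∀ i j, L i j ∈ cs := by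
    intro i j
    rw [hcs]
    simp only [Finset.mem_union, Finset.mem_image, Finset.mem_univ, true_and]
    left; left; left; left
    exact ⟨(i, j), rfl⟩
  have hmemE : ∀ i j, E i j ∈ cs := by
    intro i j
    rw [hcs]
    simp only [Finset.mem_union, Finset.mem_image, Finset.mem_univ, true_and]
    left; left; left; right
    exact ⟨(i, j), rfl⟩
  have hmemζ : ∀ j, ζ j ∈ cs := by
    intro j
    rw [hcs]
    simp only [Finset.mem_union, Finset.mem_image, Finset.mem_univ, true_and]
    left; left; right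
    exact ⟨j, rfl⟩
  have hmem2 : (2 : K) ∈ cs := by
    rw [hcs]
    simp only [Finset.mem_union, Finset.mem_singleton]
    right; trivial
  have hcoeff : ∀ v ∉ T0, ∀ i s, fv v ((F i).coeff s) ≤ 1 := by
    intro v hv i s
    by_cases hs : s ∈ (F i).support
    · refine hgood' v hv _ ?_
      rw [hcs]
      simp only [Finset.mem_union, Finset.mem_biUnion, Finset.mem_image, Finset.mem_univ, true_and]
      left; right
      exact ⟨i, s, hs, rfl⟩
    · rw [MvPolynomial.notMem_support_iff.1 hs, map_zero]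
      exact zero_le_one
  have hf2 : ∀ v ∉ T0, fv v (2 : K) = 1 := fun v hv => hgood v hv 2 hmem2 two_ne_zero
  -- local bounds
  choose R hR0 hR using fun (i : ι) (v : HeightOneSpectrum (𝓞 K)) =>
    local_bound L E ζ z hE hzE hζ (F i) (κ i) (hF i) (μ i) (hmult i) v
  set R1 : ι → HeightOneSpectrum (𝓞 K) → ℝ := fun i v => if v ∈ T0 then R i v else 1 with hR1def
  have hR1pos : ∀ i v, 0 < R1 i v := by
    intro i v
    rw [hR1def]
    dsimp only
    split_ifs
    · exact hR0 i v
    · exact one_pos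
  have hR1one : ∀ i, ∀ v ∉ T0, R1 i v = 1 := by
    intro i v hv
    rw [hR1def]
    dsimp only
    rw [if_neg hv]
  set R2 : ι → ℝ := fun i => ∑ w : InfinitePlace K, ∑ s ∈ (F i).support, w ((F i).coeff s) + 1
    with hR2def
  have hR2pos : ∀ i, 0 < R2 i := by
    intro i
    have : 0 ≤ ∑ w : InfinitePlace K, ∑ s ∈ (F i).support, w ((F i).coeff s) :=
      Finset.sum_nonneg fun w _ => Finset.sum_nonneg fun s _ => apply_nonneg w _
    rw [hR2def]
    dsimp only
    linarith
  -- constants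
  obtain ⟨C1, hC1⟩ := height_upper E ζ
  obtain ⟨c3, C3, hc3, hC3⟩ := height_lower L E ζ hE hζ i1
  set C2 : ℝ := ∑ v ∈ T0, ell v + ∑ i, ((totalWeight K : ℝ) * Real.log (R2 i) +
    ∑ v ∈ T0, Real.log (R1 i v)) with hC2def
  have hW : (0 : ℝ) < (totalWeight K : ℝ) := by exact_mod_cast totalWeight_pos K
  obtain ⟨y, U, m, hy, hcount, hmB, hpar⟩ := params M hM (totalWeight K : ℝ) hW c hc (k0 + 1)
    (by omega) C1 C2 ((max B (Real.exp 2) + C3) / c3)
  obtain ⟨A, hAcard, hA, hAcong⟩ := exists_class y U (2 ^ m) (k0 + 1) (by positivity) hy hcount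
  obtain ⟨a, haA, hane, haP⟩ := hk0 A (by omega)
  set x := pnt E ζ a with hx
  rw [hP, map_mul, map_prod] at haP
  have hΦx := left_ne_zero_of_mul haP
  have hFx : ∀ i, MvPolynomial.eval x (F i) ≠ 0 := by
    intro i h
    have h1 := Finset.prod_ne_zero_iff.1 (right_ne_zero_of_mul haP) i (Finset.mem_univ i)
    rw [MvPolynomial.eval_map] at h1
    refine h1 ?_
    have h2 : MvPolynomial.eval₂ (algebraMap K Ω) (fun i => (algebraMap K Ω) (x i)) (F i) =
        algebraMap K Ω (MvPolynomial.eval x (F i)) := by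
      change _ = algebraMap K Ω (MvPolynomial.eval₂ (RingHom.id K) x (F i))
      rw [MvPolynomial.hom_eval₂, RingHom.comp_id]
    rw [h2, h, map_zero]
  have hodd : ∀ j, Odd (a j) := fun j => (hA _ (haA j)).1
  have hle : ∀ j, a j ≤ y ^ U := fun j => (hA _ (haA j)).2.1
  have hsmooth : ∀ j p, p.Prime → p ∣ a j → p ≤ y := fun j => (hA _ (haA j)).2.2
  have hcong : ∀ j, a j % 2 ^ m = a 0 % 2 ^ m := fun j => hAcong _ (haA j) _ (haA 0)
  have hLx : ∀ j, ∑ i, L j i * x i ≠ 0 := by
    intro j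
    rw [hx, hval]
    exact mul_ne_zero (Nat.cast_ne_zero.2 (hodd j).pos.ne') (hζ j)
  have hx0 : x ≠ 0 := by
    intro h
    refine hLx 0 ?_
    rw [h]
    simp
  -- the height
  have hlow := hC3 m a hodd (hcong i1) hane
  rw [← hx] at hlow
  have hlow' : max B (Real.exp 2) ≤ logHeight x := by
    rw [div_le_iff₀ hc3] at hmB
    linarith
  have hup : logHeight x ≤ (totalWeight K : ℝ) * (U * Real.log y) + C1 := by
    have h1 := hC1 a (y ^ U) (fun k => (hodd k).pos) hle
    push_cast at h1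
    rw [Real.log_pow] at h1
    exact h1
  have hmain := hpar (logHeight x) ((le_max_right _ _).trans hlow') hup
  -- integrality
  have hxle : ∀ v ∉ T0, ∀ i, fv v (x i) ≤ 1 := by
    intro v hv i
    rw [hx, pnt]
    refine fv_sum_le v _ _ 1 zero_le_one fun k _ => ?_
    rw [map_mul, map_mul]
    exact mul_le_one₀ (hgood' v hv _ (hmemE i k)) (mul_nonneg ((fv v).nonneg _) ((fv v).nonneg _))
      (mul_le_one₀ (fv_nat v _) ((fv v).nonneg _) (hgood' v hv _ (hmemζ k)))
  have hsup : ∀ v ∉ T0, ⨆ i, fv v (x i) ≤ 1 := fun v hv => ciSup_le fun i => hxle v hv i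
  have hsup0 : ∀ v, 0 ≤ ⨆ i, fv v (x i) := fun v => Real.iSup_nonneg fun i => (fv v).nonneg _
  -- the dichotomy
  have key : ∀ v, Bad L F κ x v → v ∈ T0 ∨ fv v (primorial y : K) < 1 ∨
      ∃ i, v ∉ T0 ∧ fv v (MvPolynomial.eval x (F i)) < (⨆ i, fv v (x i)) ^ κ i := by
    intro v hv
    by_cases hvT : v ∈ T0
    · exact Or.inl hvT
    right
    rcases hv with ⟨j, hj⟩ | ⟨i, hi⟩
    · left
      refine fv_primorial v (hodd j).pos.ne' (hsmooth j) ?_
      have h1 : fv v (∑ i, L j i * x i) < 1 := by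
        refine hj.trans_le (mul_le_one₀ (ciSup_le fun i => hgood' v hvT _ (hmemL j i)) (hsup0 v)
          (hsup v hvT))
      rw [hx, hval, map_mul, hgood v hvT _ (hmemζ j) (hζ j), mul_one] at h1
      exact h1
    · right
      refine ⟨i, hvT, hi.trans_le ?_⟩
      calc _ ≤ 1 * (⨆ i, fv v (x i)) ^ κ i :=
            mul_le_mul_of_nonneg_right (ciSup_le fun s => hcoeff v hvT i s)
              (pow_nonneg (hsup0 v) _)
        _ = _ := one_mul _
  have hprim0 : (primorial y : K) ≠ 0 := Nat.cast_ne_zero.2 (primorial_pos y).ne'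
  refine ⟨x, hΦx, hLx, hFx, (le_max_left _ _).trans hlow', ?_, fun T hT => ?_⟩
  · -- finiteness
    have hfin := (T0.finite_toSet.union (fv_support_finite hprim0)).union
      (Set.finite_iUnion fun i => fv_support_finite (hFx i))
    refine hfin.subset fun v hv => ?_
    rcases key v hv with h | h | ⟨i, hvT, h⟩
    · exact Or.inl (Or.inl h)
    · exact Or.inl (Or.inr h.ne)
    · right
      simp only [Set.mem_iUnion]
      exact ⟨i, (h.trans_le (pow_le_one₀ (hsup0 v) (hsup v hvT))).ne⟩
  · -- the counting function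
    set T1 := T.filter fun v => fv v (primorial y : K) < 1 with hT1
    set T2 : ι → Finset (HeightOneSpectrum (𝓞 K)) := fun i => T.filter fun v =>
      v ∉ T0 ∧ fv v (MvPolynomial.eval x (F i)) < (⨆ i, fv v (x i)) ^ κ i with hT2
    have hcover : T ⊆ T0 ∪ T1 ∪ Finset.univ.biUnion T2 := by
      intro v hv
      rcases key v (hT v hv) with h | h | ⟨i, h1, h2⟩
      · exact Finset.mem_union_left _ (Finset.mem_union_left _ h)
      · exact Finset.mem_union_left _ (Finset.mem_union_right _ (Finset.mem_filter.2 ⟨hv, h⟩))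
      · refine Finset.mem_union_right _ (Finset.mem_biUnion.2 ⟨i, Finset.mem_univ i, ?_⟩)
        exact Finset.mem_filter.2 ⟨hv, h1, h2⟩
    have h1 : ∑ v ∈ T, ell v ≤ ∑ v ∈ T0, ell v + ∑ v ∈ T1, ell v +
        ∑ i, ∑ v ∈ T2 i, ell v := by
      refine (Finset.sum_le_sum_of_subset_of_nonneg hcover fun v _ _ => (ell_pos v).le).trans ?_
      refine (sum_union_le' _ _).trans (add_le_add (sum_union_le' _ _) (sum_biUnion_le' _ _))
    have h2 : ∑ v ∈ T1, ell v ≤ (totalWeight K : ℝ) * Chebyshev.theta y := by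
      have e1 := weight_le hprim0 T1 fun v hv => (Finset.mem_filter.1 hv).2
      rw [logHeight₁_nat (primorial_pos y)] at e1
      rw [Chebyshev.theta_eq_log_primorial, Nat.floor_natCast]
      exact e1
    have h3 : ∀ i, ∑ v ∈ T2 i, ell v ≤ κ i * logHeight x -
        (totalWeight K : ℝ) * ((m * μ i : ℕ) * Real.log 2) +
          ((totalWeight K : ℝ) * Real.log (R2 i) + ∑ v ∈ T0, Real.log (R1 i v)) := by
      intro i
      have e1 := fmt hx0 (hFx i) (κ i) (2 ^ (m * μ i)) (Nat.one_le_two_pow) T0 (R1 i) (hR1pos i)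
        (hR1one i) (R2 i) (hR2pos i) (by
          intro w
          refine (hom_bound w.1 (hF i) x).trans ?_
          refine mul_le_mul_of_nonneg_right ?_
            (pow_nonneg (Real.iSup_nonneg fun i => apply_nonneg w _) _)
          have e2 := Finset.single_le_sum (f := fun w : InfinitePlace K =>
            ∑ s ∈ (F i).support, w ((F i).coeff s))
            (fun w _ => Finset.sum_nonneg fun s _ => apply_nonneg w _) (Finset.mem_univ w)
          have e3 : ∑ s ∈ (F i).support, w.1 ((F i).coeff s) =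
            ∑ s ∈ (F i).support, w ((F i).coeff s) := rfl
          rw [e3, hR2def]
          dsimp only at e2 ⊢
          linarith) (by
          intro v
          by_cases hv : v ∈ T0
          · have e2 := hR i v m a hodd hcong
            rw [hR1def]
            dsimp only
            rw [if_pos hv]
            exact e2
          · rw [hR1one i v hv, one_mul]
            have e2 : fv v ((2 ^ (m * μ i) : ℕ) : K) = 1 := by
              push_cast
              rw [map_pow, hf2 v hv, one_pow]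
            rw [e2, one_mul]
            exact hom_bound_na (fv v) (fv_na v) (hF i) (hcoeff v hv i) x) (T2 i) (by
          rw [Finset.disjoint_left]
          intro v hv
          exact (Finset.mem_filter.1 hv).2.1) (by
          intro v hv
          push_cast
          rw [map_pow, hf2 v (Finset.mem_filter.1 hv).2.1, one_pow]) (by
          intro v hv
          exact (Finset.mem_filter.1 hv).2.2)
      have e4 : Real.log ((2 ^ (m * μ i) : ℕ) : ℝ) = (m * μ i : ℕ) * Real.log 2 := by
        push_cast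
        rw [Real.log_pow]
        push_cast
        ring
      rw [e4] at e1
      linarith
    have h4 := Finset.sum_le_sum fun i (_ : i ∈ (Finset.univ : Finset ι)) => h3 i
    rw [Finset.sum_add_distrib, Finset.sum_sub_distrib, ← Finset.sum_mul] at h4
    have h5 : ∑ i, (totalWeight K : ℝ) * ((m * μ i : ℕ) * Real.log 2) =
        (totalWeight K : ℝ) * (M * (m * Real.log 2)) := by
      rw [← Finset.mul_sum, ← hMμ]
      congr 1
      push_cast
      rw [Finset.sum_mul]
      refine Finset.sum_congr rfl fun i _ => by ring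
    rw [h5] at h4
    rw [hC2def] at hmain
    linarith

end Pool.Agent.H50ET
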