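import Mathlib
import Pool.Agent.H50ET.Core

set_option autoImplicit false

/-!
The main estimate for a divisor of the projective space containing `n + 1` independent hyperplanes.
-/

namespace Pool.Agent.H50ET

open NumberField IsDedekindDomain Height Pool.Agent.W231.V

variable {K : Type*} [Field K] [NumberField K]

/-- every line through `z` meets `F = 0` at `z` with multiplicity at least `m` -/
def MultGe {n : ℕ} (F : MvPolynomial (Fin (n + 1)) K) (z : Fin (n + 1) → K) (m : ℕ) : Prop :=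
  ∀ w : Fin (n + 1) → K, (Polynomial.X : Polynomial K) ^ m ∣ MvPolynomial.eval₂
      Polynomial.C (fun j => Polynomial.C (z j) + Polynomial.X * Polynomial.C (w j)) F

lemma degree_one {σ : Type*} {s : σ →₀ ℕ} (h : s.degree = 1) : ∃ i, s = Finsupp.single i 1 :=
  (Finsupp.sum_eq_one_iff s).1 h

section linear

variable {k : Type*} [Field k]

lemma eval_linear {n : ℕ} {F : MvPolynomial (Fin (n + 1)) k} (hF : F.IsHomogeneous 1)
    (x : Fin (n + 1) → k) :
    MvPolynomial.eval x F = ∑ i, F.coeff (Finsupp.single i 1) * x i := by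
  classical
  rw [MvPolynomial.eval_eq']
  have h1 : F.support ⊆ Finset.univ.image fun i : Fin (n + 1) => Finsupp.single i 1 := by
    intro s hs
    have h2 : s.degree = 1 := by
      by_contra hne
      exact (MvPolynomial.mem_support_iff.1 hs) (hF.coeff_eq_zero hne)
    obtain ⟨i, hi⟩ := degree_one h2
    exact Finset.mem_image.2 ⟨i, Finset.mem_univ i, hi.symm⟩
  rw [Finset.sum_subset h1 fun s _ hs => by
    rw [MvPolynomial.notMem_support_iff.1 hs, zero_mul]]
  rw [Finset.sum_image]
  · refine Finset.sum_congr rfl fun i _ => ?_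
    congr 1
    rw [Finset.prod_eq_single i]
    · simp
    · intro j _ hj
      rw [Finsupp.single_eq_of_ne hj, pow_zero]
    · intro h; exact absurd (Finset.mem_univ i) h
  · intro i _ j _ hij
    exact Finsupp.single_left_injective one_ne_zero hij

end linear

theorem general {n r : ℕ} (hn : 1 ≤ n) (F : Fin r → MvPolynomial (Fin (n + 1)) K)
    (hF0 : ∀ i, F i ≠ 0) (d : Fin r → ℕ) (hF : ∀ i, (F i).IsHomogeneous (d i))
    (τ : Fin (n + 1) → Fin r) (hτ : Function.Injective τ) (hτ1 : ∀ j, d (τ j) = 1)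
    (hind : ∀ x : Fin (n + 1) → K, (∀ j, MvPolynomial.eval x (F (τ j)) = 0) → x = 0)
    (z : Fin (n + 1) → K) (hz : ∀ j, MvPolynomial.eval z (F (τ j)) ≠ 0) (m : Fin r → ℕ)
    (hm : ∀ i, MultGe (F i) z (m i)) (μ : ℕ) (hμ1 : 1 ≤ μ) (hμ : ∑ i, m i = μ) (c : ℝ)
    (hc : c < (Module.finrank ℚ K : ℝ) ^ ((1 : ℝ) / (μ + 1)) * (((μ : ℝ) + 1) ^ 2 / μ))
    {Ω : Type*} [Field Ω] [Algebra K Ω]
    (Φ : MvPolynomial (Fin (n + 1)) Ω) (hΦ : Φ ≠ 0) (B : ℝ) :
    ∃ x : Fin (n + 1) → K, MvPolynomial.eval (fun i => algebraMap K Ω (x i)) Φ ≠ 0 ∧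
      (∀ i, MvPolynomial.eval x (F i) ≠ 0) ∧ B ≤ logHeight x ∧
      {v : HeightOneSpectrum (𝓞 K) | ∃ i, fv v (MvPolynomial.eval x (F i)) <
        (⨆ s, fv v ((F i).coeff s)) * (⨆ j, fv v (x j)) ^ d i}.Finite ∧
      ∀ T : Finset (HeightOneSpectrum (𝓞 K)), (∀ v ∈ T, ∃ i,
        fv v (MvPolynomial.eval x (F i)) <
          (⨆ s, fv v ((F i).coeff s)) * (⨆ j, fv v (x j)) ^ d i) →
        ∑ v ∈ T, ell v + c * (logHeight x ^ ((μ : ℝ) / (μ + 1)) / Real.log (logHeight x)) ≤
          (∑ i, (d i : ℝ) - n - 1) * logHeight x := by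
  classical
  set L : Fin (n + 1) → Fin (n + 1) → K := fun j i => (F (τ j)).coeff (Finsupp.single i 1) with hLdef
  have hFτ : ∀ j, (F (τ j)).IsHomogeneous 1 := fun j => by
    have := hF (τ j)
    rwa [hτ1] at this
  have hev : ∀ j (x : Fin (n + 1) → K), MvPolynomial.eval x (F (τ j)) = ∑ i, L j i * x i :=
    fun j x => eval_linear (hFτ j) x
  have hL : LinearIndependent K L := by
    have h1 : IsUnit (Matrix.of L) := by
      rw [← Matrix.mulVec_injective_iff_isUnit]
      intro x y hxy
      have h2 : x - y = 0 := by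
        refine hind _ fun j => ?_
        rw [hev]
        have h3 := congrFun hxy j
        simp only [Matrix.mulVec, dotProduct, Matrix.of_apply] at h3
        simp only [Pi.sub_apply, mul_sub, Finset.sum_sub_distrib]
        rw [h3, sub_self]
      exact sub_eq_zero.1 h2
    have h2 := Matrix.linearIndependent_rows_iff_isUnit.2 h1
    exact h2
  have hmτ : ∀ j, m (τ j) = 0 := by
    intro j
    by_contra hne
    have h1 := hm (τ j) 0
    have h2 : (Polynomial.X : Polynomial K) ∣ MvPolynomial.eval₂ Polynomial.C (fun j =>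
        Polynomial.C (z j) + Polynomial.X * Polynomial.C ((0 : Fin (n + 1) → K) j)) (F (τ j)) :=
      (dvd_pow_self _ hne).trans h1
    rw [Polynomial.X_dvd_iff, Polynomial.coeff_zero_eq_eval_zero] at h2
    refine hz j ?_
    rw [← h2]
    have e1 : ∀ p : Polynomial K, p.eval 0 = Polynomial.evalRingHom (0 : K) p := fun _ => rfl
    rw [e1, MvPolynomial.hom_eval₂]
    have e2 : (Polynomial.evalRingHom (0 : K)).comp Polynomial.C = RingHom.id K := by
      ext c; simp
    rw [e2]
    change _ = MvPolynomial.eval₂ (RingHom.id K) _ (F (τ j))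
    change MvPolynomial.eval₂ (RingHom.id K) z (F (τ j)) = _
    congr 1
    funext j
    simp
  -- the other components
  set ι := {i : Fin r // i ∉ Set.range τ} with hι
  have hsum : ∀ f : Fin r → ℕ, ∑ i : Fin r, f i = ∑ j, f (τ j) + ∑ i : ι, f i := by
    intro f
    rw [← Fintype.sum_subtype_add_sum_subtype (fun i => i ∈ Set.range τ) f]
    congr 1
    refine (Finset.sum_subtype (Finset.univ.image τ) (fun i => by simp) f).symm.trans ?_
    rw [Finset.sum_image fun a _ b _ hab => hτ hab]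
  have hsumm : ∑ i : ι, m i = μ := by
    have := hsum m
    rw [Finset.sum_congr rfl fun j _ => hmτ j, Finset.sum_const_zero, zero_add, hμ] at this
    exact this.symm
  have hsumd : (∑ i : ι, (d i : ℝ)) = ∑ i, (d i : ℝ) - n - 1 := by
    have := hsum d
    rw [Finset.sum_congr rfl fun j _ => hτ1 j, Finset.sum_const, Finset.card_univ,
      Fintype.card_fin, smul_eq_mul, mul_one] at this
    have h2 := congrArg (Nat.cast : ℕ → ℝ) this
    push_cast at h2
    linarith
  have hc' : c < (totalWeight K : ℝ) ^ ((1 : ℝ) / (μ + 1)) * (((μ : ℝ) + 1) ^ 2 / μ) := by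
    rw [NumberField.totalWeight_eq_finrank]
    exact hc
  obtain ⟨x, h1, h2, h3, h4, h5, h6⟩ := core hn L hL (fun i : ι => F i) (fun i => hF0 i)
    (fun i : ι => d i) (fun i => hF i) z (fun j => by rw [← hev]; exact hz j) (fun i : ι => m i)
    (fun i => hm i) μ hμ1 hsumm c hc' Φ hΦ B
  have hbad : ∀ v : HeightOneSpectrum (𝓞 K), (∃ i, fv v (MvPolynomial.eval x (F i)) <
      (⨆ s, fv v ((F i).coeff s)) * (⨆ j, fv v (x j)) ^ d i) →
      Bad L (fun i : ι => F i) (fun i : ι => d i) x v := by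
    rintro v ⟨i, hi⟩
    by_cases hiτ : i ∈ Set.range τ
    · obtain ⟨j, rfl⟩ := hiτ
      left
      refine ⟨j, ?_⟩
      rw [← hev]
      refine hi.trans_le ?_
      rw [hτ1, pow_one]
      refine mul_le_mul_of_nonneg_right ?_ (Real.iSup_nonneg fun i => (fv v).nonneg _)
      refine ciSup_le fun s => ?_
      by_cases hs : s.degree = 1
      · obtain ⟨i, rfl⟩ := degree_one hs
        exact le_ciSup (Set.finite_range fun i => fv v (L j i)).bddAbove i
      · rw [(hFτ j).coeff_eq_zero hs, map_zero]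
        exact Real.iSup_nonneg fun i => (fv v).nonneg _
    · right
      exact ⟨⟨i, hiτ⟩, hi⟩
  refine ⟨x, h1, fun i => ?_, h4, h5.subset fun v hv => hbad v hv, fun T hT => ?_⟩
  · by_cases hiτ : i ∈ Set.range τ
    · obtain ⟨j, rfl⟩ := hiτ
      rw [hev]
      exact h2 j
    · exact h3 ⟨i, hiτ⟩
  · have := h6 T fun v hv => hbad v (hT v hv)
    rw [hsumd] at this
    exact this

end Pool.Agent.H50ET
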