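import Mathlib
import Pool.Agent.H50ET.Final

set_option autoImplicit false

/-!
Hyperplanes in general position.
-/

namespace Pool.Agent.H50ET

open NumberField IsDedekindDomain Height Pool.Agent.W231.V

/-- the linear form with coefficients `l` -/
noncomputable def lin {K : Type*} [Field K] {n : ℕ} (l : Fin (n + 1) → K) :
    MvPolynomial (Fin (n + 1)) K :=
  ∑ j, MvPolynomial.C (l j) * MvPolynomial.X j

section algebra

variable {K : Type*} [Field K]

lemma lin_hom {n : ℕ} (l : Fin (n + 1) → K) : (lin l).IsHomogeneous 1 :=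
  MvPolynomial.IsHomogeneous.sum _ _ _ fun j _ => (MvPolynomial.isHomogeneous_X K j).C_mul _

lemma lin_eval {n : ℕ} (l x : Fin (n + 1) → K) : MvPolynomial.eval x (lin l) = ∑ j, l j * x j := by
  simp [lin]

lemma lin_ne_zero {n : ℕ} {l : Fin (n + 1) → K} (hl : l ≠ 0) : lin l ≠ 0 := by
  intro h
  refine hl (funext fun j => ?_)
  have h1 := lin_eval l (Pi.single j 1)
  rw [h, map_zero] at h1
  simpa [Pi.single_apply] using h1.symm

lemma exists_value {n r : ℕ} (L : Fin r → Fin (n + 1) → K)
    (hgp : ∀ I : Finset (Fin r), I.card = n + 1 → LinearIndependent K (fun i : I => L i))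
    (I : Finset (Fin r)) (hI : I.card = n + 1) (b : Fin r → K) :
    ∃ x : Fin (n + 1) → K, ∀ i ∈ I, ∑ j, L i j * x j = b i := by
  classical
  set e := (Finset.equivFinOfCardEq hI).symm with he
  have h1 : LinearIndependent K (fun a : Fin (n + 1) => L (e a)) :=
    (hgp I hI).comp e e.injective
  have hunit : IsUnit (Matrix.of fun a : Fin (n + 1) => L (e a)) := by
    rw [← Matrix.linearIndependent_rows_iff_isUnit]
    exact h1
  obtain ⟨x, hx⟩ := Matrix.mulVec_surjective_iff_isUnit.2 hunit (fun a => b (e a))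
  refine ⟨x, fun i hi => ?_⟩
  have h2 := congrFun hx (e.symm ⟨i, hi⟩)
  simp only [Matrix.mulVec, dotProduct, Matrix.of_apply, Equiv.apply_symm_apply] at h2
  exact h2

lemma exists_point [Infinite K] {n r : ℕ} (L : Fin r → Fin (n + 1) → K)
    (hgp : ∀ I : Finset (Fin r), I.card = n + 1 → LinearIndependent K (fun i : I => L i))
    (I : Finset (Fin r)) (hI : I.card ≤ n) (hr : n + 1 ≤ r) (J : Finset (Fin r))
    (hIJ : Disjoint I J) :
    ∃ z : Fin (n + 1) → K, (∀ i ∈ I, ∑ j, L i j * z j = 0) ∧ ∀ i ∈ J, ∑ j, L i j * z j ≠ 0 := by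
  classical
  let f : Fin r → Module.Dual K (Fin (n + 1) → K) := fun i =>
    ∑ j, L i j • LinearMap.proj j
  have hf : ∀ i x, f i x = ∑ j, L i j * x j := fun i x => by
    simp [f]
  let p : Submodule K (Fin (n + 1) → K) := ⨅ i ∈ I, LinearMap.ker (f i)
  have hp : ∀ x, x ∈ p ↔ ∀ i ∈ I, ∑ j, L i j * x j = 0 := fun x => by
    simp [p, Submodule.mem_iInf, hf]
  obtain ⟨z, hz, hz'⟩ := Module.Dual.exists_forall_mem_ne_zero_of_forall_exists p
    (fun i : J => f i) (by
    rintro ⟨i, hi⟩
    have hiI : i ∉ I := fun h => Finset.disjoint_left.1 hIJ h hi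
    obtain ⟨I', hI'1, hI'2⟩ := Finset.exists_superset_card_eq (s := insert i I) (n := n + 1)
      (by rw [Finset.card_insert_of_notMem hiI]; omega) (by rw [Fintype.card_fin]; exact hr)
    obtain ⟨x, hx⟩ := exists_value L hgp I' hI'2 (fun k => if k = i then 1 else 0)
    refine ⟨x, (hp x).2 fun k hk => ?_, ?_⟩
    · rw [hx k (hI'1 (Finset.mem_insert_of_mem hk)), if_neg]
      rintro rfl
      exact hiI hk
    · rw [hf, hx i (hI'1 (Finset.mem_insert_self _ _)), if_pos rfl]
      exact one_ne_zero)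
  refine ⟨z, (hp z).1 hz, fun i hi => ?_⟩
  rw [← hf]
  exact hz' ⟨i, hi⟩

end algebra

variable {K : Type*} [Field K] [NumberField K]

theorem arrangement {n r : ℕ} (hn : 1 ≤ n) (hr : n + 2 ≤ r) (L : Fin r → Fin (n + 1) → K)
    (hgp : ∀ I : Finset (Fin r), I.card = n + 1 → LinearIndependent K (fun i : I => L i))
    (μ : ℕ) (hμ : μ = min n (r - n - 1)) (c : ℝ)
    (hc : c < (Module.finrank ℚ K : ℝ) ^ ((1 : ℝ) / (μ + 1)) * (((μ : ℝ) + 1) ^ 2 / μ))
    {Ω : Type*} [Field Ω] [Algebra K Ω]
    (Φ : MvPolynomial (Fin (n + 1)) Ω) (hΦ : Φ ≠ 0) (B : ℝ) :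
    ∃ x : Fin (n + 1) → K, MvPolynomial.eval (fun i => algebraMap K Ω (x i)) Φ ≠ 0 ∧
      (∀ i, MvPolynomial.eval x (lin (L i)) ≠ 0) ∧ B ≤ logHeight x ∧
      {v : HeightOneSpectrum (𝓞 K) | ∃ i, fv v (MvPolynomial.eval x (lin (L i))) <
        (⨆ s, fv v ((lin (L i)).coeff s)) * (⨆ j, fv v (x j)) ^ 1}.Finite ∧
      ∀ T : Finset (HeightOneSpectrum (𝓞 K)), (∀ v ∈ T, ∃ i,
        fv v (MvPolynomial.eval x (lin (L i))) <
          (⨆ s, fv v ((lin (L i)).coeff s)) * (⨆ j, fv v (x j)) ^ 1) →
        ∑ v ∈ T, ell v + c * (logHeight x ^ ((μ : ℝ) / (μ + 1)) / Real.log (logHeight x)) ≤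
          ((r : ℝ) - n - 1) * logHeight x := by
  classical
  have hμ1 : 1 ≤ μ := by omega
  have hL0 : ∀ i, L i ≠ 0 := by
    intro i
    obtain ⟨I', hI'1, hI'2⟩ := Finset.exists_superset_card_eq (s := {i}) (n := n + 1)
      (by rw [Finset.card_singleton]; omega) (by rw [Fintype.card_fin]; omega)
    exact (hgp I' hI'2).ne_zero ⟨i, hI'1 (Finset.mem_singleton_self i)⟩
  set τ : Fin (n + 1) → Fin r := Fin.castLE (by omega) with hτ
  have hτinj : Function.Injective τ := Fin.castLE_injective _
  set I : Finset (Fin r) := Finset.univ.filter fun i => n + 1 ≤ (i : ℕ) ∧ (i : ℕ) < n + 1 + μ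
    with hI
  set J : Finset (Fin r) := Finset.univ.image τ with hJ
  have hIcard : I.card = μ := by
    have h1 : I = (Finset.univ : Finset (Fin μ)).image
        (fun k : Fin μ => (⟨n + 1 + k, by omega⟩ : Fin r)) := by
      ext i
      rw [hI, Finset.mem_filter, Finset.mem_image]
      constructor
      · rintro ⟨-, h1, h2⟩
        refine ⟨⟨i - (n + 1), by omega⟩, Finset.mem_univ _, ?_⟩
        ext
        simp only
        omega
      · rintro ⟨k, -, rfl⟩
        refine ⟨Finset.mem_univ _, ?_, ?_⟩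
        · simp
        · simp
    rw [h1, Finset.card_image_of_injective, Finset.card_univ, Fintype.card_fin]
    intro a b hab
    have h2 := congrArg Fin.val hab
    ext
    simp only at h2
    omega
  have hIJ : Disjoint I J := by
    rw [Finset.disjoint_left]
    intro i hi hi'
    rw [hI, Finset.mem_filter] at hi
    rw [hJ, Finset.mem_image] at hi'
    obtain ⟨j, -, rfl⟩ := hi'
    have h1 := hi.2.1
    rw [hτ, Fin.val_castLE] at h1
    omega
  obtain ⟨z, hz0, hz1⟩ := exists_point L hgp I (by omega) (by omega) J hIJ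
  have hJcard : J.card = n + 1 := by
    rw [hJ, Finset.card_image_of_injective _ hτinj, Finset.card_univ, Fintype.card_fin]
  have hind : ∀ x : Fin (n + 1) → K, (∀ j, MvPolynomial.eval x (lin (L (τ j))) = 0) → x = 0 := by
    intro x hx
    have h1 : LinearIndependent K (fun j : Fin (n + 1) => L (τ j)) :=
      (hgp J hJcard).comp (fun j => (⟨τ j, Finset.mem_image_of_mem _ (Finset.mem_univ j)⟩ : J))
        fun a b hab => hτinj (congrArg Subtype.val hab)
    have hunit : IsUnit (Matrix.of fun a : Fin (n + 1) => L (τ a)) := by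
      rw [← Matrix.linearIndependent_rows_iff_isUnit]
      exact h1
    refine Matrix.mulVec_injective_iff_isUnit.2 hunit ?_
    rw [Matrix.mulVec_zero]
    funext j
    have h2 := hx j
    rw [lin_eval] at h2
    simpa [Matrix.mulVec, dotProduct] using h2
  have h := general hn (fun i => lin (L i)) (fun i => lin_ne_zero (hL0 i)) (fun _ => 1)
    (fun i => lin_hom (L i)) τ hτinj (fun _ => rfl) hind z
    (fun j => by
      rw [lin_eval]
      exact hz1 _ (Finset.mem_image_of_mem _ (Finset.mem_univ j)))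
    (fun i => if i ∈ I then 1 else 0) (fun i => by
      by_cases hi : i ∈ I
      · rw [if_pos hi]
        intro w
        rw [pow_one, Polynomial.X_dvd_iff, Polynomial.coeff_zero_eq_eval_zero]
        have e1 : ∀ p : Polynomial K, p.eval 0 = Polynomial.evalRingHom (0 : K) p := fun _ => rfl
        rw [e1, MvPolynomial.hom_eval₂]
        have e2 : (Polynomial.evalRingHom (0 : K)).comp Polynomial.C = RingHom.id K := by
          ext c; simp
        rw [e2]
        have e3 : MvPolynomial.eval₂ (RingHom.id K) z (lin (L i)) = 0 := by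
          change MvPolynomial.eval z (lin (L i)) = 0
          rw [lin_eval]
          exact hz0 i hi
        refine Eq.trans ?_ e3
        congr 1
        funext j
        simp
      · rw [if_neg hi]
        intro w
        rw [pow_zero]
        exact one_dvd _) μ hμ1 (by
      rw [Finset.sum_ite_mem, Finset.univ_inter, Finset.sum_const, smul_eq_mul, mul_one, hIcard])
    c hc Φ hΦ B
  obtain ⟨x, h1, h2, h3, h4, h5⟩ := h
  refine ⟨x, h1, h2, h3, h4, fun T hT => ?_⟩
  have h6 := h5 T hT
  simp only [Nat.cast_one, Finset.sum_const, Finset.card_univ, Fintype.card_fin, nsmul_eq_mul,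
    mul_one] at h6
  exact h6

end Pool.Agent.H50ET
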