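import Mathlib
import Pool.Agent.H50ET.Local

set_option autoImplicit false

/-!
Monomial curves of high contact with a hyperplane.
-/

namespace Pool.Agent.H50ET

open NumberField IsDedekindDomain Height Pool.Agent.W231.V

section algebra

variable {k : Type*} [Field k] [CharZero k]

/-- the coefficients of a polynomial with exponents `e j`, vanishing to order `n` at `1` -/
noncomputable def cw {n : ℕ} (e : Fin (n + 1) → ℕ) (j : Fin (n + 1)) : k :=
  (∏ i ∈ Finset.univ.erase j, ((e j : k) - e i))⁻¹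

lemma cw_ne_zero {n : ℕ} {e : Fin (n + 1) → ℕ} (he : Function.Injective e) (j : Fin (n + 1)) :
    (cw e j : k) ≠ 0 := by
  refine inv_ne_zero (Finset.prod_ne_zero_iff.2 fun i hi => ?_)
  rw [sub_ne_zero]
  intro h
  have h1 : e j = e i := by exact_mod_cast h
  exact Finset.ne_of_mem_erase hi (he h1).symm

lemma contact_dvd {n : ℕ} {e : Fin (n + 1) → ℕ} (he : Function.Injective e) :
    (Polynomial.X - Polynomial.C (1 : k)) ^ n ∣
      ∑ j, Polynomial.C (cw e j : k) * Polynomial.X ^ e j := by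
  have h1 : (Polynomial.X ^ n : Polynomial k).comp (Polynomial.X - Polynomial.C 1) =
      (Polynomial.X - Polynomial.C (1 : k)) ^ n := by
    simp
  rw [← h1, ← Polynomial.dvd_comp_X_add_C_iff, Polynomial.X_pow_dvd_iff]
  intro l hl
  have h2 : (∑ j, Polynomial.C (cw e j : k) * Polynomial.X ^ e j).comp
      (Polynomial.X + Polynomial.C 1) =
      ∑ j, Polynomial.C (cw e j : k) * (Polynomial.X + 1) ^ e j := by
    have h0 : ∀ p : Polynomial k, p.comp (Polynomial.X + Polynomial.C 1) =
        Polynomial.compRingHom (Polynomial.X + Polynomial.C 1) p := fun _ => rfl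
    rw [h0, map_sum]
    refine Finset.sum_congr rfl fun j _ => ?_
    rw [← h0]
    simp
  rw [h2, Polynomial.finsetSum_coeff]
  have h3 : ∀ j, (Polynomial.C (cw e j : k) * (Polynomial.X + 1) ^ e j).coeff l =
      (l.factorial : k)⁻¹ * ((descPochhammer k l).eval (e j : k) /
        ∏ i ∈ Finset.univ.erase j, ((e j : k) - e i)) := by
    intro j
    rw [Polynomial.coeff_C_mul, Polynomial.coeff_X_add_one_pow,
      descPochhammer_eval_eq_descFactorial, Nat.descFactorial_eq_factorial_mul_choose, cw]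
    have h4 : (l.factorial : k) ≠ 0 := by exact_mod_cast l.factorial_ne_zero
    push_cast
    field_simp
  rw [Finset.sum_congr rfl fun j _ => h3 j, ← Finset.mul_sum]
  have h5 := Lagrange.coeff_eq_sum (F := k) (s := Finset.univ) (v := fun j : Fin (n + 1) => (e j : k))
    (P := descPochhammer k l) (by
      intro a _ b _ hab
      have hab' : (e a : k) = (e b : k) := hab
      exact he (by exact_mod_cast hab')) (by
      rw [Finset.card_univ, Fintype.card_fin]
      refine (Polynomial.degree_le_natDegree).trans_lt ?_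
      rw [descPochhammer_natDegree]
      exact_mod_cast (by omega : l < n + 1))
  rw [← h5, Finset.card_univ, Fintype.card_fin, Nat.add_sub_cancel,
    Polynomial.coeff_eq_zero_of_natDegree_lt (by rw [descPochhammer_natDegree]; exact hl), mul_zero]

end algebra

variable {K : Type*} [Field K] [NumberField K]

theorem local_contact {n : ℕ} (L E : Fin (n + 1) → Fin (n + 1) → K) (ζ : Fin (n + 1) → K)
    (hE : ∀ (b : Fin (n + 1) → K) j, ∑ i, L j i * (∑ k, E i k * b k) = b j)
    (hζ : ∀ j, ζ j ≠ 0) {e : Fin (n + 1) → ℕ} (he : Function.Injective e) (q : ℕ)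
    (heq : ∀ j, e j ≤ q)
    (F : MvPolynomial (Fin (n + 1)) K) (hF : F.IsHomogeneous 1)
    (hval : ∀ a : Fin (n + 1) → ℕ, MvPolynomial.eval (pnt E ζ a) F = ∑ j, cw e j * (a j : K))
    (v : HeightOneSpectrum (𝓞 K)) :
    ∃ R : ℝ, 0 < R ∧ ∀ (m : ℕ) (a : Fin (n + 1) → ℕ), (∃ s t : ℕ, Odd s ∧ Odd t ∧
      s % 2 ^ m = t % 2 ^ m ∧ ∀ j, a j = s ^ e j * t ^ (q - e j)) →
      fv v (MvPolynomial.eval (pnt E ζ a) F) ≤
        R * fv v ((2 ^ (m * n) : ℕ) : K) * (⨆ i, fv v (pnt E ζ a i)) ^ 1 := by
  classical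
  have hsup0 : ∀ a : Fin (n + 1) → ℕ, 0 ≤ ⨆ i, fv v (pnt E ζ a i) := fun a =>
    Real.iSup_nonneg fun i => (fv v).nonneg _
  by_cases h2 : fv v (2 : K) = 1
  · refine ⟨∑ s ∈ F.support, fv v (F.coeff s) + 1, ?_, fun m a _ => ?_⟩
    · have : 0 ≤ ∑ s ∈ F.support, fv v (F.coeff s) := Finset.sum_nonneg fun s _ => (fv v).nonneg _
      linarith
    · have h3 : fv v ((2 ^ (m * n) : ℕ) : K) = 1 := by
        push_cast
        rw [map_pow, h2, one_pow]
      rw [h3, mul_one]
      refine (hom_bound (fv v) hF _).trans ?_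
      exact mul_le_mul_of_nonneg_right (by linarith) (pow_nonneg (hsup0 a) _)
  · have h2' : fv v (2 : K) < 1 := by
      have := fv_nat v (K := K) 2
      push_cast at this
      exact lt_of_le_of_ne this h2
    obtain ⟨c, hc, hc'⟩ := size_lower L E ζ hE hζ v h2'
    obtain ⟨Q, hQ⟩ := contact_dvd (k := K) he
    set M : ℝ := ∑ l ∈ Finset.range (Q.natDegree + 1), fv v (Q.coeff l) + 1 with hM
    have hM0 : 0 < M := by
      have : 0 ≤ ∑ l ∈ Finset.range (Q.natDegree + 1), fv v (Q.coeff l) :=
        Finset.sum_nonneg fun k _ => (fv v).nonneg _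
      linarith
    refine ⟨M / c, div_pos hM0 hc, ?_⟩
    rintro m a ⟨s, t, hs, ht, hst, ha⟩
    have hsK : (s : K) ≠ 0 := Nat.cast_ne_zero.2 hs.pos.ne'
    have htK : (t : K) ≠ 0 := Nat.cast_ne_zero.2 ht.pos.ne'
    have hfs : fv v (s : K) = 1 := fv_odd v h2' hs
    have hft : fv v (t : K) = 1 := fv_odd v h2' ht
    have hodd0 : Odd (a 0) := by
      rw [ha 0]
      exact hs.pow.mul ht.pow
    have hsum : ∑ j, cw e j * (a j : K) =
        (t : K) ^ q * (((s : K) / t - 1) ^ n * Q.eval ((s : K) / t)) := by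
      have h3 := congrArg (Polynomial.eval ((s : K) / t)) hQ
      rw [Polynomial.eval_mul, Polynomial.eval_pow, Polynomial.eval_sub, Polynomial.eval_X,
        Polynomial.eval_C, Polynomial.eval_finsetSum] at h3
      rw [← h3, Finset.mul_sum]
      refine Finset.sum_congr rfl fun j _ => ?_
      rw [Polynomial.eval_mul, Polynomial.eval_C, Polynomial.eval_pow, Polynomial.eval_X, ha j]
      have h4 : (t : K) ^ q = (t : K) ^ e j * (t : K) ^ (q - e j) := by
        rw [← pow_add]
        congr 1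
        have := heq j
        omega
      push_cast
      rw [h4, div_pow]
      field_simp
    have hdiff : fv v ((s : K) / t - 1) ≤ fv v (2 : K) ^ m := by
      have h3 : (s : K) / t - 1 = ((s : K) - t) / t := by field_simp
      rw [h3, map_div₀, hft, div_one]
      have h6 : ∃ b : ℤ, (s : K) - t = 2 ^ m * b := by
        have h7 : (s : ℤ) ≡ t [ZMOD ((2 ^ m : ℕ) : ℤ)] := by
          rw [Int.natCast_modEq_iff]; exact hst
        obtain ⟨b, hb⟩ := h7.symm.dvd
        refine ⟨b, ?_⟩
        have h8 := congrArg (Int.cast : ℤ → K) hb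
        push_cast at h8
        exact h8
      obtain ⟨b, hb⟩ := h6
      rw [hb, map_mul, map_pow]
      calc _ ≤ fv v (2 : K) ^ m * 1 :=
            mul_le_mul_of_nonneg_left (fv_int v b) (pow_nonneg ((fv v).nonneg _) _)
        _ = _ := mul_one _
    have hQb : fv v (Q.eval ((s : K) / t)) ≤ M := by
      rw [Polynomial.eval_eq_sum_range]
      refine (AbsoluteValue.sum_le (fv v) _ _).trans ?_
      have h1 : ∀ l ∈ Finset.range (Q.natDegree + 1),
          fv v (Q.coeff l * ((s : K) / t) ^ l) ≤ fv v (Q.coeff l) := fun l _ => by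
        rw [map_mul, map_pow, map_div₀, hfs, hft, div_one, one_pow, mul_one]
      refine (Finset.sum_le_sum h1).trans ?_
      rw [hM]; linarith
    have hc1 := hc' a hodd0
    have h4 : fv v ((2 ^ (m * n) : ℕ) : K) = (fv v (2 : K) ^ m) ^ n := by
      push_cast
      rw [map_pow, pow_mul]
    rw [hval, hsum, map_mul, map_mul, map_pow, map_pow, hft, one_pow, one_mul, h4, pow_one]
    have h5 : 0 ≤ (fv v (2 : K) ^ m) ^ n := pow_nonneg (pow_nonneg ((fv v).nonneg _) _) _
    have h6 : M ≤ M / c * (⨆ i, fv v (pnt E ζ a i)) := by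
      rw [div_mul_eq_mul_div, le_div_iff₀ hc]
      exact mul_le_mul_of_nonneg_left hc1 hM0.le
    calc fv v ((s : K) / t - 1) ^ n * fv v (Q.eval ((s : K) / t)) ≤
          (fv v (2 : K) ^ m) ^ n * M :=
            mul_le_mul (pow_le_pow_left₀ ((fv v).nonneg _) hdiff _) hQb ((fv v).nonneg _) h5
      _ ≤ (fv v (2 : K) ^ m) ^ n * (M / c * (⨆ i, fv v (pnt E ζ a i))) :=
          mul_le_mul_of_nonneg_left h6 h5
      _ = _ := by ring

end Pool.Agent.H50ET
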