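import Mathlib
import Pool.Agent.H50ET.Core

set_option autoImplicit false

/-!
The main estimate, for other families of points.
-/

namespace Pool.Agent.H50ET

open NumberField IsDedekindDomain Height Pool.Agent.W231.V

variable {K : Type*} [Field K] [NumberField K]

/-- `a` is a product of `q` elements of `A`, as far as its size and prime factors are concerned -/
def ProdOf (A : Finset ℕ) (q a : ℕ) : Prop :=
  (∀ X : ℕ, (∀ b ∈ A, b ≤ X) → a ≤ X ^ q) ∧ ∀ p, p.Prime → p ∣ a → ∃ b ∈ A, p ∣ b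

theorem core_abs {n : ℕ} (L E : Fin (n + 1) → Fin (n + 1) → K)
    (hE : ∀ (b : Fin (n + 1) → K) j, ∑ i, L j i * (∑ k, E i k * b k) = b j)
    (ζ : Fin (n + 1) → K) (hζ : ∀ k, ζ k ≠ 0)
    {ι : Type*} [Fintype ι] (F : ι → MvPolynomial (Fin (n + 1)) K)
    (κ : ι → ℕ) (hF : ∀ i, (F i).IsHomogeneous (κ i)) (μ : ι → ℕ)
    (M : ℕ) (hM : 1 ≤ M) (hMμ : ∑ i, μ i = M) (q : ℕ) (hq : 1 ≤ q)
    (Adm : ℕ → (Fin (n + 1) → ℕ) → Prop) (hAdm1 : ∀ m a, Adm m a → ∀ j, Odd (a j))
    (hAdm2 : ∀ m a, Adm m a → ∀ j, a j % 2 ^ m = a 0 % 2 ^ m)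
    (hloc : ∀ (i : ι) (v : HeightOneSpectrum (𝓞 K)), ∃ R : ℝ, 0 < R ∧
      ∀ (m : ℕ) (a : Fin (n + 1) → ℕ), Adm m a →
      fv v (MvPolynomial.eval (pnt E ζ a) (F i)) ≤
        R * fv v ((2 ^ (m * μ i) : ℕ) : K) * (⨆ j, fv v (pnt E ζ a j)) ^ κ i)
    (i1 : Fin (n + 1)) {Ω : Type*} [Field Ω] [Algebra K Ω]
    (Φ : MvPolynomial (Fin (n + 1)) Ω)
    (hex : ∃ k0 : ℕ, ∀ (A : Finset ℕ) (m : ℕ), k0 < A.card → (∀ a ∈ A, Odd a) →
      (∀ a ∈ A, ∀ b ∈ A, a % 2 ^ m = b % 2 ^ m) → ∃ a : Fin (n + 1) → ℕ, Adm m a ∧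
        (∀ j, ProdOf A q (a j)) ∧ a i1 ≠ a 0 ∧
        MvPolynomial.eval (fun i => algebraMap K Ω (pnt E ζ a i)) Φ ≠ 0 ∧
        ∀ i, MvPolynomial.eval (pnt E ζ a) (F i) ≠ 0)
    (c : ℝ) (hc : c * (q : ℝ) ^ ((M : ℝ) / (M + 1)) <
      (totalWeight K : ℝ) ^ ((1 : ℝ) / (M + 1)) * (((M : ℝ) + 1) ^ 2 / M)) (B : ℝ) :
    ∃ x : Fin (n + 1) → K, MvPolynomial.eval (fun i => algebraMap K Ω (x i)) Φ ≠ 0 ∧
      (∀ j, ∑ i, L j i * x i ≠ 0) ∧ (∀ i, MvPolynomial.eval x (F i) ≠ 0) ∧
      B ≤ logHeight x ∧ {v | Bad L F κ x v}.Finite ∧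
      ∀ T : Finset (HeightOneSpectrum (𝓞 K)), (∀ v ∈ T, Bad L F κ x v) →
        ∑ v ∈ T, ell v + c * (logHeight x ^ ((M : ℝ) / (M + 1)) / Real.log (logHeight x)) ≤
          (∑ i, (κ i : ℝ)) * logHeight x := by
  classical
  have hval : ∀ (a : Fin (n + 1) → ℕ) j, ∑ i, L j i * pnt E ζ a i = a j * ζ j := fun a j => by
    unfold pnt
    rw [hE]
  obtain ⟨k0, hk0⟩ := hex
  -- the bad primes
  set cs : Finset K := (Finset.univ.image fun p : Fin (n + 1) × Fin (n + 1) => L p.1 p.2) ∪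
    (Finset.univ.image fun p : Fin (n + 1) × Fin (n + 1) => E p.1 p.2) ∪
    Finset.univ.image ζ ∪ (Finset.univ.biUnion fun i => (F i).support.image fun s =>
      (F i).coeff s) ∪ {2} with hcs
  have hbadfin : {v : HeightOneSpectrum (𝓞 K) | ∃ x ∈ cs, x ≠ 0 ∧ fv v x ≠ 1}.Finite := by
    have : {v : HeightOneSpectrum (𝓞 K) | ∃ x ∈ cs, x ≠ 0 ∧ fv v x ≠ 1} ⊆
        ⋃ x ∈ cs.filter (fun x => x ≠ 0), {v : HeightOneSpectrum (𝓞 K) | fv v x ≠ 1} := by
      rintro v ⟨x, hx, hx0, hx1⟩
      simp only [Set.mem_iUnion, Finset.mem_filter]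
      exact ⟨x, ⟨hx, hx0⟩, hx1⟩
    refine Set.Finite.subset (Set.Finite.biUnion (Finset.finite_toSet _) fun x hx => ?_) this
    exact fv_support_finite (Finset.mem_filter.1 (Finset.mem_coe.1 hx)).2
  set T0 : Finset (HeightOneSpectrum (𝓞 K)) := hbadfin.toFinset with hT0
  have hgood : ∀ v ∉ T0, ∀ x ∈ cs, x ≠ 0 → fv v x = 1 := by
    intro v hv x hx hx0
    by_contra h
    exact hv (hbadfin.mem_toFinset.2 ⟨x, hx, hx0, h⟩)
  have hgood' : ∀ v ∉ T0, ∀ x ∈ cs, fv v x ≤ 1 := by
    intro v hv x hx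
    by_cases hx0 : x = 0
    · rw [hx0, map_zero]; exact zero_le_one
    · exact (hgood v hv x hx hx0).le
  have hmemL : ∀ i j, L i j ∈ cs := by
    intro i j
    rw [hcs]
    simp only [Finset.mem_union, Finset.mem_image, Finset.mem_univ, true_and]
    left; left; left; left
    exact ⟨(i, j), rfl⟩
  have hmemE : ∀ i j, E i j ∈ cs := by
    intro i j
    rw [hcs]
    simp only [Finset.mem_union, Finset.mem_image, Finset.mem_univ, true_and]
    left; left; left; right
    exact ⟨(i, j), rfl⟩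
  have hmemζ : ∀ j, ζ j ∈ cs := by
    intro j
    rw [hcs]
    simp only [Finset.mem_union, Finset.mem_image, Finset.mem_univ, true_and]
    left; left; right
    exact ⟨j, rfl⟩
  have hmem2 : (2 : K) ∈ cs := by
    rw [hcs]
    simp only [Finset.mem_union, Finset.mem_singleton]
    right; trivial
  have hcoeff : ∀ v ∉ T0, ∀ i s, fv v ((F i).coeff s) ≤ 1 := by
    intro v hv i s
    by_cases hs : s ∈ (F i).support
    · refine hgood' v hv _ ?_
      rw [hcs]
      simp only [Finset.mem_union, Finset.mem_biUnion, Finset.mem_image, Finset.mem_univ, true_and]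
      left; right
      exact ⟨i, s, hs, rfl⟩
    · rw [MvPolynomial.notMem_support_iff.1 hs, map_zero]
      exact zero_le_one
  have hf2 : ∀ v ∉ T0, fv v (2 : K) = 1 := fun v hv => hgood v hv 2 hmem2 two_ne_zero
  -- local bounds
  choose R hR0 hR using hloc
  set R1 : ι → HeightOneSpectrum (𝓞 K) → ℝ := fun i v => if v ∈ T0 then R i v else 1 with hR1def
  have hR1pos : ∀ i v, 0 < R1 i v := by
    intro i v
    rw [hR1def]
    dsimp only
    split_ifs
    · exact hR0 i v
    · exact one_pos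
  have hR1one : ∀ i, ∀ v ∉ T0, R1 i v = 1 := by
    intro i v hv
    rw [hR1def]
    dsimp only
    rw [if_neg hv]
  set R2 : ι → ℝ := fun i => ∑ w : InfinitePlace K, ∑ s ∈ (F i).support, w ((F i).coeff s) + 1
    with hR2def
  have hR2pos : ∀ i, 0 < R2 i := by
    intro i
    have : 0 ≤ ∑ w : InfinitePlace K, ∑ s ∈ (F i).support, w ((F i).coeff s) :=
      Finset.sum_nonneg fun w _ => Finset.sum_nonneg fun s _ => apply_nonneg w _
    rw [hR2def]
    dsimp only
    linarith
  -- constants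
  obtain ⟨C1, hC1⟩ := height_upper E ζ
  obtain ⟨c3, C3, hc3, hC3⟩ := height_lower L E ζ hE hζ i1
  set C2 : ℝ := ∑ v ∈ T0, ell v + ∑ i, ((totalWeight K : ℝ) * Real.log (R2 i) +
    ∑ v ∈ T0, Real.log (R1 i v)) with hC2def
  have hW : (0 : ℝ) < (totalWeight K : ℝ) := by exact_mod_cast totalWeight_pos K
  have hqR : (1 : ℝ) ≤ q := by exact_mod_cast hq
  have hq0 : (0 : ℝ) < q := by linarith
  have hqα : (0 : ℝ) < (q : ℝ) ^ ((M : ℝ) / (M + 1)) := Real.rpow_pos_of_pos hq0 _
  set c' : ℝ := max c 0 * (q : ℝ) ^ ((M : ℝ) / (M + 1)) with hc'def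
  have hMR : (1 : ℝ) ≤ M := by exact_mod_cast hM
  have hc' : c' < (totalWeight K : ℝ) ^ ((1 : ℝ) / (M + 1)) * (((M : ℝ) + 1) ^ 2 / M) := by
    rcases le_total c 0 with h | h
    · rw [hc'def, max_eq_right h, zero_mul]
      positivity
    · rw [hc'def, max_eq_left h]
      exact hc
  obtain ⟨y, U, m, hy, hcount, hmB, hpar⟩ := params M hM (totalWeight K : ℝ) hW c' hc' (k0 + 1)
    (by omega) (|C1|) C2 ((max B (q * Real.exp 2) + C3) / c3)
  obtain ⟨A, hAcard, hA, hAcong⟩ := exists_class y U (2 ^ m) (k0 + 1) (by positivity) hy hcount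
  obtain ⟨a, haAdm, haP, hane, hΦx, hFx⟩ := hk0 A m (by omega) (fun a ha => (hA a ha).1) hAcong
  set x := pnt E ζ a with hx
  have hodd : ∀ j, Odd (a j) := hAdm1 m a haAdm
  have hle : ∀ j, a j ≤ (y ^ U) ^ q := fun j => (haP j).1 _ fun b hb => (hA b hb).2.1
  have hsmooth : ∀ j p, p.Prime → p ∣ a j → p ≤ y := by
    intro j p hp hpa
    obtain ⟨b, hb, hpb⟩ := (haP j).2 p hp hpa
    exact (hA b hb).2.2 p hp hpb
  have hcong : ∀ j, a j % 2 ^ m = a 0 % 2 ^ m := hAdm2 m a haAdm
  have hLx : ∀ j, ∑ i, L j i * x i ≠ 0 := by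
    intro j
    rw [hx, hval]
    exact mul_ne_zero (Nat.cast_ne_zero.2 (hodd j).pos.ne') (hζ j)
  have hx0 : x ≠ 0 := by
    intro h
    refine hLx 0 ?_
    rw [h]
    simp
  -- the height
  have hlow := hC3 m a hodd (hcong i1) hane
  rw [← hx] at hlow
  have hlow' : max B (q * Real.exp 2) ≤ logHeight x := by
    rw [div_le_iff₀ hc3] at hmB
    linarith
  have hup : logHeight x ≤ q * ((totalWeight K : ℝ) * (U * Real.log y) + |C1|) := by
    have h1 := hC1 a ((y ^ U) ^ q) (fun k => (hodd k).pos) hle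
    push_cast at h1
    rw [Real.log_pow, Real.log_pow] at h1
    have h2 := le_abs_self C1
    have h3 : |C1| ≤ q * |C1| := le_mul_of_one_le_left (abs_nonneg _) hqR
    linarith
  have hmain : c * (logHeight x ^ ((M : ℝ) / (M + 1)) / Real.log (logHeight x)) + C2 ≤
      (totalWeight K : ℝ) * (M * (m * Real.log 2) - Chebyshev.theta y) := by
    have he2 : Real.exp 2 ≤ logHeight x / q := by
      rw [le_div_iff₀ hq0, mul_comm]
      exact (le_max_right _ _).trans hlow'
    have h1 := hpar (logHeight x / q) he2 (by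
      rw [div_le_iff₀ hq0, mul_comm]
      exact hup)
    refine le_trans ?_ h1
    have hh0 : 0 < logHeight x / q := (Real.exp_pos 2).trans_le he2
    have hh1 : 0 < logHeight x := by
      have := mul_pos hh0 hq0
      rwa [div_mul_cancel₀ _ hq0.ne'] at this
    have hl0 : 0 < Real.log (logHeight x / q) := by
      refine Real.log_pos (lt_of_lt_of_le ?_ he2)
      exact Real.one_lt_exp_iff.2 (by norm_num)
    have hl1 : Real.log (logHeight x / q) ≤ Real.log (logHeight x) :=
      Real.log_le_log hh0 (div_le_self hh1.le hqR)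
    have h2 : logHeight x ^ ((M : ℝ) / (M + 1)) = (q : ℝ) ^ ((M : ℝ) / (M + 1)) *
        (logHeight x / q) ^ ((M : ℝ) / (M + 1)) := by
      rw [← Real.mul_rpow hq0.le hh0.le, mul_div_cancel₀ _ hq0.ne']
    have h3 : 0 ≤ (logHeight x / q) ^ ((M : ℝ) / (M + 1)) := Real.rpow_nonneg hh0.le _
    have h4 : logHeight x ^ ((M : ℝ) / (M + 1)) / Real.log (logHeight x) ≤
        (q : ℝ) ^ ((M : ℝ) / (M + 1)) * ((logHeight x / q) ^ ((M : ℝ) / (M + 1)) /
          Real.log (logHeight x / q)) := by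
      rw [h2, ← mul_div_assoc]
      exact div_le_div_of_nonneg_left (mul_nonneg hqα.le h3) hl0 hl1
    have h5 : c * (logHeight x ^ ((M : ℝ) / (M + 1)) / Real.log (logHeight x)) ≤
        max c 0 * (logHeight x ^ ((M : ℝ) / (M + 1)) / Real.log (logHeight x)) := by
      refine mul_le_mul_of_nonneg_right (le_max_left _ _) ?_
      exact div_nonneg (Real.rpow_nonneg hh1.le _) (hl0.le.trans hl1)
    have h6 := mul_le_mul_of_nonneg_left h4 (le_max_right c 0)
    rw [hc'def]
    linarith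
  -- integrality
  have hxle : ∀ v ∉ T0, ∀ i, fv v (x i) ≤ 1 := by
    intro v hv i
    rw [hx, pnt]
    refine fv_sum_le v _ _ 1 zero_le_one fun k _ => ?_
    rw [map_mul, map_mul]
    exact mul_le_one₀ (hgood' v hv _ (hmemE i k)) (mul_nonneg ((fv v).nonneg _) ((fv v).nonneg _))
      (mul_le_one₀ (fv_nat v _) ((fv v).nonneg _) (hgood' v hv _ (hmemζ k)))
  have hsup : ∀ v ∉ T0, ⨆ i, fv v (x i) ≤ 1 := fun v hv => ciSup_le fun i => hxle v hv i
  have hsup0 : ∀ v, 0 ≤ ⨆ i, fv v (x i) := fun v => Real.iSup_nonneg fun i => (fv v).nonneg _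
  -- the dichotomy
  have key : ∀ v, Bad L F κ x v → v ∈ T0 ∨ fv v (primorial y : K) < 1 ∨
      ∃ i, v ∉ T0 ∧ fv v (MvPolynomial.eval x (F i)) < (⨆ i, fv v (x i)) ^ κ i := by
    intro v hv
    by_cases hvT : v ∈ T0
    · exact Or.inl hvT
    right
    rcases hv with ⟨j, hj⟩ | ⟨i, hi⟩
    · left
      refine fv_primorial v (hodd j).pos.ne' (hsmooth j) ?_
      have h1 : fv v (∑ i, L j i * x i) < 1 := by
        refine hj.trans_le (mul_le_one₀ (ciSup_le fun i => hgood' v hvT _ (hmemL j i)) (hsup0 v)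
          (hsup v hvT))
      rw [hx, hval, map_mul, hgood v hvT _ (hmemζ j) (hζ j), mul_one] at h1
      exact h1
    · right
      refine ⟨i, hvT, hi.trans_le ?_⟩
      calc _ ≤ 1 * (⨆ i, fv v (x i)) ^ κ i :=
            mul_le_mul_of_nonneg_right (ciSup_le fun s => hcoeff v hvT i s)
              (pow_nonneg (hsup0 v) _)
        _ = _ := one_mul _
  have hprim0 : (primorial y : K) ≠ 0 := Nat.cast_ne_zero.2 (primorial_pos y).ne'
  refine ⟨x, hΦx, hLx, hFx, (le_max_left _ _).trans hlow', ?_, fun T hT => ?_⟩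
  · -- finiteness
    have hfin := (T0.finite_toSet.union (fv_support_finite hprim0)).union
      (Set.finite_iUnion fun i => fv_support_finite (hFx i))
    refine hfin.subset fun v hv => ?_
    rcases key v hv with h | h | ⟨i, hvT, h⟩
    · exact Or.inl (Or.inl h)
    · exact Or.inl (Or.inr h.ne)
    · right
      simp only [Set.mem_iUnion]
      exact ⟨i, (h.trans_le (pow_le_one₀ (hsup0 v) (hsup v hvT))).ne⟩
  · -- the counting function
    set T1 := T.filter fun v => fv v (primorial y : K) < 1 with hT1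
    set T2 : ι → Finset (HeightOneSpectrum (𝓞 K)) := fun i => T.filter fun v =>
      v ∉ T0 ∧ fv v (MvPolynomial.eval x (F i)) < (⨆ i, fv v (x i)) ^ κ i with hT2
    have hcover : T ⊆ T0 ∪ T1 ∪ Finset.univ.biUnion T2 := by
      intro v hv
      rcases key v (hT v hv) with h | h | ⟨i, h1, h2⟩
      · exact Finset.mem_union_left _ (Finset.mem_union_left _ h)
      · exact Finset.mem_union_left _ (Finset.mem_union_right _ (Finset.mem_filter.2 ⟨hv, h⟩))
      · refine Finset.mem_union_right _ (Finset.mem_biUnion.2 ⟨i, Finset.mem_univ i, ?_⟩)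
        exact Finset.mem_filter.2 ⟨hv, h1, h2⟩
    have h1 : ∑ v ∈ T, ell v ≤ ∑ v ∈ T0, ell v + ∑ v ∈ T1, ell v +
        ∑ i, ∑ v ∈ T2 i, ell v := by
      refine (Finset.sum_le_sum_of_subset_of_nonneg hcover fun v _ _ => (ell_pos v).le).trans ?_
      refine (sum_union_le' _ _).trans (add_le_add (sum_union_le' _ _) (sum_biUnion_le' _ _))
    have h2 : ∑ v ∈ T1, ell v ≤ (totalWeight K : ℝ) * Chebyshev.theta y := by
      have e1 := weight_le hprim0 T1 fun v hv => (Finset.mem_filter.1 hv).2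
      rw [logHeight₁_nat (primorial_pos y)] at e1
      rw [Chebyshev.theta_eq_log_primorial, Nat.floor_natCast]
      exact e1
    have h3 : ∀ i, ∑ v ∈ T2 i, ell v ≤ κ i * logHeight x -
        (totalWeight K : ℝ) * ((m * μ i : ℕ) * Real.log 2) +
          ((totalWeight K : ℝ) * Real.log (R2 i) + ∑ v ∈ T0, Real.log (R1 i v)) := by
      intro i
      have e1 := fmt hx0 (hFx i) (κ i) (2 ^ (m * μ i)) (Nat.one_le_two_pow) T0 (R1 i) (hR1pos i)
        (hR1one i) (R2 i) (hR2pos i) (by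
          intro w
          refine (hom_bound w.1 (hF i) x).trans ?_
          refine mul_le_mul_of_nonneg_right ?_
            (pow_nonneg (Real.iSup_nonneg fun i => apply_nonneg w _) _)
          have e2 := Finset.single_le_sum (f := fun w : InfinitePlace K =>
            ∑ s ∈ (F i).support, w ((F i).coeff s))
            (fun w _ => Finset.sum_nonneg fun s _ => apply_nonneg w _) (Finset.mem_univ w)
          have e3 : ∑ s ∈ (F i).support, w.1 ((F i).coeff s) =
            ∑ s ∈ (F i).support, w ((F i).coeff s) := rfl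
          rw [e3, hR2def]
          dsimp only at e2 ⊢
          linarith) (by
          intro v
          by_cases hv : v ∈ T0
          · have e2 := hR i v m a haAdm
            rw [hR1def]
            dsimp only
            rw [if_pos hv]
            exact e2
          · rw [hR1one i v hv, one_mul]
            have e2 : fv v ((2 ^ (m * μ i) : ℕ) : K) = 1 := by
              push_cast
              rw [map_pow, hf2 v hv, one_pow]
            rw [e2, one_mul]
            exact hom_bound_na (fv v) (fv_na v) (hF i) (hcoeff v hv i) x) (T2 i) (by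
          rw [Finset.disjoint_left]
          intro v hv
          exact (Finset.mem_filter.1 hv).2.1) (by
          intro v hv
          push_cast
          rw [map_pow, hf2 v (Finset.mem_filter.1 hv).2.1, one_pow]) (by
          intro v hv
          exact (Finset.mem_filter.1 hv).2.2)
      have e4 : Real.log ((2 ^ (m * μ i) : ℕ) : ℝ) = (m * μ i : ℕ) * Real.log 2 := by
        push_cast
        rw [Real.log_pow]
        push_cast
        ring
      rw [e4] at e1
      linarith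
    have h4 := Finset.sum_le_sum fun i (_ : i ∈ (Finset.univ : Finset ι)) => h3 i
    rw [Finset.sum_add_distrib, Finset.sum_sub_distrib, ← Finset.sum_mul] at h4
    have h5 : ∑ i, (totalWeight K : ℝ) * ((m * μ i : ℕ) * Real.log 2) =
        (totalWeight K : ℝ) * (M * (m * Real.log 2)) := by
      rw [← Finset.mul_sum, ← hMμ]
      congr 1
      push_cast
      rw [Finset.sum_mul]
      refine Finset.sum_congr rfl fun i _ => by ring
    rw [h5] at h4
    rw [hC2def] at hmain
    linarith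

end Pool.Agent.H50ET
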