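import Mathlib
import Pool.Agent.H50ET.Nonvan

set_option autoImplicit false

/-!
The monomial curves are not contained in a hypersurface of small degree.
-/

namespace Pool.Agent.H50ET

open NumberField IsDedekindDomain Height Pool.Agent.W231.V

lemma totalDegree_bind_le {σ τ R : Type*} [CommRing R] (f : σ → MvPolynomial τ R)
    (hf : ∀ i, (f i).totalDegree ≤ 1) (p : MvPolynomial σ R) :
    (MvPolynomial.bind₁ f p).totalDegree ≤ p.totalDegree := by
  have h1 : MvPolynomial.bind₁ f p = ∑ s ∈ p.support, MvPolynomial.C (p.coeff s) *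
      ∏ i ∈ s.support, f i ^ s i := by
    change MvPolynomial.eval₂ (algebraMap R (MvPolynomial τ R)) f p = _
    rw [MvPolynomial.eval₂_eq]
    rfl
  rw [h1]
  refine MvPolynomial.totalDegree_finsetSum_le fun s hs => ?_
  refine (MvPolynomial.totalDegree_mul _ _).trans ?_
  rw [MvPolynomial.totalDegree_C, zero_add]
  refine (MvPolynomial.totalDegree_finsetProd _ _).trans ?_
  have h2 : ∀ i ∈ s.support, (f i ^ s i).totalDegree ≤ s i := fun i _ => by
    refine (MvPolynomial.totalDegree_pow _ _).trans ?_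
    calc s i * (f i).totalDegree ≤ s i * 1 := Nat.mul_le_mul_left _ (hf i)
      _ = s i := mul_one _
  exact (Finset.sum_le_sum h2).trans (MvPolynomial.le_totalDegree hs)

lemma digits_inj {n b : ℕ} (hb : 1 < b) {v w : Fin (n + 1) →₀ ℕ} (hv : ∀ i, v i < b)
    (hw : ∀ i, w i < b)
    (h : ∑ x : Fin (n + 1), b ^ (x : ℕ) * v x = ∑ x : Fin (n + 1), b ^ (x : ℕ) * w x) :
    v = w := by
  refine Finsupp.ext <| congrFun <| List.ofFn_inj.mp ?_
  apply Nat.ofDigits_inj_of_len_eq hb (by simp)
  · intro l hl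
    rw [List.mem_ofFn] at hl
    obtain ⟨i, rfl⟩ := hl
    exact hv i
  · intro l hl
    rw [List.mem_ofFn] at hl
    obtain ⟨i, rfl⟩ := hl
    exact hw i
  simpa only [Nat.ofDigits_eq_sum_mapIdx, List.mapIdx_eq_ofFn, List.get_ofFn, List.length_ofFn,
    Fin.val_cast, mul_comm, List.sum_ofFn] using! h

variable {K : Type*} [Field K] [NumberField K]

theorem nonvanish2 {Ω : Type*} [Field Ω] [Algebra K Ω] {n : ℕ}
    (L E : Fin (n + 1) → Fin (n + 1) → K) (ζ : Fin (n + 1) → K)
    (hEL : ∀ i j, ∑ k, E i k * L k j = if i = j then 1 else 0)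
    (hζ : ∀ j, ζ j ≠ 0)
    (P : MvPolynomial (Fin (n + 1)) Ω) (hP : P ≠ 0) (b : ℕ) (hb1 : 1 < b)
    (hb : P.totalDegree < b) (q : ℕ) :
    ∃ k0 : ℕ, ∀ A : Finset ℕ, k0 < A.card → (∀ a ∈ A, a ≠ 0) → ∃ s ∈ A, ∃ t ∈ A, s ≠ t ∧
      MvPolynomial.eval (fun i => algebraMap K Ω (pnt E ζ
        (fun j => s ^ (b ^ (j : ℕ)) * t ^ (q - b ^ (j : ℕ))) i)) P ≠ 0 := by
  classical
  have hchar : CharZero Ω := charZero_of_injective_algebraMap (algebraMap K Ω).injective
  set sub : Fin (n + 1) → MvPolynomial (Fin (n + 1)) Ω := fun i =>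
    ∑ k, MvPolynomial.C (algebraMap K Ω (E i k * ζ k)) * MvPolynomial.X k with hsub
  set sub' : Fin (n + 1) → MvPolynomial (Fin (n + 1)) Ω := fun k =>
    MvPolynomial.C (algebraMap K Ω (ζ k)⁻¹) * ∑ j, MvPolynomial.C (algebraMap K Ω (L k j)) *
      MvPolynomial.X j with hsub'
  have hss : ∀ i, MvPolynomial.bind₁ sub' (sub i) = MvPolynomial.X i := by
    intro i
    rw [hsub]
    simp only [map_sum, map_mul, MvPolynomial.bind₁_X_right]
    have h1 : ∀ k, (MvPolynomial.bind₁ sub') (MvPolynomial.C (algebraMap K Ω (E i k))) *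
        (MvPolynomial.bind₁ sub') (MvPolynomial.C (algebraMap K Ω (ζ k))) * sub' k =
        ∑ j, MvPolynomial.C (algebraMap K Ω (E i k * L k j)) * MvPolynomial.X j := by
      intro k
      rw [hsub']
      simp only [MvPolynomial.algHom_C, MvPolynomial.algebraMap_eq]
      rw [← mul_assoc, mul_assoc (MvPolynomial.C _) (MvPolynomial.C _) (MvPolynomial.C _),
        ← map_mul MvPolynomial.C, ← map_mul (algebraMap K Ω), mul_inv_cancel₀ (hζ k), map_one,
        map_one, mul_one, Finset.mul_sum]
      refine Finset.sum_congr rfl fun j _ => ?_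
      rw [map_mul (algebraMap K Ω), map_mul MvPolynomial.C]
      ring
    rw [Finset.sum_congr rfl fun k _ => h1 k, Finset.sum_comm]
    have h2 : ∀ j, ∑ k, MvPolynomial.C (algebraMap K Ω (E i k * L k j)) * MvPolynomial.X j =
        if i = j then (MvPolynomial.X j : MvPolynomial (Fin (n + 1)) Ω) else 0 := by
      intro j
      rw [← Finset.sum_mul, ← map_sum, ← map_sum, hEL]
      split_ifs with h
      · rw [map_one, map_one, one_mul]
      · rw [map_zero, map_zero, zero_mul]
    rw [Finset.sum_congr rfl fun j _ => h2 j, Finset.sum_ite_eq]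
    simp
  set P1 := MvPolynomial.bind₁ sub P with hP1
  have hb0 : P1 ≠ 0 := by
    intro h
    have h1 : MvPolynomial.bind₁ sub' (MvPolynomial.bind₁ sub P) = P := by
      rw [MvPolynomial.bind₁_bind₁]
      have : (fun i => MvPolynomial.bind₁ sub' (sub i)) = MvPolynomial.X := funext hss
      rw [this, MvPolynomial.bind₁_X_left]
      rfl
    rw [← hP1, h, map_zero] at h1
    exact hP h1.symm
  have hdeg : P1.totalDegree < b := by
    refine (totalDegree_bind_le sub (fun i => ?_) P).trans_lt hb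
    refine MvPolynomial.totalDegree_finsetSum_le fun k _ => ?_
    refine (MvPolynomial.totalDegree_mul _ _).trans ?_
    rw [MvPolynomial.totalDegree_C, zero_add]
    exact (MvPolynomial.totalDegree_X k).le
  have hlt : ∀ v ∈ P1.support, ∀ i, v i < b := by
    intro v hv i
    refine lt_of_le_of_lt ?_ hdeg
    refine le_trans ?_ (MvPolynomial.le_totalDegree hv)
    by_cases hi : i ∈ v.support
    · exact Finset.single_le_sum (f := fun i => v i) (fun _ _ => Nat.zero_le _) hi
    · rw [Finsupp.notMem_support_iff.1 hi]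
      exact Nat.zero_le _
  -- evaluation of `P1`
  have heval : ∀ a : Fin (n + 1) → ℕ, MvPolynomial.eval (fun i => (a i : Ω)) P1 =
      MvPolynomial.eval (fun i => algebraMap K Ω (pnt E ζ a i)) P := by
    intro a
    rw [← MvPolynomial.coe_aeval_eq_eval, ← MvPolynomial.coe_aeval_eq_eval]
    change (MvPolynomial.aeval fun i => (a i : Ω)) (MvPolynomial.bind₁ sub P) = _
    rw [MvPolynomial.aeval_bind₁]
    have h4 : (fun i => (MvPolynomial.aeval fun i => (a i : Ω)) (sub i)) =
        fun i => algebraMap K Ω (pnt E ζ a i) := by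
      funext i
      rw [hsub, pnt, map_sum, map_sum]
      refine Finset.sum_congr rfl fun k _ => ?_
      rw [map_mul, MvPolynomial.aeval_X, MvPolynomial.algHom_C]
      simp only [map_mul, map_natCast, Algebra.algebraMap_self, RingHom.id_apply]
      ring
    rw [h4]
    rfl
  -- the polynomial in `s`
  set w : (Fin (n + 1) →₀ ℕ) → ℕ := fun v => ∑ x : Fin (n + 1), b ^ (x : ℕ) * v x with hw
  set R : ℕ → Polynomial Ω := fun t => ∑ v ∈ P1.support,
    Polynomial.C (P1.coeff v * ∏ x : Fin (n + 1), ((t : Ω) ^ (q - b ^ (x : ℕ))) ^ v x) *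
      Polynomial.X ^ w v with hR
  obtain ⟨v0, hv0⟩ := MvPolynomial.support_nonempty.2 hb0
  have hR0 : ∀ t : ℕ, t ≠ 0 → R t ≠ 0 := by
    intro t ht h
    have h1 := congrArg (fun p => Polynomial.coeff p (w v0)) h
    simp only [hR, Polynomial.finsetSum_coeff, Polynomial.coeff_C_mul, Polynomial.coeff_X_pow,
      Polynomial.coeff_zero] at h1
    rw [Finset.sum_eq_single v0] at h1
    · rw [if_pos rfl, mul_one] at h1
      refine mul_ne_zero (MvPolynomial.mem_support_iff.1 hv0) (Finset.prod_ne_zero_iff.2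
        fun x _ => pow_ne_zero _ (pow_ne_zero _ (Nat.cast_ne_zero.2 ht))) h1
    · intro v hv hne
      rw [if_neg, mul_zero]
      intro h2
      exact hne (digits_inj hb1 (hlt v hv) (hlt v0 hv0) h2.symm)
    · intro h2
      exact absurd hv0 h2
  have hRdeg : ∀ t, (R t).natDegree ≤ P1.support.sup w := by
    intro t
    refine Polynomial.natDegree_sum_le_of_forall_le _ _ fun v hv => ?_
    exact (Polynomial.natDegree_C_mul_X_pow_le _ _).trans (Finset.le_sup hv)
  have hReval : ∀ s t : ℕ, (R t).eval (s : Ω) = MvPolynomial.eval (fun i =>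
      algebraMap K Ω (pnt E ζ (fun j => s ^ (b ^ (j : ℕ)) * t ^ (q - b ^ (j : ℕ))) i)) P := by
    intro s t
    rw [← heval, MvPolynomial.eval_eq', hR, Polynomial.eval_finsetSum]
    refine Finset.sum_congr rfl fun v _ => ?_
    rw [Polynomial.eval_mul, Polynomial.eval_C, Polynomial.eval_pow, Polynomial.eval_X, mul_assoc,
      hw]
    congr 1
    rw [← Finset.prod_pow_eq_pow_sum, ← Finset.prod_mul_distrib]
    refine Finset.prod_congr rfl fun x _ => ?_
    push_cast
    rw [mul_pow, pow_mul]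
    ring
  refine ⟨P1.support.sup w + 1, fun A hA hA0 => ?_⟩
  obtain ⟨t, ht⟩ := Finset.card_pos.1 (by omega : 0 < A.card)
  have ht0 : t ≠ 0 := hA0 t ht
  by_contra hcon
  push Not at hcon
  have h1 : (A.erase t).image (Nat.cast : ℕ → Ω) ⊆ (R t).roots.toFinset := by
    intro y hy
    obtain ⟨s, hs, rfl⟩ := Finset.mem_image.1 hy
    rw [Multiset.mem_toFinset, Polynomial.mem_roots (hR0 t ht0), Polynomial.IsRoot.def, hReval]
    exact hcon s (Finset.mem_of_mem_erase hs) t ht (Finset.ne_of_mem_erase hs)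
  have h2 := Finset.card_le_card h1
  rw [Finset.card_image_of_injective _ Nat.cast_injective, Finset.card_erase_of_mem ht] at h2
  have h3 := (Multiset.toFinset_card_le (R t).roots).trans (Polynomial.card_roots' (R t))
  have h4 := hRdeg t
  omega

end Pool.Agent.H50ET
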