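import Mathlib
import Pool.Agent.H50ET.Final
import Pool.Agent.H50ET.CoreAbs
import Pool.Agent.H50ET.Contact
import Pool.Agent.H50ET.Nonvan2

set_option autoImplicit false

/-!
The main estimate for a divisor of the projective space containing `n + 2` hyperplanes in general
position.
-/

namespace Pool.Agent.H50ET

open NumberField IsDedekindDomain Height Pool.Agent.W231.V

variable {K : Type*} [Field K] [NumberField K]

theorem contact_main {n r : ℕ} (hn : 1 ≤ n) (F : Fin r → MvPolynomial (Fin (n + 1)) K)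
    (hF0 : ∀ i, F i ≠ 0) (d : Fin r → ℕ) (hF : ∀ i, (F i).IsHomogeneous (d i))
    (τ : Fin (n + 2) → Fin r) (hτ : Function.Injective τ) (hτ1 : ∀ j, d (τ j) = 1)
    (hgp : ∀ j0, ∀ x : Fin (n + 1) → K,
      (∀ j, j ≠ j0 → MvPolynomial.eval x (F (τ j)) = 0) → x = 0)
    {Ω : Type*} [Field Ω] [Algebra K Ω]
    (Φ : MvPolynomial (Fin (n + 1)) Ω) (hΦ : Φ ≠ 0) (c : ℝ)
    (hc : c * (((∑ i, d i + Φ.totalDegree + 1) ^ n : ℕ) : ℝ) ^ ((n : ℝ) / (n + 1)) <
      (Module.finrank ℚ K : ℝ) ^ ((1 : ℝ) / (n + 1)) * (((n : ℝ) + 1) ^ 2 / n)) (B : ℝ) :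
    ∃ x : Fin (n + 1) → K, MvPolynomial.eval (fun i => algebraMap K Ω (x i)) Φ ≠ 0 ∧
      (∀ i, MvPolynomial.eval x (F i) ≠ 0) ∧ B ≤ logHeight x ∧
      {v : HeightOneSpectrum (𝓞 K) | ∃ i, fv v (MvPolynomial.eval x (F i)) <
        (⨆ s, fv v ((F i).coeff s)) * (⨆ j, fv v (x j)) ^ d i}.Finite ∧
      ∀ T : Finset (HeightOneSpectrum (𝓞 K)), (∀ v ∈ T, ∃ i,
        fv v (MvPolynomial.eval x (F i)) <
          (⨆ s, fv v ((F i).coeff s)) * (⨆ j, fv v (x j)) ^ d i) →
        ∑ v ∈ T, ell v + c * (logHeight x ^ ((n : ℝ) / (n + 1)) / Real.log (logHeight x)) ≤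
          (∑ i, (d i : ℝ) - n - 1) * logHeight x := by
  classical
  set σ : Fin (n + 1) → Fin r := fun j => τ (Fin.castSucc j) with hσ
  have hσinj : Function.Injective σ := fun a b h => Fin.castSucc_injective _ (hτ h)
  set L : Fin (n + 1) → Fin (n + 1) → K := fun j i => (F (σ j)).coeff (Finsupp.single i 1) with hLdef
  have hFσ : ∀ j, (F (σ j)).IsHomogeneous 1 := fun j => by
    have := hF (σ j)
    rwa [hσ, hτ1] at this
  have hev : ∀ j (x : Fin (n + 1) → K), MvPolynomial.eval x (F (σ j)) = ∑ i, L j i * x i :=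
    fun j x => eval_linear (hFσ j) x
  have hunit : IsUnit (Matrix.of L) := by
    rw [← Matrix.mulVec_injective_iff_isUnit]
    intro x y hxy
    have h2 : x - y = 0 := by
      refine hgp (Fin.last _) _ fun j hj => ?_
      obtain ⟨j', rfl⟩ := Fin.exists_castSucc_eq.2 hj
      have h3 := congrFun hxy j'
      have h4 := hev j' (x - y)
      simp only [Matrix.mulVec, dotProduct, Matrix.of_apply] at h3
      simp only [Pi.sub_apply, mul_sub, Finset.sum_sub_distrib] at h4
      rw [h3, sub_self] at h4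
      exact h4
    exact sub_eq_zero.1 h2
  have hdet : IsUnit (Matrix.of L).det := (Matrix.isUnit_iff_isUnit_det _).1 hunit
  set E : Fin (n + 1) → Fin (n + 1) → K := fun i k => (Matrix.of L)⁻¹ i k with hEdef
  have hLE : ∀ i j, ∑ k, L i k * E k j = if i = j then 1 else 0 := by
    intro i j
    have h1 := congrFun (congrFun (Matrix.mul_nonsing_inv (Matrix.of L) hdet) i) j
    rw [Matrix.mul_apply, Matrix.one_apply] at h1
    exact h1
  have hEL : ∀ i j, ∑ k, E i k * L k j = if i = j then 1 else 0 := by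
    intro i j
    have h1 := congrFun (congrFun (Matrix.nonsing_inv_mul (Matrix.of L) hdet) i) j
    rw [Matrix.mul_apply, Matrix.one_apply] at h1
    exact h1
  have hE : ∀ (b : Fin (n + 1) → K) j, ∑ i, L j i * (∑ k, E i k * b k) = b j := by
    intro b j
    have h1 : ∀ i, L j i * (∑ k, E i k * b k) = ∑ k, (L j i * E i k) * b k := fun i => by
      rw [Finset.mul_sum]
      exact Finset.sum_congr rfl fun k _ => by ring
    rw [Finset.sum_congr rfl fun i _ => h1 i, Finset.sum_comm]
    have h2 : ∀ k, ∑ i, (L j i * E i k) * b k = if j = k then b k else 0 := fun k => by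
      rw [← Finset.sum_mul, hLE]
      split_ifs
      · rw [one_mul]
      · rw [zero_mul]
    rw [Finset.sum_congr rfl fun k _ => h2 k, Finset.sum_ite_eq]
    simp
  -- the last hyperplane
  set i0 : Fin r := τ (Fin.last _) with hi0
  have hFi0 : (F i0).IsHomogeneous 1 := by
    have := hF i0
    rwa [hi0, hτ1] at this
  set g : Fin (n + 1) → K := fun j => MvPolynomial.eval (fun i => E i j) (F i0) with hg
  have hg0 : ∀ j, g j ≠ 0 := by
    intro j hj
    have h1 : (fun i => E i j) = 0 := by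
      refine hgp (Fin.castSucc j) _ fun j' hj' => ?_
      by_cases hl : j' = Fin.last _
      · rw [hl]; exact hj
      · obtain ⟨j'', rfl⟩ := Fin.exists_castSucc_eq.2 hl
        have h2 := hev j'' (fun i => E i j)
        rw [hLE, if_neg (fun h => hj' (by rw [h]))] at h2
        exact h2
    have h2 := hLE j j
    rw [if_pos rfl] at h2
    refine one_ne_zero (α := K) ?_
    rw [← h2]
    refine Finset.sum_eq_zero fun k _ => ?_
    have := congrFun h1 k
    simp only [Pi.zero_apply] at this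
    rw [this, mul_zero]
  -- the exponents
  set D : ℕ := ∑ i, d i + Φ.totalDegree with hD
  have hD1 : 1 ≤ D := by
    have h1 : d i0 ≤ ∑ i, d i := Finset.single_le_sum (fun _ _ => Nat.zero_le _) (Finset.mem_univ i0)
    rw [hi0, hτ1] at h1
    omega
  set b : ℕ := D + 1 with hb
  have hb1 : 1 < b := by omega
  set q : ℕ := b ^ n with hq
  have hq1 : 1 ≤ q := Nat.one_le_pow _ _ (by omega)
  set e : Fin (n + 1) → ℕ := fun j => b ^ (j : ℕ) with he
  have hinj : Function.Injective e := fun i j hij =>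
    Fin.ext (Nat.pow_right_injective (by omega : 2 ≤ b) hij)
  have heq : ∀ j, e j ≤ q := fun j => Nat.pow_le_pow_right (by omega) (by omega)
  set ζ : Fin (n + 1) → K := fun j => cw e j * (g j)⁻¹ with hζdef
  have hζ : ∀ j, ζ j ≠ 0 := fun j => mul_ne_zero (cw_ne_zero hinj j) (inv_ne_zero (hg0 j))
  have hval0 : ∀ a : Fin (n + 1) → ℕ, MvPolynomial.eval (pnt E ζ a) (F i0) =
      ∑ j, cw e j * (a j : K) := by
    intro a
    rw [eval_linear hFi0]
    have h1 : ∀ i, (F i0).coeff (Finsupp.single i 1) * pnt E ζ a i =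
        ∑ j, ((F i0).coeff (Finsupp.single i 1) * E i j) * ((a j : K) * ζ j) := fun i => by
      rw [pnt, Finset.mul_sum]
      exact Finset.sum_congr rfl fun j _ => by ring
    rw [Finset.sum_congr rfl fun i _ => h1 i, Finset.sum_comm]
    refine Finset.sum_congr rfl fun j _ => ?_
    rw [← Finset.sum_mul, ← eval_linear hFi0 (fun i => E i j)]
    change g j * ((a j : K) * (cw e j * (g j)⁻¹)) = _
    field_simp [hg0 j]
  -- the components other than the first `n + 1` hyperplanes
  set ι := {i : Fin r // i ∉ Set.range σ} with hι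
  have hi0ι : i0 ∉ Set.range σ := by
    rintro ⟨j, hj⟩
    have := hτ hj
    exact (Fin.castSucc_lt_last j).ne this
  set μ : ι → ℕ := fun i => if (i : Fin r) = i0 then n else 0 with hμ
  have hμsum : ∑ i, μ i = n := by
    rw [Finset.sum_eq_single (⟨i0, hi0ι⟩ : ι)]
    · rw [hμ]; simp
    · intro i _ hi
      rw [hμ]
      exact if_neg fun h => hi (Subtype.ext h)
    · intro h; exact absurd (Finset.mem_univ _) h
  have hsum : ∀ f : Fin r → ℕ, ∑ i : Fin r, f i = ∑ j, f (σ j) + ∑ i : ι, f i := by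
    intro f
    rw [← Fintype.sum_subtype_add_sum_subtype (fun i => i ∈ Set.range σ) f]
    congr 1
    refine (Finset.sum_subtype (Finset.univ.image σ) (fun i => by simp) f).symm.trans ?_
    rw [Finset.sum_image fun a _ b _ hab => hσinj hab]
  have hσ1 : ∀ j, d (σ j) = 1 := fun j => hτ1 _
  have hsumd : (∑ i : ι, (d i : ℝ)) = ∑ i, (d i : ℝ) - n - 1 := by
    have := hsum d
    rw [Finset.sum_congr rfl fun j _ => hσ1 j, Finset.sum_const, Finset.card_univ,
      Fintype.card_fin, smul_eq_mul, mul_one] at this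
    have h2 := congrArg (Nat.cast : ℕ → ℝ) this
    push_cast at h2
    linarith
  -- the polynomial
  set P : MvPolynomial (Fin (n + 1)) Ω := Φ * ∏ i : ι, MvPolynomial.map (algebraMap K Ω) (F i)
    with hP
  have hP0 : P ≠ 0 := by
    refine mul_ne_zero hΦ (Finset.prod_ne_zero_iff.2 fun i _ => ?_)
    intro h
    refine hF0 i (MvPolynomial.map_injective (algebraMap K Ω) (algebraMap K Ω).injective ?_)
    rw [h, map_zero]
  have hPdeg : P.totalDegree < b := by
    refine Nat.lt_succ_of_le ((MvPolynomial.totalDegree_mul _ _).trans ?_)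
    rw [hD, add_comm (∑ i, d i)]
    refine Nat.add_le_add_left ((MvPolynomial.totalDegree_finsetProd _ _).trans ?_) _
    have h1 : ∀ i : ι, (MvPolynomial.map (algebraMap K Ω) (F i)).totalDegree ≤ d i := fun i =>
      ((hF i).map _).totalDegree_le
    refine (Finset.sum_le_sum fun i _ => h1 i).trans ?_
    rw [hsum d]
    exact Nat.le_add_left _ _
  obtain ⟨k0, hk0⟩ := nonvanish2 L E ζ hEL hζ P hP0 b hb1 hPdeg q
  set i1 : Fin (n + 1) := ⟨1, by omega⟩ with hi1
  have hc' : c * (q : ℝ) ^ ((n : ℝ) / (n + 1)) <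
      (totalWeight K : ℝ) ^ ((1 : ℝ) / (n + 1)) * (((n : ℝ) + 1) ^ 2 / n) := by
    rw [NumberField.totalWeight_eq_finrank]
    exact hc
  obtain ⟨x, h1, h2, h3, h4, h5, h6⟩ := core_abs L E hE ζ hζ (fun i : ι => F i)
    (fun i : ι => d i) (fun i => hF i) μ n hn hμsum q hq1
    (fun m a => ∃ s t : ℕ, Odd s ∧ Odd t ∧ s % 2 ^ m = t % 2 ^ m ∧
      ∀ j, a j = s ^ e j * t ^ (q - e j))
    (by
      rintro m a ⟨s, t, hs, ht, -, ha⟩ j
      rw [ha]
      exact hs.pow.mul ht.pow)
    (by
      rintro m a ⟨s, t, hs, ht, hst, ha⟩ j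
      have h1 : ∀ j, a j ≡ t ^ q [MOD 2 ^ m] := by
        intro j
        rw [ha j]
        have h2 : s ^ e j * t ^ (q - e j) ≡ t ^ e j * t ^ (q - e j) [MOD 2 ^ m] :=
          Nat.ModEq.mul_right _ (Nat.ModEq.pow _ hst)
        rw [← pow_add, Nat.add_sub_cancel' (heq j)] at h2
        exact h2
      exact (h1 j).trans (h1 0).symm)
    (by
      intro i v
      by_cases hii : (i : Fin r) = i0
      · have hμi : μ i = n := by rw [hμ]; exact if_pos hii
        rw [hμi]
        obtain ⟨R, hR, hR'⟩ := local_contact L E ζ hE hζ hinj q heq (F i0) hFi0 hval0 v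
        refine ⟨R, hR, fun m a ha => ?_⟩
        have := hR' m a ha
        rw [hii]
        have hdi : d i0 = 1 := hτ1 _
        rw [hdi]
        exact this
      · have hμi : μ i = 0 := by rw [hμ]; exact if_neg hii
        rw [hμi]
        obtain ⟨R, hR, hR'⟩ := local_bound L E ζ (fun i => ∑ k, E i k * ζ k) hE (fun _ => rfl) hζ
          (F i) (d i) (hF i) 0 (fun w => by rw [pow_zero]; exact one_dvd _) v
        refine ⟨R, hR, ?_⟩
        rintro m a ⟨s, t, hs, ht, hst, ha⟩
        refine hR' m a (fun j => ?_) fun j => ?_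
        · rw [ha]
          exact hs.pow.mul ht.pow
        · have h1 : ∀ j, a j ≡ t ^ q [MOD 2 ^ m] := by
            intro j
            rw [ha j]
            have h2 : s ^ e j * t ^ (q - e j) ≡ t ^ e j * t ^ (q - e j) [MOD 2 ^ m] :=
              Nat.ModEq.mul_right _ (Nat.ModEq.pow _ hst)
            rw [← pow_add, Nat.add_sub_cancel' (heq j)] at h2
            exact h2
          exact (h1 j).trans (h1 0).symm)
    i1 Φ
    (by
      refine ⟨k0, fun A m hA hodd hcong => ?_⟩
      obtain ⟨s, hs, t, ht, hne, hst⟩ := hk0 A hA fun a ha => (hodd a ha).pos.ne'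
      set a : Fin (n + 1) → ℕ := fun j => s ^ (b ^ (j : ℕ)) * t ^ (q - b ^ (j : ℕ)) with ha
      rw [hP, map_mul, map_prod] at hst
      refine ⟨a, ⟨s, t, hodd s hs, hodd t ht, hcong s hs t ht, fun j => rfl⟩, fun j => ⟨?_, ?_⟩,
        ?_, left_ne_zero_of_mul hst, fun i h => ?_⟩
      · intro X hX
        calc s ^ (b ^ (j : ℕ)) * t ^ (q - b ^ (j : ℕ)) ≤ X ^ (b ^ (j : ℕ)) * X ^ (q - b ^ (j : ℕ)) :=
              Nat.mul_le_mul (Nat.pow_le_pow_left (hX s hs) _) (Nat.pow_le_pow_left (hX t ht) _)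
          _ = X ^ q := by rw [← pow_add, Nat.add_sub_cancel' (heq j)]
      · intro p hp hpa
        rcases (hp.dvd_mul).1 hpa with h | h
        · exact ⟨s, hs, hp.dvd_of_dvd_pow h⟩
        · exact ⟨t, ht, hp.dvd_of_dvd_pow h⟩
      · intro h
        have hs0 : 0 < s := (hodd s hs).pos
        have ht0 : 0 < t := (hodd t ht).pos
        have h1 : s ^ (b ^ 1) * t ^ (q - b ^ 1) = s ^ (b ^ 0) * t ^ (q - b ^ 0) := h
        rw [pow_one, pow_zero, pow_one] at h1
        have hbq : b ≤ q := by
          have := heq i1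
          simpa [he, hi1] using this
        have h2 : s ^ b = s * s ^ (b - 1) := by
          rw [← pow_succ']
          congr 1
        have h3 : t ^ (q - 1) = t ^ (b - 1) * t ^ (q - b) := by
          rw [← pow_add]
          congr 1
          omega
        rw [h2, h3, mul_assoc] at h1
        have h4 := Nat.eq_of_mul_eq_mul_left hs0 h1
        have h5 := Nat.eq_of_mul_eq_mul_right (pow_pos ht0 _) h4
        exact hne (Nat.pow_left_injective (by omega : b - 1 ≠ 0) h5)
      · have h1 := Finset.prod_ne_zero_iff.1 (right_ne_zero_of_mul hst) i (Finset.mem_univ i)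
        rw [MvPolynomial.eval_map] at h1
        refine h1 ?_
        have h2 : MvPolynomial.eval₂ (algebraMap K Ω) (fun i => (algebraMap K Ω) (pnt E ζ a i))
            (F i) = algebraMap K Ω (MvPolynomial.eval (pnt E ζ a) (F i)) := by
          change _ = algebraMap K Ω (MvPolynomial.eval₂ (RingHom.id K) (pnt E ζ a) (F i))
          rw [MvPolynomial.hom_eval₂, RingHom.comp_id]
        rw [h2, h, map_zero])
    c hc' B
  have hbad : ∀ v : HeightOneSpectrum (𝓞 K), (∃ i, fv v (MvPolynomial.eval x (F i)) <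
      (⨆ s, fv v ((F i).coeff s)) * (⨆ j, fv v (x j)) ^ d i) →
      Bad L (fun i : ι => F i) (fun i : ι => d i) x v := by
    rintro v ⟨i, hi⟩
    by_cases hiτ : i ∈ Set.range σ
    · obtain ⟨j, rfl⟩ := hiτ
      left
      refine ⟨j, ?_⟩
      rw [← hev]
      refine hi.trans_le ?_
      rw [hσ1, pow_one]
      refine mul_le_mul_of_nonneg_right ?_ (Real.iSup_nonneg fun i => (fv v).nonneg _)
      refine ciSup_le fun s => ?_
      by_cases hs : s.degree = 1
      · obtain ⟨i, rfl⟩ := degree_one hs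
        exact le_ciSup (Set.finite_range fun i => fv v (L j i)).bddAbove i
      · rw [(hFσ j).coeff_eq_zero hs, map_zero]
        exact Real.iSup_nonneg fun i => (fv v).nonneg _
    · right
      exact ⟨⟨i, hiτ⟩, hi⟩
  refine ⟨x, h1, fun i => ?_, h4, h5.subset fun v hv => hbad v hv, fun T hT => ?_⟩
  · by_cases hiτ : i ∈ Set.range σ
    · obtain ⟨j, rfl⟩ := hiτ
      rw [hev]
      exact h2 j
    · exact h3 ⟨i, hiτ⟩
  · have := h6 T fun v hv => hbad v (hT v hv)
    rw [hsumd] at this
    exact this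

end Pool.Agent.H50ET
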