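import Mathlib
import Pool.Agent.W231.V.Ht

set_option autoImplicit false

/-!
From the local heights to absolute values.
-/

namespace Pool.Agent.H50ET

open NumberField IsDedekindDomain Height Pool.Agent.W231.V

variable {K : Type*} [Field K] [NumberField K]

lemma exists_of_sum_log_pos {n r : ℕ} (v : HeightOneSpectrum (𝓞 K))
    (F : Fin r → MvPolynomial (Fin (n + 1)) K) (x : Fin (n + 1) → K)
    (hx : ∀ i, MvPolynomial.eval x (F i) ≠ 0)
    (h : 0 < ∑ i, Real.log ((⨆ s, FinitePlace.mk v ((F i).coeff s)) *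
      (⨆ j, FinitePlace.mk v (x j)) ^ (F i).totalDegree /
        FinitePlace.mk v (MvPolynomial.eval x (F i)))) :
    ∃ i, fv v (MvPolynomial.eval x (F i)) <
      (⨆ s, fv v ((F i).coeff s)) * (⨆ j, fv v (x j)) ^ (F i).totalDegree := by
  by_contra hcon
  push Not at hcon
  refine absurd h (not_lt.2 (Finset.sum_nonpos fun i _ => ?_))
  have h0 : 0 < FinitePlace.mk v (MvPolynomial.eval x (F i)) := FinitePlace.pos_iff.2 (hx i)
  refine Real.log_nonpos ?_ ?_
  · refine div_nonneg (mul_nonneg ?_ (pow_nonneg ?_ _)) h0.le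
    · exact Real.iSup_nonneg fun j => apply_nonneg _ _
    · exact Real.iSup_nonneg fun j => apply_nonneg _ _
  · rw [div_le_one h0]
    exact hcon i

end Pool.Agent.H50ET
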